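import Pool.Agent.KS6_22.BA.Seq

/-!
# The solution of the recursive inequalities

Owner helper22.
-/

set_option autoImplicit false

namespace Pool.Agent.KS6_22.BA

lemma step_up {x y z X t : ℝ} (hx : 0 < x) (hxy : x ≤ y) (ht : 0 ≤ t) (ht1 : t ≤ 1 / 2)
    (hz : z ≤ 2 * t) (hyz : y * (1 - z / 2) ≤ x) (hX : 0 < X)
    (hX' : X ≤ x - y * x + y ^ 2 / 2) : 1 / x + (1 - t ^ 2 / (1 - t) ^ 2) / 2 ≤ 1 / X := by
  have hy : 0 < y := hx.trans_le hxy
  have h1 : y * (1 - t) ≤ x := le_trans (by nlinarith) hyz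
  have ht' : 0 < 1 - t := by linarith
  set e := t ^ 2 / (1 - t) ^ 2 with he
  have he0 : 0 ≤ e := by positivity
  have he1 : e ≤ 1 := by
    rw [he, div_le_one (by positivity)]
    nlinarith
  have het : e * (1 - t) ^ 2 = t ^ 2 := by
    rw [he]
    field_simp
  have h2 : (y - x) ^ 2 ≤ e * x ^ 2 := by
    have h3 : y - x ≤ t * y := by linarith
    have h4 : (y - x) ^ 2 ≤ (t * y) ^ 2 := by
      apply pow_le_pow_left₀ (by linarith) h3
    have h5 : (y * (1 - t)) ^ 2 ≤ x ^ 2 := pow_le_pow_left₀ (by positivity) h1 2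
    have h6 : (t * y) ^ 2 = e * (y * (1 - t)) ^ 2 := by
      rw [mul_pow, mul_pow, ← het]
      ring
    rw [h6] at h4
    exact h4.trans (mul_le_mul_of_nonneg_left h5 he0)
  set s := (1 - e) / 2 with hs
  have hs0 : 0 ≤ s := by
    rw [hs]
    linarith
  have h3 : X ≤ x - s * x ^ 2 := by
    rw [hs]
    nlinarith
  rw [le_div_iff₀ hX]
  calc (1 / x + s) * X ≤ (1 / x + s) * (x - s * x ^ 2) :=
        mul_le_mul_of_nonneg_left h3 (by positivity)
    _ = 1 - s ^ 2 * x ^ 2 := by
        field_simp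
        ring
    _ ≤ 1 := by nlinarith [sq_nonneg (s * x)]

lemma step_lo {x y z X a b : ℝ} (hx : 0 < x) (hxy : x ≤ y) (ha : a < 1) (hb : b < 1)
    (hy : y ≤ 2 * a) (hz : z ≤ 2 * b) (hyz : y * (1 - z / 2) ≤ x)
    (hX : x * (1 - y / 2) ≤ X) : 1 / X ≤ 1 / x + 1 / (2 * ((1 - a) * (1 - b))) := by
  have hy0 : 0 < y := hx.trans_le hxy
  have h1 : 0 < 1 - a := by linarith
  have h2 : 0 < 1 - b := by linarith
  have h3 : 1 - a ≤ 1 - y / 2 := by linarith
  have h4 : 0 < 1 - y / 2 := by linarith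
  have h5 : y * (1 - b) ≤ x := le_trans (by nlinarith) hyz
  have h6 : 1 / X ≤ 1 / (x * (1 - y / 2)) := one_div_le_one_div_of_le (by positivity) hX
  refine h6.trans ?_
  have h7 : 1 / (x * (1 - y / 2)) = 1 / x + y / (2 * x * (1 - y / 2)) := by
    have h8 : 1 - y / 2 ≠ 0 := h4.ne'
    set w := 1 - y / 2 with hw
    have h9 : y = 2 * (1 - w) := by
      rw [hw]
      ring
    rw [h9]
    field_simp
    ring
  rw [h7]
  refine add_le_add le_rfl ?_
  rw [div_le_div_iff₀ (by positivity) (by positivity)]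
  have h8 : y * ((1 - a) * (1 - b)) ≤ x * (1 - y / 2) := by
    calc y * ((1 - a) * (1 - b)) = (y * (1 - b)) * (1 - a) := by ring
      _ ≤ x * (1 - a) := mul_le_mul_of_nonneg_right h5 h1.le
      _ ≤ x * (1 - y / 2) := mul_le_mul_of_nonneg_left h3 hx.le
  nlinarith

variable {A : ℕ → ℝ} {N : ℕ}

lemma Rc.basic (h : Rc A N) {n : ℕ} (hn : n + 1 ≤ N) :
    0 < A (n + 1) ∧ A (n + 1) ≤ A n ∧ A n ≤ 1 ∧ A n / 2 ≤ A (n + 1) := by
  induction n with
  | zero =>
    have h1 := h.one hn
    rw [zero_add, h1, h.zero]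
    norm_num
  | succ n ih =>
    obtain ⟨h1, h2, h3, h4⟩ := ih (by omega)
    have h5 := h.lower n (by omega)
    have h6 := h.upper n (by omega)
    rw [show n + 1 + 1 = n + 2 by ring]
    have h7 : A (n + 1) / 2 ≤ A (n + 2) := by nlinarith
    refine ⟨by linarith, ?_, h2.trans h3, h7⟩
    nlinarith

lemma Rc.pos (h : Rc A N) {n : ℕ} (hn : n ≤ N) : 0 < A n := by
  cases n with
  | zero =>
    rw [h.zero]
    norm_num
  | succ n => exact (h.basic hn).1

lemma Rc.two (h : Rc A N) (hN : 2 ≤ N) : 1 / 4 ≤ A 2 ∧ A 2 ≤ 1 / 2 := by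
  have h1 := h.one (by omega)
  have h0 := h.zero
  have h5 := h.lower 0 (by omega)
  have h6 := h.upper 0 (by omega)
  rw [zero_add, zero_add, h1, h0] at h5 h6
  constructor <;> linarith

lemma Rc.three (h : Rc A N) (hN : 3 ≤ N) : 3 / 16 ≤ A 3 ∧ A 3 ≤ 3 / 8 := by
  have h1 := h.one (by omega)
  obtain ⟨h2, h3⟩ := h.two (by omega)
  have h5 := h.lower 1 (by omega)
  have h6 := h.upper 1 (by omega)
  rw [show 1 + 1 = 2 by rfl, show 1 + 2 = 3 by rfl, h1] at h5 h6
  constructor <;> linarith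

lemma Rc.four (h : Rc A N) (hN : 4 ≤ N) : 9 / 64 ≤ A 4 ∧ 28 / 9 ≤ 1 / A 4 := by
  have h1 := h.one (by omega)
  obtain ⟨h2, h3⟩ := h.two (by omega)
  obtain ⟨h4, h4'⟩ := h.three (by omega)
  have h5 := h.lower 2 (by omega)
  have h6 := h.upper 2 (by omega)
  rw [show 2 + 1 = 3 by rfl, show 2 + 2 = 4 by rfl] at h5 h6
  have h7 := h.lower 1 (by omega)
  rw [show 1 + 1 = 2 by rfl, show 1 + 2 = 3 by rfl] at h7
  have h8 : A 3 ≤ A 2 := (h.basic (n := 2) (by omega)).2.1
  constructor
  · nlinarith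
  · have := step_up (t := 1 / 4) (by linarith) h8 (by norm_num) (by norm_num)
      (by rw [h1]; norm_num) h7 (h.pos hN) h6
    have h9 : 8 / 3 ≤ 1 / A 3 := by
      rw [le_div_iff₀ (by linarith)]
      linarith
    norm_num at this h9 ⊢
    linarith

lemma Rc.five (h : Rc A N) (hN : 5 ≤ N) : 3 ≤ 1 / A 5 := by
  obtain ⟨h2, h3⟩ := h.two (by omega)
  obtain ⟨h4, h4'⟩ := h.four (by omega)
  have h6 := h.upper 3 (by omega)
  rw [show 3 + 1 = 4 by rfl, show 3 + 2 = 5 by rfl] at h6
  have h7 := h.lower 2 (by omega)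
  rw [show 2 + 1 = 3 by rfl, show 2 + 2 = 4 by rfl] at h7
  have h8 : A 4 ≤ A 3 := (h.basic (n := 3) (by omega)).2.1
  have := step_up (t := 1 / 4) (by linarith) h8 (by norm_num) (by norm_num)
      (by linarith) h7 (h.pos hN) h6
  norm_num at this h4' ⊢
  linarith

lemma Rc.up_aux (h : Rc A N) (n : ℕ) : n ≤ N → 1 ≤ n → (n : ℝ) / 2 ≤ 1 / A n ∧
    (5 ≤ n → (n : ℝ) / 2 + 1 / (2 * ((n : ℝ) - 4)) ≤ 1 / A n) := by
  induction n using Nat.strong_induction_on with
  | _ n ih =>
    intro hn h1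
    rcases Nat.lt_or_ge n 6 with h6 | h6
    · have hA1 := h.one (by omega)
      interval_cases n
      · rw [hA1]
        norm_num
      · obtain ⟨h2, h3⟩ := h.two hn
        refine ⟨?_, by omega⟩
        rw [le_div_iff₀ (by linarith)]
        push_cast
        linarith
      · obtain ⟨h2, h3⟩ := h.three hn
        refine ⟨?_, by omega⟩
        rw [le_div_iff₀ (by linarith)]
        push_cast
        linarith
      · obtain ⟨h2, h3⟩ := h.four hn
        refine ⟨?_, by omega⟩
        push_cast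
        linarith
      · have h2 := h.five hn
        constructor
        · push_cast
          linarith
        · intro _
          norm_num at h2 ⊢
          linarith
    · obtain ⟨j, rfl⟩ := Nat.exists_eq_add_of_le' h6
      -- the previous term is number `j + 5`
      obtain ⟨-, h2⟩ := ih (j + 5) (by omega) (by omega) (by omega)
      have h3 := h2 (by omega)
      obtain ⟨h4, -⟩ := ih (j + 3) (by omega) (by omega) (by omega)
      have h5 := h.upper (j + 4) (by omega)
      have h7 := h.lower (j + 3) (by omega)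
      have h8 : A (j + 5) ≤ A (j + 4) := (h.basic (n := j + 4) (by omega)).2.1
      have hp3 : 0 < A (j + 3) := h.pos (by omega)
      have hp5 : 0 < A (j + 5) := h.pos (by omega)
      have hz : A (j + 3) ≤ 2 * (1 / ((j : ℝ) + 3)) := by
        rw [le_div_iff₀ hp3] at h4
        push_cast at h4
        rw [mul_one_div, le_div_iff₀ (by positivity)]
        linarith
      have h9 := step_up (t := 1 / ((j : ℝ) + 3)) hp5 h8 (by positivity) (by
        rw [div_le_div_iff₀ (by positivity) (by norm_num)]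
        have : (0 : ℝ) ≤ j := Nat.cast_nonneg _
        linarith) hz h7 (h.pos hn) h5
      have e1 : (1 / ((j : ℝ) + 3)) ^ 2 / (1 - 1 / ((j : ℝ) + 3)) ^ 2 = 1 / ((j : ℝ) + 2) ^ 2 := by
        have : (1 : ℝ) - 1 / ((j : ℝ) + 3) = ((j : ℝ) + 2) / ((j : ℝ) + 3) := by
          field_simp
          ring
        rw [this]
        field_simp
      rw [e1] at h9
      push_cast at h3 ⊢
      have h10 : 1 / (2 * ((j : ℝ) + 6 - 4)) + 1 / (((j : ℝ) + 2) ^ 2 * 2) ≤
          1 / (2 * ((j : ℝ) + 5 - 4)) := by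
        have : (0 : ℝ) ≤ j := Nat.cast_nonneg _
        rw [show (j : ℝ) + 6 - 4 = j + 2 by ring, show (j : ℝ) + 5 - 4 = j + 1 by ring]
        rw [div_add_div _ _ (by positivity) (by positivity), div_le_div_iff₀ (by positivity)
          (by positivity)]
        nlinarith [mul_nonneg this this, mul_nonneg (mul_nonneg this this) this]
      have e2 : (1 - 1 / ((j : ℝ) + 2) ^ 2) / 2 = 1 / 2 - 1 / (((j : ℝ) + 2) ^ 2 * 2) := by
        field_simp
      rw [e2] at h9
      have hpos : 0 ≤ 1 / (2 * ((j : ℝ) + 6 - 4)) := by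
        have : (0 : ℝ) ≤ j := Nat.cast_nonneg _
        rw [show (j : ℝ) + 6 - 4 = j + 2 by ring]
        positivity
      rw [show j + 4 + 2 = j + 6 by ring] at h9
      constructor
      · linarith
      · intro _
        linarith

/-- the upper bound -/
theorem Rc.le (h : Rc A N) {n : ℕ} (hn : n ≤ N) (h1 : 1 ≤ n) : A n ≤ 2 / n := by
  obtain ⟨h2, -⟩ := h.up_aux n hn h1
  have h3 := h.pos hn
  rw [le_div_iff₀ h3] at h2
  have : (0 : ℝ) < n := by exact_mod_cast h1
  rw [le_div_iff₀ this]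
  linarith

lemma Rc.lo_aux (h : Rc A N) (n : ℕ) : n + 5 ≤ N →
    1 / A (n + 5) ≤ ((n : ℝ) + 5) / 2 + 31 / 5 + Real.log ((n : ℝ) + 1) := by
  induction n with
  | zero =>
    intro hN
    obtain ⟨h4, -⟩ := h.four (by omega)
    obtain ⟨h3, h3'⟩ := h.three (by omega)
    obtain ⟨h2, h2'⟩ := h.two (by omega)
    have h5 := h.lower 3 (by omega)
    have h7 := h.lower 2 (by omega)
    rw [show 3 + 1 = 4 by rfl, show 3 + 2 = 5 by rfl] at h5
    rw [show 2 + 1 = 3 by rfl, show 2 + 2 = 4 by rfl] at h7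
    have h8 : A 4 ≤ A 3 := (h.basic (n := 3) (by omega)).2.1
    have h9 : 1 / A 5 ≤ 1 / A 4 + 1 / (2 * ((1 - 3 / 16) * (1 - 1 / 4))) :=
      step_lo (by linarith) h8 (by norm_num) (by norm_num) (by linarith) (by linarith) h7 h5
    have h10 : 1 / A 4 ≤ 64 / 9 := by
      rw [div_le_div_iff₀ (by linarith) (by norm_num)]
      linarith
    norm_num at h9 h10 ⊢
    linarith
  | succ n ih =>
    intro hN
    have h1 := ih (by omega)
    have h5 := h.lower (n + 4) (by omega)
    have h7 := h.lower (n + 3) (by omega)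
    have h8 : A (n + 5) ≤ A (n + 4) := (h.basic (n := n + 4) (by omega)).2.1
    have hy := h.le (n := n + 4) (by omega) (by omega)
    have hz := h.le (n := n + 3) (by omega) (by omega)
    push_cast at hy hz ⊢
    have hn : (0 : ℝ) ≤ n := Nat.cast_nonneg _
    have h9 := step_lo (a := 1 / ((n : ℝ) + 4)) (b := 1 / ((n : ℝ) + 3)) (h.pos (by omega)) h8
      (by rw [div_lt_one (by positivity)]; linarith) (by rw [div_lt_one (by positivity)]; linarith)
      (by rw [mul_one_div]; exact hy) (by rw [mul_one_div]; exact hz) h7 h5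
    have e1 : 1 / (2 * ((1 - 1 / ((n : ℝ) + 4)) * (1 - 1 / ((n : ℝ) + 3)))) =
        1 / 2 + 1 / ((n : ℝ) + 2) := by
      have a1 : (1 : ℝ) - 1 / ((n : ℝ) + 4) = ((n : ℝ) + 3) / ((n : ℝ) + 4) := by
        field_simp
        ring
      have a2 : (1 : ℝ) - 1 / ((n : ℝ) + 3) = ((n : ℝ) + 2) / ((n : ℝ) + 3) := by
        field_simp
        ring
      rw [a1, a2]
      field_simp
      ring
    rw [e1] at h9
    have h10 : 1 / ((n : ℝ) + 2) ≤ Real.log ((n : ℝ) + 1 + 1) - Real.log ((n : ℝ) + 1) := by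
      rw [← Real.log_div (by positivity) (by positivity)]
      have := Real.one_sub_inv_le_log_of_pos (x := ((n : ℝ) + 1 + 1) / ((n : ℝ) + 1))
        (by positivity)
      refine le_trans (le_of_eq ?_) this
      rw [inv_div]
      field_simp
      ring
    rw [show n + 4 + 2 = n + 1 + 5 by ring] at h9
    linarith

/-- the lower bound -/
theorem Rc.ge (h : Rc A N) {n : ℕ} (hn : n ≤ N) (h1 : 1 ≤ n) :
    1 / ((n : ℝ) / 2 + Real.log n + 7) ≤ A n := by
  have h0 := h.pos hn
  have hl : 0 ≤ Real.log n := Real.log_natCast_nonneg n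
  have hn0 : (0 : ℝ) < n := by exact_mod_cast h1
  rw [one_div_le (by positivity) h0]
  rcases Nat.lt_or_ge n 5 with h6 | h6
  · have hA1 := h.one (by omega)
    interval_cases n
    · rw [hA1]
      norm_num
    · obtain ⟨h2, h3⟩ := h.two hn
      have : 1 / A 2 ≤ 4 := by
        rw [div_le_iff₀ (by linarith)]
        linarith
      push_cast at hl ⊢
      linarith
    · obtain ⟨h2, h3⟩ := h.three hn
      have : 1 / A 3 ≤ 16 / 3 := by
        rw [div_le_iff₀ (by linarith)]
        linarith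
      push_cast at hl ⊢
      linarith
    · obtain ⟨h2, h3⟩ := h.four hn
      have : 1 / A 4 ≤ 64 / 9 := by
        rw [div_le_iff₀ (by linarith)]
        linarith
      push_cast at hl ⊢
      linarith
  · obtain ⟨j, rfl⟩ := Nat.exists_eq_add_of_le' h6
    have h2 := h.lo_aux j hn
    have h3 : Real.log ((j : ℝ) + 1) ≤ Real.log ((j + 5 : ℕ) : ℝ) := by
      apply Real.log_le_log (by positivity)
      push_cast
      linarith
    push_cast at h3 ⊢
    linarith

end Pool.Agent.KS6_22.BA
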