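import Pool.Agent.KS6_22.BA.Tr3

/-!
# Generation by the pointwise stabilizers of two trees

Owner helper22.
-/

set_option autoImplicit false
set_option linter.unusedSectionVars false
set_option linter.unusedVariables false

open Q280.Basilica
open Subgroup

namespace Pool.Agent.KS6_22.BA

variable {k Ω : Type*} [Field k] [Field Ω] [Algebra k Ω] [IsAlgClosed Ω]

lemma normal_of_eq {n : ℕ} {x y : Ω} (hSt : St k x = St k y) :
    ((U k n y).subgroupOf (St k x)).Normal where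
  conj_mem := by
    intro σ hσ τ
    rw [mem_subgroupOf] at hσ ⊢
    apply U_conj hσ
    rw [← hSt]
    exact τ.2

/-- two trees: the general statement -/
lemma gen_pair {x y : Ω} (hx : Good k x) (hy : Good k y) (hSt : St k x = St k y) (n : ℕ)
    {C : Type*} [CommGroup C] [IsCyclic C] (ψ : St k x →* C)
    (h1 : ∀ τ : St k x, (τ : Aut k Ω) ∈ U k n x → ψ τ = 1)
    (h2 : ∀ τ : St k x, (τ : Aut k Ω) ∈ U k n y → ψ τ = 1)
    (hs : ∀ τ : St k x, ψ τ = 1 → ∃ g ∈ St k x, κ (n / 2) x g = 1 ∧ κ ((n + 1) / 2) (1 + x) g = 1 ∧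
      κ (n / 2) y ((τ : Aut k Ω) * g⁻¹) = 1 ∧ κ ((n + 1) / 2) (1 + y) ((τ : Aut k Ω) * g⁻¹) = 1)
    {τ : Aut k Ω} (hτ : τ ∈ St k x) (hψ : ψ ⟨τ, hτ⟩ = 1) :
    ∃ a ∈ U k n x, ∃ b ∈ U k n y, τ = a * b := by
  set N₁ := (U k n x).subgroupOf (St k x) with hN₁
  set N₂ := (U k n y).subgroupOf (St k x) with hN₂
  have i1 : N₁.Normal := normal_U n x
  have i2 : N₂.Normal := normal_of_eq hSt
  have hU1 : U k n x ≤ St k x := U_le_St n x
  have hU2 : U k n y ≤ St k x := by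
    rw [hSt]
    exact U_le_St n y
  have hN : N₁ ⊔ N₂ ≤ ψ.ker := by
    apply sup_le
    · intro τ hτ
      rw [hN₁, mem_subgroupOf] at hτ
      exact MonoidHom.mem_ker.2 (h1 τ hτ)
    · intro τ hτ
      rw [hN₂, mem_subgroupOf] at hτ
      exact MonoidHom.mem_ker.2 (h2 τ hτ)
  have ha : ψ.ker ≤ ⁅(⊤ : Subgroup (St k x)), (⊤ : Subgroup (St k x))⁆ ⊔ (N₁ ⊔ N₂) := by
    intro τ hτ
    obtain ⟨g, hg, e1, e2, e3, e4⟩ := hs τ (MonoidHom.mem_ker.1 hτ)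
    have hmem : (τ : Aut k Ω) * g⁻¹ ∈ St k x := (St k x).mul_mem τ.2 ((St k x).inv_mem hg)
    have m1 : g ∈ ⁅St k x, St k x⁆ ⊔ U k n x := hyp n x hx g hg e1 e2
    have m2 : (τ : Aut k Ω) * g⁻¹ ∈ ⁅St k x, St k x⁆ ⊔ U k n y := by
      have := hyp n y hy _ (hSt ▸ hmem) e3 e4
      rwa [← hSt] at this
    have m1' := (mem_conv hU1 hg).mp m1
    have m2' := (mem_conv hU2 hmem).mp m2
    have e : τ = (⟨(τ : Aut k Ω) * g⁻¹, hmem⟩ : St k x) * ⟨g, hg⟩ := by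
      apply Subtype.ext
      simp
    have l2 : ⁅(⊤ : Subgroup (St k x)), (⊤ : Subgroup (St k x))⁆ ⊔ N₂ ≤
        ⁅(⊤ : Subgroup (St k x)), (⊤ : Subgroup (St k x))⁆ ⊔ (N₁ ⊔ N₂) :=
      sup_le_sup_left le_sup_right _
    have l1 : ⁅(⊤ : Subgroup (St k x)), (⊤ : Subgroup (St k x))⁆ ⊔ N₁ ≤
        ⁅(⊤ : Subgroup (St k x)), (⊤ : Subgroup (St k x))⁆ ⊔ (N₁ ⊔ N₂) :=
      sup_le_sup_left le_sup_left _
    rw [e]
    exact mul_mem (l2 m2') (l1 m1')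
  have hnil : ∃ j, (⊤ : Subgroup (St k x)).lowerCentralSeries j ≤ N₁ ⊔ N₂ := by
    obtain ⟨j, hj⟩ := nil_U (k := k) n x
    exact ⟨j, hj.trans le_sup_left⟩
  have key := Grp.ker_le ψ (N₁ ⊔ N₂) hN ha hnil
  have hmem : (⟨τ, hτ⟩ : St k x) ∈ N₁ ⊔ N₂ := key (MonoidHom.mem_ker.2 hψ)
  rw [mem_sup_of_normal_right] at hmem
  obtain ⟨a, ha, b, hb, hab⟩ := hmem
  refine ⟨a, mem_subgroupOf.1 ha, b, mem_subgroupOf.1 hb, ?_⟩
  exact (congrArg Subtype.val hab).symm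

/-- the values of finitely many symbols -/
lemma lift_signs {r : ℕ} {H : Subgroup (Aut k Ω)} {v : Fin r → Ω} (hv : ∀ i, v i ≠ 0)
    (hH : ∀ i, H ≤ St k (v i))
    (h1 : ∀ e : Fin r → Ω, (∀ i, e i = 1 ∨ e i = -1) → ∃ σ ∈ H, ∀ i, κ 1 (v i) σ = e i) (m : ℕ) :
    ∀ c : Fin r → Ω, (∀ i, c i ^ 2 ^ m = 1) → ∃ σ ∈ H, ∀ i, κ m (v i) σ = c i := by
  induction m with
  | zero =>
    intro c hc
    refine ⟨1, H.one_mem, fun i => ?_⟩
    have := hc i
    rw [pow_zero, pow_one] at this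
    rw [this, κ_one (hv i)]
  | succ m ih =>
    intro c hc
    obtain ⟨σ, hσ, e1⟩ := ih (fun i => c i ^ 2) (fun i => by
      rw [← pow_mul, ← pow_succ']
      exact hc i)
    have sg : ∀ i, ∃ e : Ω, (e = 1 ∨ e = -1) ∧ c i = κ (m + 1) (v i) σ * e := by
      intro i
      have h2 := e1 i
      rw [← κ_succ_sq (hH i hσ).1 (hv i)] at h2
      have : (c i - κ (m + 1) (v i) σ) * (c i + κ (m + 1) (v i) σ) = 0 := by
        linear_combination -h2
      rcases mul_eq_zero.mp this with h | h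
      · exact ⟨1, Or.inl rfl, by linear_combination h⟩
      · exact ⟨-1, Or.inr rfl, by linear_combination h⟩
    choose e he hce using sg
    obtain ⟨τ, hτ, t1⟩ := h1 e he
    have hτm : τ ^ (2 ^ m) ∈ H := H.pow_mem hτ _
    refine ⟨σ * τ ^ (2 ^ m), H.mul_mem hσ hτm, fun i => ?_⟩
    rw [κ_mul (hH i hσ) (hH i hτm) (hv i), κ_npow (hH i hτ) (hv i),
      κ_two_pow (hH i hτ).1 (hv i), t1, ← hce]

/-- two trees with a common symbol -/
lemma gen_common {x y : Ω} (hx : Good k x) (hy : Good k y) (hSt : St k x = St k y)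
    (hxy : ∀ m, ∀ τ ∈ St k x, κ m x τ = 1 ↔ κ m y τ = 1)
    (hs : ∀ e : Fin 3 → Ω, (∀ i, e i = 1 ∨ e i = -1) →
      ∃ σ ∈ St k x, κ 1 x σ = e 0 ∧ κ 1 (1 + x) σ = e 1 ∧ κ 1 (1 + y) σ = e 2)
    (n : ℕ) {τ : Aut k Ω} (hτ : τ ∈ St k x) (hψ : κ (n / 2) x τ = 1) :
    ∃ a ∈ U k n x, ∃ b ∈ U k n y, τ = a * b := by
  have hle1 : St k x ≤ St k (1 + x) := fun _ h => St_one_add h
  have hle2 : St k x ≤ St k (1 + y) := fun _ h => St_one_add (hSt ▸ h)
  refine gen_pair hx hy hSt n (χ (k := k) (n / 2) x hx.ne) ?_ ?_ ?_ hτ (mem_ker_χ.2 hψ)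
  · intro τ hτ
    exact mem_ker_χ.2 (Ukill n hx hτ).1
  · intro τ hτ
    exact mem_ker_χ.2 ((hxy _ _ τ.2).2 (Ukill n hy hτ).1)
  · intro τ hτ
    have hτ' : κ (n / 2) x (τ : Aut k Ω) = 1 := mem_ker_χ.1 hτ
    have hτs := τ.2
    have hτy : (τ : Aut k Ω) ∈ St k (1 + y) := hle2 hτs
    obtain ⟨g, hg, hg1⟩ := lift_signs (r := 3) (H := St k x) (v := ![x, 1 + x, 1 + y]) (by
        intro i
        fin_cases i
        · exact hx.ne
        · exact hx.ne'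
        · exact hy.ne') (by
        intro i
        fin_cases i
        · exact le_rfl
        · exact hle1
        · exact hle2) (by
        intro e he
        obtain ⟨σ, hσ, h1, h2, h3⟩ := hs e he
        refine ⟨σ, hσ, ?_⟩
        intro i
        fin_cases i
        · exact h1
        · exact h2
        · exact h3) ((n + 1) / 2) ![1, 1, κ ((n + 1) / 2) (1 + y) (τ : Aut k Ω)] (by
        intro i
        fin_cases i
        · exact one_pow _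
        · exact one_pow _
        · exact κ_pow hτy.2 hy.ne')
    have g0 : κ ((n + 1) / 2) x g = 1 := hg1 0
    have g1 : κ ((n + 1) / 2) (1 + x) g = 1 := hg1 1
    have g2 : κ ((n + 1) / 2) (1 + y) g = κ ((n + 1) / 2) (1 + y) (τ : Aut k Ω) := hg1 2
    have g3 : κ (n / 2) x g = 1 := κ_mono g0 (by omega) hg.1 hx.ne
    refine ⟨g, hg, g3, g1, ?_, ?_⟩
    · have h5 : κ (n / 2) x ((τ : Aut k Ω) * g⁻¹) = 1 := by
        rw [κ_mul hτs ((St k x).inv_mem hg) hx.ne, κ_inv hg hx.ne, hτ', g3]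
        simp
      exact (hxy _ _ ((St k x).mul_mem hτs ((St k x).inv_mem hg))).1 h5
    · rw [κ_mul hτy (hle2 ((St k x).inv_mem hg)) hy.ne', κ_inv (hle2 hg) hy.ne', g2]
      exact mul_inv_cancel₀ (κ_ne hy.ne')

/-- two independent trees -/
lemma gen_indep {x y : Ω} (hx : Good k x) (hy : Good k y) (hSt : St k x = St k y)
    (hs : ∀ e : Fin 4 → Ω, (∀ i, e i = 1 ∨ e i = -1) →
      ∃ σ ∈ St k x, κ 1 x σ = e 0 ∧ κ 1 (1 + x) σ = e 1 ∧ κ 1 y σ = e 2 ∧ κ 1 (1 + y) σ = e 3)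
    (n : ℕ) {τ : Aut k Ω} (hτ : τ ∈ St k x) :
    ∃ a ∈ U k n x, ∃ b ∈ U k n y, τ = a * b := by
  have hle1 : St k x ≤ St k (1 + x) := fun _ h => St_one_add h
  have hle2 : St k x ≤ St k (1 + y) := fun _ h => St_one_add (hSt ▸ h)
  have hle3 : St k x ≤ St k y := hSt.le
  have hψ1 : ∀ τ : St k x, χ (k := k) 0 x hx.ne τ = 1 := fun τ => mem_ker_χ.2 (κ_zero τ.2 hx.ne)
  refine gen_pair hx hy hSt n (χ (k := k) 0 x hx.ne) (fun τ _ => hψ1 τ) (fun τ _ => hψ1 τ) ?_ hτ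
    (hψ1 _)
  intro τ _
  have hτs := τ.2
  have hτy : (τ : Aut k Ω) ∈ St k (1 + y) := hle2 hτs
  have hτy' : (τ : Aut k Ω) ∈ St k y := hle3 hτs
  obtain ⟨g, hg, hg1⟩ := lift_signs (r := 4) (H := St k x) (v := ![x, 1 + x, y, 1 + y]) (by
      intro i
      fin_cases i
      · exact hx.ne
      · exact hx.ne'
      · exact hy.ne
      · exact hy.ne') (by
      intro i
      fin_cases i
      · exact le_rfl
      · exact hle1
      · exact hle3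
      · exact hle2) (by
      intro e he
      obtain ⟨σ, hσ, h1, h2, h3, h4⟩ := hs e he
      refine ⟨σ, hσ, ?_⟩
      intro i
      fin_cases i
      · exact h1
      · exact h2
      · exact h3
      · exact h4) ((n + 1) / 2)
      ![1, 1, κ ((n + 1) / 2) y (τ : Aut k Ω), κ ((n + 1) / 2) (1 + y) (τ : Aut k Ω)] (by
      intro i
      fin_cases i
      · exact one_pow _
      · exact one_pow _
      · exact κ_pow hτy'.2 hy.ne
      · exact κ_pow hτy.2 hy.ne')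
  have g0 : κ ((n + 1) / 2) x g = 1 := hg1 0
  have g1 : κ ((n + 1) / 2) (1 + x) g = 1 := hg1 1
  have g2 : κ ((n + 1) / 2) y g = κ ((n + 1) / 2) y (τ : Aut k Ω) := hg1 2
  have g3 : κ ((n + 1) / 2) (1 + y) g = κ ((n + 1) / 2) (1 + y) (τ : Aut k Ω) := hg1 3
  refine ⟨g, hg, κ_mono g0 (by omega) hg.1 hx.ne, g1, ?_, ?_⟩
  · have h5 : κ ((n + 1) / 2) y ((τ : Aut k Ω) * g⁻¹) = 1 := by
      rw [κ_mul hτy' (hle3 ((St k x).inv_mem hg)) hy.ne, κ_inv (hle3 hg) hy.ne, g2]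
      exact mul_inv_cancel₀ (κ_ne hy.ne)
    exact κ_mono h5 (by omega) ((Γ k Ω).mul_mem hτs.1 ((Γ k Ω).inv_mem hg.1)) hy.ne
  · rw [κ_mul hτy (hle2 ((St k x).inv_mem hg)) hy.ne', κ_inv (hle2 hg) hy.ne', g3]
    exact mul_inv_cancel₀ (κ_ne hy.ne')

end Pool.Agent.KS6_22.BA
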