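import Pool.Graph.R_pool_sql_team_seeded_3997aac3.Q280.Basilica.Base
import Pool.Agent.KS6_22.BA.Gen

/-!
# The vertices of level two and three above `1`

Owner helper22.
-/

set_option autoImplicit false
set_option linter.unusedSectionVars false
set_option linter.unusedVariables false

open Q280.Basilica

namespace Pool.Agent.KS6_22.BA

/-- numbers and automorphisms used below -/
structure Dat (Ω : Type*) [Field Ω] [Algebra ℚ Ω] [IsAlgClosed Ω] where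
  φ : Ω →+* ℂ
  c : Aut ℚ Ω
  hc : ∀ x, φ (c x) = (starRingEnd ℂ) (φ x)
  r : Ω
  y : Ω
  q : Ω
  I : Ω
  γ : Ω
  hr : r ^ 2 = 2
  hy : y ^ 2 = 2 + r
  hq : q ^ 2 = r
  hI : I ^ 2 = -1
  hγ : γ ^ 2 = 1 + r
  hqγ : q * γ = y
  tq : ℝ
  φq : φ q = (tq : ℂ)
  htq1 : 1 < tq
  tγ : ℝ
  φγ : φ γ = (tγ : ℂ)
  htγ0 : 0 < tγ
  t : Aut ℚ Ω
  ht : t ∈ Γ ℚ Ω
  htγ : t γ = -γ
  htq : t q = -q
  ρ : Aut ℚ Ω
  hργ : ρ γ = γ
  hρq : ρ q = -q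
  ρ₁ : Aut ℚ Ω
  hρ₁ : ρ₁ r = -r

section

variable {Ω : Type*} [Field Ω] [Algebra ℚ Ω] [IsAlgClosed Ω] [Algebra.IsAlgebraic ℚ Ω]
  [CharZero Ω]

lemma inv_apply {ρ : Aut ℚ Ω} {x y : Ω} (h : ρ x = y) : ρ⁻¹ y = x := by
  rw [← h]
  change (ρ⁻¹ * ρ) x = x
  rw [inv_mul_cancel]
  rfl

variable (Ω) in
theorem exists_dat : Nonempty (Dat Ω) := by
  obtain ⟨φ, c, hc⟩ := exists_conj Ω
  have hs2 : (0 : ℝ) < Real.sqrt 2 := Real.sqrt_pos.mpr (by norm_num)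
  have hs2' : Real.sqrt 2 ^ 2 = 2 := Real.sq_sqrt (by norm_num)
  have hlt : Real.sqrt 2 < 2 := by nlinarith
  have hgt : 1 < Real.sqrt 2 := by nlinarith
  obtain ⟨r, hr, φr⟩ := exists_sq_real (φ := φ) (a := 2) (t := 2)
    (by rw [map_ofNat]; push_cast; rfl) (by norm_num)
  obtain ⟨y₁, hy₁, φy₁⟩ := exists_sq_real (φ := φ) (a := 2 + r) (t := 2 + Real.sqrt 2)
    (by rw [map_add, φr, map_ofNat]; push_cast; ring) (by positivity)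
  obtain ⟨y₃, hy₃, φy₃⟩ := exists_sq_real (φ := φ) (a := 2 - r) (t := 2 - Real.sqrt 2)
    (by rw [map_sub, φr, map_ofNat]; push_cast; ring) (by linarith)
  set A := Real.sqrt (2 + Real.sqrt 2) with hA
  set B := Real.sqrt (2 - Real.sqrt 2) with hB
  have hA0 : 0 < A := Real.sqrt_pos.mpr (by positivity)
  have hB0 : 0 < B := Real.sqrt_pos.mpr (by linarith)
  have hAB : A * B = Real.sqrt 2 := by
    rw [hA, hB, ← Real.sqrt_mul (by positivity)]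
    congr 1
    nlinarith
  obtain ⟨q, hq, φq⟩ := exists_sq_real (φ := φ) (a := r) (t := Real.sqrt 2) φr hs2.le
  obtain ⟨I, hI⟩ := IsAlgClosed.exists_pow_nat_eq (-1 : Ω) (n := 2) (by norm_num)
  have h13 : y₁ * y₃ = r := by
    apply φ.injective
    rw [map_mul, φy₁, φy₃, φr, ← Complex.ofReal_mul, hAB]
  have hy30 : y₃ ≠ 0 := by
    rintro rfl
    rw [map_zero] at φy₃
    exact hB0.ne' (by exact_mod_cast φy₃.symm)
  have hr0 : r ≠ 0 := by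
    rintro rfl
    norm_num at hr
  have hq0 : q ≠ 0 := by
    rintro rfl
    apply hr0
    rw [← hq]
    norm_num
  obtain ⟨ρ, hρ⟩ := exists_move Ω hr
  have hρy : ∃ e : Ω, (e = 1 ∨ e = -1) ∧ ρ y₁ = e * y₃ := by
    have h1 : (ρ y₁ - y₃) * (ρ y₁ + y₃) = 0 := by
      have : (ρ y₁) ^ 2 = y₃ ^ 2 := by
        rw [← map_pow, hy₁, map_add, hρ, hy₃, map_ofNat ρ 2]; ring
      linear_combination this
    rcases mul_eq_zero.mp h1 with h | h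
    · exact ⟨1, Or.inl rfl, by linear_combination h⟩
    · exact ⟨-1, Or.inr rfl, by linear_combination h⟩
  obtain ⟨e, he, hρe⟩ := hρy
  obtain ⟨h3r, h3y⟩ := cube_move h13 hy30 he hρ hρe
  have both : ∃ ρ₁ ρ₂ : Aut ℚ Ω, ρ₁ r = -r ∧ ρ₁ y₁ = -y₃ ∧ ρ₂ r = -r ∧ ρ₂ y₁ = y₃ := by
    rcases he with rfl | rfl
    · exact ⟨ρ ^ 3, ρ, h3r, by rw [h3y]; ring, hρ, by rw [hρe]; ring⟩
    · exact ⟨ρ, ρ ^ 3, hρ, by rw [hρe]; ring, h3r, by rw [h3y]; ring⟩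
  obtain ⟨ρ₁, ρ₂, r1, r2, r3, r4⟩ := both
  set γ := y₁ / q with hγdef
  have hqγ : q * γ = y₁ := by
    rw [hγdef]
    field_simp
  have hγ : γ ^ 2 = 1 + r := by
    rw [hγdef, div_pow, hy₁, hq, div_eq_iff hr0]
    linear_combination -hr
  have φγ : φ γ = ((A / Real.sqrt (Real.sqrt 2) : ℝ) : ℂ) := by
    rw [hγdef, map_div₀, φy₁, φq]
    push_cast
    rfl
  have hsq : 0 < Real.sqrt (Real.sqrt 2) := Real.sqrt_pos.mpr hs2
  have φγ2 : φ (γ ^ 2) = ((1 + Real.sqrt 2 : ℝ) : ℂ) := by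
    rw [hγ, map_add, map_one, φr]; push_cast; ring
  have φq2 : φ (q ^ 2) = ((Real.sqrt 2 : ℝ) : ℂ) := by rw [hq, φr]
  have m1 : c * ρ₁⁻¹ * c⁻¹ * ρ₁ ∈ Γ ℚ Ω := comm_mem_Γ' c ρ₁
  have tγ := comm_neg hc (ρ := ρ₁) (by positivity) φγ2 (t' := 1 - Real.sqrt 2) (by linarith)
      (by rw [← map_pow, hγ, map_add, map_one, r1, map_add, map_one, map_neg, φr]
          push_cast; ring)
  have tq := comm_neg hc (ρ := ρ₁) hs2 φq2 (t' := -Real.sqrt 2) (by linarith)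
      (by rw [← map_pow, hq, r1, map_neg, φr]; push_cast; ring)
  obtain ⟨ty, -⟩ := Γ_fix m1 hr hy₁
  set t := c * ρ₁⁻¹ * c⁻¹ * ρ₁ with htdef
  have hy1' : ρ₁⁻¹ y₃ = -y₁ := by
    have h1 : ρ₁ (-y₁) = y₃ := by rw [map_neg, r2, neg_neg]
    exact inv_apply h1
  have hr1' : ρ₁⁻¹ (-r) = r := inv_apply r1
  have h4y : (ρ₁⁻¹ * ρ₂) y₁ = -y₁ := by rw [AlgEquiv.mul_apply, r4, hy1']
  have h4r : (ρ₁⁻¹ * ρ₂) r = r := by rw [AlgEquiv.mul_apply, r3, hr1']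
  have h4 : ∃ ρ' : Aut ℚ Ω, ρ' q = -q ∧ ρ' y₁ = -y₁ := by
    have h1 : ((ρ₁⁻¹ * ρ₂) q - q) * ((ρ₁⁻¹ * ρ₂) q + q) = 0 := by
      have : ((ρ₁⁻¹ * ρ₂) q) ^ 2 = q ^ 2 := by
        rw [← map_pow, hq, h4r]
      linear_combination this
    rcases mul_eq_zero.mp h1 with h | h
    · refine ⟨t * (ρ₁⁻¹ * ρ₂), ?_, ?_⟩
      · have h5 : (ρ₁⁻¹ * ρ₂) q = q := by linear_combination h
        rw [AlgEquiv.mul_apply, h5, tq]
      · rw [AlgEquiv.mul_apply, h4y, map_neg, ty]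
    · exact ⟨ρ₁⁻¹ * ρ₂, by linear_combination h, h4y⟩
  obtain ⟨ρ', h5, h6⟩ := h4
  have h7 : ρ' γ = γ := by
    rw [hγdef, map_div₀, h5, h6, neg_div_neg_eq]
  exact ⟨{
    φ := φ, c := c, hc := hc, r := r, y := y₁, q := q, I := I, γ := γ, hr := hr, hy := hy₁
    hq := hq, hI := hI, hγ := hγ, hqγ := hqγ, tq := Real.sqrt (Real.sqrt 2), φq := φq
    htq1 := by
      rw [Real.lt_sqrt (by norm_num)]
      linarith
    tγ := A / Real.sqrt (Real.sqrt 2), φγ := φγ, htγ0 := by positivity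
    t := t, ht := m1, htγ := tγ, htq := tq, ρ := ρ', hργ := h7, hρq := h5, ρ₁ := ρ₁, hρ₁ := r1 }⟩

end

end Pool.Agent.KS6_22.BA
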