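import Pool.Agent.KS6_22.BA.Ar

/-!
# The independence of the symbols at the vertices of level two and three

Owner helper22.
-/

set_option autoImplicit false
set_option linter.unusedSectionVars false
set_option linter.unusedVariables false

open Q280.Basilica

namespace Pool.Agent.KS6_22.BA

section gen

variable {k Ω : Type*} [Field k] [Field Ω] [Algebra k Ω] [IsAlgClosed Ω] {g : Aut k Ω} {v z : Ω}

lemma κ1_one (hg : g ∈ Γ k Ω) (hv : v ≠ 0) (hz : z ^ 2 = v) (h : g z = z) : κ 1 v g = 1 := by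
  have h1 := κ_eq (m := 1) hg hv (by rw [pow_one]; exact hz)
  have hz0 : z ≠ 0 := by
    rintro rfl
    apply hv
    rw [← hz]
    ring
  rw [h] at h1
  exact (mul_right_cancel₀ hz0 (by rw [← h1]; ring)).symm

lemma κ1_neg_one (hg : g ∈ Γ k Ω) (hv : v ≠ 0) (hz : z ^ 2 = v) (h : g z = -z) :
    κ 1 v g = -1 := by
  have h1 := κ_eq (m := 1) hg hv (by rw [pow_one]; exact hz)
  have hz0 : z ≠ 0 := by
    rintro rfl
    apply hv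
    rw [← hz]
    ring
  rw [h] at h1
  exact (mul_right_cancel₀ hz0 (by rw [← h1]; ring)).symm

lemma κ1_square (hg : g ∈ Γ k Ω) (hz : z ≠ 0) (h : g z = z) : κ 1 (z ^ 2) g = 1 := by
  rw [κ_sq (m := 0) hg hz]
  exact κ_zero ⟨hg, h⟩ hz

end gen

section

variable {Ω : Type*} [Field Ω] [Algebra ℚ Ω] [IsAlgClosed Ω] [Algebra.IsAlgebraic ℚ Ω]
  [CharZero Ω] (D : Dat Ω)

namespace Dat

lemma r_ne : D.r ≠ 0 := by
  intro h
  have := D.hr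
  rw [h] at this
  norm_num at this

lemma q_ne : D.q ≠ 0 := by
  intro h
  apply D.r_ne
  rw [← D.hq, h]
  norm_num

lemma γ_ne : D.γ ≠ 0 := by
  intro h
  have h1 := D.φγ
  rw [h, map_zero] at h1
  have h2 : D.tγ = 0 := by exact_mod_cast h1.symm
  exact D.htγ0.ne' h2

lemma I_ne : D.I ≠ 0 := by
  intro h
  have h1 := D.hI
  rw [h] at h1
  norm_num at h1

/-- the other vertex of level two -/
noncomputable def γ' : Ω := D.I / D.γ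

lemma γ'_ne : D.γ' ≠ 0 := div_ne_zero D.I_ne D.γ_ne

lemma hγ' : D.γ' ^ 2 = 1 - D.r := by
  unfold γ'
  have h1 : (1 + D.r) ≠ 0 := by
    rw [← D.hγ]
    exact pow_ne_zero 2 D.γ_ne
  rw [div_pow, D.hI, D.hγ, div_eq_iff h1]
  linear_combination D.hr

lemma iter_γ : f^[2] D.γ = 1 := by
  change f (f D.γ) = 1
  unfold f
  rw [D.hγ]
  linear_combination D.hr

lemma iter_γ' : f^[2] D.γ' = 1 := by
  change f (f D.γ') = 1
  unfold f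
  rw [D.hγ']
  linear_combination D.hr

lemma iter_neg {x : Ω} (hx : f^[2] x = 1) : f^[2] (-x) = 1 := by
  rw [Function.iterate_succ_apply, f_neg, ← Function.iterate_succ_apply]
  exact hx

lemma level_two {x : Ω} (hx : f^[2] x = 1) : x = D.γ ∨ x = -D.γ ∨ x = D.γ' ∨ x = -D.γ' := by
  have h1 : f (f x) = 1 := hx
  unfold f at h1
  have h2 : ((x - D.γ) * (x + D.γ)) * ((x - D.γ') * (x + D.γ')) = 0 := by
    have h3 : ((x - D.γ) * (x + D.γ)) = x ^ 2 - (1 + D.r) := by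
      rw [← D.hγ]
      ring
    have h4 : ((x - D.γ') * (x + D.γ')) = x ^ 2 - (1 - D.r) := by
      rw [← D.hγ']
      ring
    rw [h3, h4]
    linear_combination h1 - D.hr
  rcases mul_eq_zero.mp h2 with h | h <;> rcases mul_eq_zero.mp h with h | h
  · exact Or.inl (by linear_combination h)
  · exact Or.inr (Or.inl (by linear_combination h))
  · exact Or.inr (Or.inr (Or.inl (by linear_combination h)))
  · exact Or.inr (Or.inr (Or.inr (by linear_combination h)))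

lemma good : Good ℚ D.γ := good_level2 D.iter_γ

lemma good' : Good ℚ D.γ' := good_level2 D.iter_γ'

lemma good_neg : Good ℚ (-D.γ) := good_level2 (iter_neg D.iter_γ)

lemma fix_I {g : Aut ℚ Ω} (hg : g ∈ Γ ℚ Ω) : g D.I = D.I := by
  apply hg 2
  have : D.I ^ (2 ^ 2) = (D.I ^ 2) ^ 2 := by ring
  rw [this, D.hI]
  ring

lemma fix_y {g : Aut ℚ Ω} (hg : g ∈ Γ ℚ Ω) : g D.y = D.y := (Γ_fix hg D.hr D.hy).1

lemma fix_r {g : Aut ℚ Ω} (hg : g ∈ Γ ℚ Ω) : g D.r = D.r := (Γ_fix hg D.hr D.hy).2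

lemma fix_q {g : Aut ℚ Ω} (hg : g ∈ Γ ℚ Ω) (h : g D.γ = D.γ) : g D.q = D.q := by
  have h1 := D.fix_y hg
  rw [← D.hqγ, map_mul, h] at h1
  exact mul_right_cancel₀ D.γ_ne h1

lemma St_eq : St ℚ D.γ = St ℚ D.γ' := by
  ext g
  constructor
  · rintro ⟨h1, h2⟩
    refine ⟨h1, ?_⟩
    unfold γ'
    rw [map_div₀, D.fix_I h1, h2]
  · rintro ⟨h1, h2⟩
    refine ⟨h1, ?_⟩
    unfold γ' at h2
    rw [map_div₀, D.fix_I h1] at h2
    have h3 : g D.γ ≠ 0 := by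
      intro h
      exact D.γ_ne ((map_eq_zero g).mp h)
    have h4 := D.γ_ne
    rw [div_eq_div_iff h3 h4] at h2
    exact (mul_left_cancel₀ D.I_ne h2).symm

/-- the symbols of the two vertices -/
lemma κ_γ' {m : ℕ} {g : Aut ℚ Ω} (hg : g ∈ St ℚ D.γ) :
    κ m D.γ g = 1 ↔ κ m D.γ' g = 1 := by
  have h1 : D.γ * D.γ' = D.I := by
    unfold γ'
    field_simp [D.γ_ne]
  have h2 : κ m D.I g = 1 := by
    unfold κ
    have h3 : rt m D.I ^ (2 ^ (m + 2)) = 1 := by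
      rw [pow_add, pow_mul, rt_pow]
      have : D.I ^ (2 ^ 2) = (D.I ^ 2) ^ 2 := by ring
      rw [this, D.hI]
      ring
    rw [hg.1 _ _ h3]
    exact div_self (rt_ne D.I_ne)
  have h3 := κ_mulv (m := m) hg.1 D.γ_ne D.γ'_ne
  rw [h1, h2] at h3
  constructor
  · intro h
    rw [h, one_mul] at h3
    exact h3.symm
  · intro h
    rw [h, mul_one] at h3
    exact h3.symm

/-- the special element -/
noncomputable def g₁ : Aut ℚ Ω := D.c * D.ρ⁻¹ * D.c⁻¹ * D.ρ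

lemma g₁_Γ : D.g₁ ∈ Γ ℚ Ω := comm_mem_Γ' D.c D.ρ

lemma g₁_γ : D.g₁ D.γ = D.γ := by
  have h1 : D.φ (D.γ ^ 2) = ((D.tγ ^ 2 : ℝ) : ℂ) := by
    rw [map_pow, D.φγ]
    push_cast
    rfl
  have h0 := D.htγ0
  exact comm_pos D.hc (by positivity) h1 (t' := D.tγ ^ 2) (by positivity)
    (by rw [D.hργ]; exact h1)

lemma g₁_mem : D.g₁ ∈ St ℚ D.γ := ⟨D.g₁_Γ, D.g₁_γ⟩

lemma one_add_ne : (1 : Ω) + D.γ ≠ 0 := D.good.ne'

lemma g₁_κγ : κ 1 D.γ D.g₁ = 1 := by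
  obtain ⟨z, hz⟩ := IsAlgClosed.exists_pow_nat_eq D.γ (n := 2) (by norm_num)
  refine κ1_one D.g₁_Γ D.γ_ne hz ?_
  exact comm_pos D.hc D.htγ0 (by rw [hz]; exact D.φγ) (t' := D.tγ) D.htγ0
    (by rw [← map_pow, hz, D.hργ]; exact D.φγ)

lemma g₁_κγ1 : κ 1 (1 + D.γ) D.g₁ = 1 := by
  obtain ⟨z, hz⟩ := IsAlgClosed.exists_pow_nat_eq (1 + D.γ) (n := 2) (by norm_num)
  have h0 := D.htγ0
  have h1 : D.φ (1 + D.γ) = ((1 + D.tγ : ℝ) : ℂ) := by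
    rw [map_add, map_one, D.φγ]
    push_cast
    rfl
  refine κ1_one D.g₁_Γ D.one_add_ne hz ?_
  exact comm_pos D.hc (t := 1 + D.tγ) (by positivity) (by rw [hz]; exact h1) (t' := 1 + D.tγ)
    (by positivity) (by rw [← map_pow, hz, map_add, map_one, D.hργ]; exact h1)

lemma g₁_κq : κ 1 D.q D.g₁ = -1 := by
  obtain ⟨z, hz⟩ := IsAlgClosed.exists_pow_nat_eq D.q (n := 2) (by norm_num)
  have h0 := D.htq1
  refine κ1_neg_one D.g₁_Γ D.q_ne hz ?_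
  exact comm_neg D.hc (t := D.tq) (by linarith) (by rw [hz]; exact D.φq) (t' := -D.tq)
    (by linarith) (by rw [← map_pow, hz, D.hρq, map_neg, D.φq]; push_cast; rfl)

lemma one_add_q_ne : (1 : Ω) + D.q ≠ 0 := by
  intro h
  have h1 : D.φ (1 + D.q) = ((1 + D.tq : ℝ) : ℂ) := by
    rw [map_add, map_one, D.φq]
    push_cast
    rfl
  rw [h, map_zero] at h1
  have h2 : (1 + D.tq : ℝ) = 0 := by exact_mod_cast h1.symm
  have := D.htq1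
  linarith

lemma g₁_κ1q : κ 1 (1 + D.q) D.g₁ = -1 := by
  obtain ⟨z, hz⟩ := IsAlgClosed.exists_pow_nat_eq (1 + D.q) (n := 2) (by norm_num)
  have h0 := D.htq1
  refine κ1_neg_one D.g₁_Γ D.one_add_q_ne hz ?_
  refine comm_neg D.hc (t := 1 + D.tq) (by linarith) ?_ (t' := 1 - D.tq)
    (by linarith) ?_
  · rw [hz, map_add, map_one, D.φq]
    push_cast
    rfl
  · rw [← map_pow, hz, map_add, map_one, D.hρq, map_add, map_one, map_neg, D.φq]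
    push_cast
    ring

lemma g₁_κγ' : κ 1 (1 + D.γ') D.g₁ = -1 := by
  have h2 : κ 1 (2 : Ω) D.g₁ = 1 := by
    rw [← D.hr]
    exact κ1_square D.g₁_Γ D.r_ne (D.fix_r D.g₁_Γ)
  have two : (2 : Ω) ≠ 0 := two_ne_zero
  have hne := D.good'.ne'
  have hq1 := D.one_add_q_ne
  have ident : (1 + D.q + D.γ') ^ 2 = 2 * ((1 + D.q) * (1 + D.γ')) := by
    linear_combination D.hq + D.hγ'
  have hs : 1 + D.q + D.γ' ≠ 0 := by
    intro h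
    rw [h] at ident
    have : (2 : Ω) * ((1 + D.q) * (1 + D.γ')) ≠ 0 := mul_ne_zero two (mul_ne_zero hq1 hne)
    apply this
    rw [← ident]
    ring
  have hfix : D.g₁ (1 + D.q + D.γ') = 1 + D.q + D.γ' := by
    have h5 : D.g₁ D.γ' = D.γ' := (D.St_eq ▸ D.g₁_mem : D.g₁ ∈ St ℚ D.γ').2
    rw [map_add, map_add, map_one, D.fix_q D.g₁_Γ D.g₁_γ, h5]
  have h3 := κ1_square D.g₁_Γ hs hfix
  rw [ident, κ_mulv D.g₁_Γ two (mul_ne_zero hq1 hne), κ_mulv D.g₁_Γ hq1 hne, h2, D.g₁_κ1q] at h3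
  linear_combination -h3

/-- all signs of the three symbols -/
lemma signs_common (e : Fin 3 → Ω) (he : ∀ i, e i = 1 ∨ e i = -1) :
    ∃ σ ∈ St ℚ D.γ, κ 1 D.γ σ = e 0 ∧ κ 1 (1 + D.γ) σ = e 1 ∧ κ 1 (1 + D.γ') σ = e 2 := by
  have hne' := D.good'.ne'
  have hle2 : St ℚ D.γ ≤ St ℚ (1 + D.γ') := fun _ h => St_one_add (D.St_eq ▸ h)
  have mulS : ∀ {a b c a' b' c' : Ω}, (∃ σ ∈ St ℚ D.γ, κ 1 D.γ σ = a ∧ κ 1 (1 + D.γ) σ = b ∧
      κ 1 (1 + D.γ') σ = c) → (∃ σ ∈ St ℚ D.γ, κ 1 D.γ σ = a' ∧ κ 1 (1 + D.γ) σ = b' ∧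
      κ 1 (1 + D.γ') σ = c') → ∃ σ ∈ St ℚ D.γ, κ 1 D.γ σ = a * a' ∧
      κ 1 (1 + D.γ) σ = b * b' ∧ κ 1 (1 + D.γ') σ = c * c' := by
    rintro a b c a' b' c' ⟨σ, hσ, h1, h2, h3⟩ ⟨τ, hτ, h4, h5, h6⟩
    refine ⟨σ * τ, (St ℚ D.γ).mul_mem hσ hτ, ?_, ?_, ?_⟩
    · rw [κ_mul hσ hτ D.γ_ne, h1, h4]
    · rw [κ_mul (St_one_add hσ) (St_one_add hτ) D.one_add_ne, h2, h5]
    · rw [κ_mul (hle2 hσ) (hle2 hτ) hne', h3, h6]
  have hC : ∃ σ ∈ St ℚ D.γ, κ 1 D.γ σ = 1 ∧ κ 1 (1 + D.γ) σ = 1 ∧ κ 1 (1 + D.γ') σ = -1 :=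
    ⟨D.g₁, D.g₁_mem, D.g₁_κγ, D.g₁_κγ1, D.g₁_κγ'⟩
  have h0 : ∃ σ ∈ St ℚ D.γ, κ 1 D.γ σ = 1 ∧ κ 1 (1 + D.γ) σ = 1 ∧ κ 1 (1 + D.γ') σ = 1 :=
    ⟨1, (St ℚ D.γ).one_mem, κ_one D.γ_ne, κ_one D.one_add_ne, κ_one hne'⟩
  have adj : ∀ {a b c : Ω}, (c = 1 ∨ c = -1) → (∃ σ ∈ St ℚ D.γ, κ 1 D.γ σ = a ∧
      κ 1 (1 + D.γ) σ = b) → ∃ σ ∈ St ℚ D.γ, κ 1 D.γ σ = a ∧ κ 1 (1 + D.γ) σ = b ∧
      κ 1 (1 + D.γ') σ = c := by
    rintro a b c hc ⟨σ, hσ, h1, h2⟩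
    have h3 := κ_one_cases (hle2 hσ).2 hne'
    have h4 : ∃ σ ∈ St ℚ D.γ, κ 1 D.γ σ = a ∧ κ 1 (1 + D.γ) σ = b ∧
      κ 1 (1 + D.γ') σ = κ 1 (1 + D.γ') σ := ⟨σ, hσ, h1, h2, rfl⟩
    have h5 : ∃ τ ∈ St ℚ D.γ, κ 1 D.γ τ = a ∧ κ 1 (1 + D.γ) τ = b ∧
      κ 1 (1 + D.γ') τ = κ 1 (1 + D.γ') σ := ⟨σ, hσ, h1, h2, rfl⟩
    rcases h3 with h3 | h3 <;> rcases hc with rfl | rfl
    · rw [h3] at h5
      exact h5
    · rw [h3] at h5
      simpa using mulS h5 hC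
    · rw [h3] at h5
      simpa using mulS h5 hC
    · rw [h3] at h5
      exact h5
  obtain ⟨⟨σ, hσ, s1, s2⟩, ⟨τ, hτ, t1, t2⟩⟩ := D.good
  have a1 := adj (Or.inl rfl) ⟨σ, hσ, s1, s2⟩
  have a2 := adj (Or.inl rfl) ⟨τ, hτ, t1, t2⟩
  have hA : ∃ σ ∈ St ℚ D.γ, κ 1 D.γ σ = e 0 ∧ κ 1 (1 + D.γ) σ = 1 ∧ κ 1 (1 + D.γ') σ = 1 := by
    rcases he 0 with h | h <;> rw [h]
    · exact h0
    · exact a1
  have hB : ∃ σ ∈ St ℚ D.γ, κ 1 D.γ σ = 1 ∧ κ 1 (1 + D.γ) σ = e 1 ∧ κ 1 (1 + D.γ') σ = 1 := by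
    rcases he 1 with h | h <;> rw [h]
    · exact h0
    · exact a2
  have hC' : ∃ σ ∈ St ℚ D.γ, κ 1 D.γ σ = 1 ∧ κ 1 (1 + D.γ) σ = 1 ∧ κ 1 (1 + D.γ') σ = e 2 := by
    rcases he 2 with h | h <;> rw [h]
    · exact h0
    · exact hC
  simpa using mulS hA (mulS hB hC')

end Dat

end

end Pool.Agent.KS6_22.BA
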