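import Pool.Agent.KS6_22.BA.Ar2

/-!
# The independence of the symbols at the vertices of level three

Owner helper22.
-/

set_option autoImplicit false
set_option linter.unusedSectionVars false
set_option linter.unusedVariables false

open Q280.Basilica

namespace Pool.Agent.KS6_22.BA

variable {Ω : Type*} [Field Ω] [Algebra ℚ Ω] [IsAlgClosed Ω] [Algebra.IsAlgebraic ℚ Ω]
  [CharZero Ω] (D : Dat Ω)

/-- simultaneous values of four symbols -/
def Q4 (x y a b c d : Ω) : Prop :=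
  ∃ σ ∈ St ℚ x, κ 1 x σ = a ∧ κ 1 (1 + x) σ = b ∧ κ 1 y σ = c ∧ κ 1 (1 + y) σ = d

lemma Q4.mul {x y a b c d a' b' c' d' : Ω} (hx : x ≠ 0) (hx' : 1 + x ≠ 0) (hy : y ≠ 0)
    (hy' : 1 + y ≠ 0) (hSt : St ℚ x = St ℚ y) (h : Q4 x y a b c d) (h' : Q4 x y a' b' c' d') :
    Q4 x y (a * a') (b * b') (c * c') (d * d') := by
  obtain ⟨σ, hσ, h1, h2, h3, h4⟩ := h
  obtain ⟨τ, hτ, h5, h6, h7, h8⟩ := h'
  have hσ' : σ ∈ St ℚ y := hSt ▸ hσ
  have hτ' : τ ∈ St ℚ y := hSt ▸ hτ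
  refine ⟨σ * τ, (St ℚ x).mul_mem hσ hτ, ?_, ?_, ?_, ?_⟩
  · rw [κ_mul hσ hτ hx, h1, h5]
  · rw [κ_mul (St_one_add hσ) (St_one_add hτ) hx', h2, h6]
  · rw [κ_mul hσ' hτ' hy, h3, h7]
  · rw [κ_mul (St_one_add hσ') (St_one_add hτ') hy', h4, h8]

lemma sign_mul_self {a : Ω} (h : a = 1 ∨ a = -1) : a * a = 1 := by
  rcases h with rfl | rfl <;> ring

lemma sign_inv {a : Ω} (h : a = 1 ∨ a = -1) : a⁻¹ = a := by
  rcases h with rfl | rfl
  · exact inv_one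
  · rw [inv_neg, inv_one]

namespace Dat

variable {D} {α β : Ω}

lemma αβ (hα : α ^ 2 = 1 + D.γ) (hβ : β ^ 2 = 1 - D.γ) : (α * β) ^ 2 = (D.I * D.q) ^ 2 := by
  rw [mul_pow, mul_pow, hα, hβ, D.hI, D.hq]
  linear_combination -D.hγ

lemma αβ_cases (hα : α ^ 2 = 1 + D.γ) (hβ : β ^ 2 = 1 - D.γ) :
    α * β = D.I * D.q ∨ α * β = -(D.I * D.q) := by
  have h1 : (α * β - D.I * D.q) * (α * β + D.I * D.q) = 0 := by
    linear_combination αβ hα hβ
  rcases mul_eq_zero.mp h1 with h | h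
  · left; linear_combination h
  · right; linear_combination h

lemma fix_αβ (hα : α ^ 2 = 1 + D.γ) (hβ : β ^ 2 = 1 - D.γ) {g : Aut ℚ Ω} (hg : g ∈ St ℚ D.γ) :
    g (α * β) = α * β := by
  have h1 : g (D.I * D.q) = D.I * D.q := by
    rw [map_mul, D.fix_I hg.1, D.fix_q hg.1 hg.2]
  rcases αβ_cases hα hβ with h | h
  · rw [h, h1]
  · rw [h, map_neg, h1]

lemma α_ne (hα : α ^ 2 = 1 + D.γ) : α ≠ 0 := child_ne D.good hα

lemma β_ne (hβ : β ^ 2 = 1 - D.γ) : β ≠ 0 :=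
  child_ne D.good_neg (by rw [hβ]; ring)

lemma goodα (hα : α ^ 2 = 1 + D.γ) : Good ℚ α := D.good.child hα

lemma goodβ (hβ : β ^ 2 = 1 - D.γ) : Good ℚ β := D.good_neg.child (by rw [hβ]; ring)

lemma St3 (hα : α ^ 2 = 1 + D.γ) (hβ : β ^ 2 = 1 - D.γ) : St ℚ α = St ℚ β := by
  ext g
  constructor
  · intro h
    have h1 : g ∈ St ℚ D.γ := St_child hα h
    have h2 := fix_αβ hα hβ h1
    rw [map_mul, h.2] at h2
    exact ⟨h.1, mul_left_cancel₀ (α_ne hα) h2⟩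
  · intro h
    have h1 : g ∈ St ℚ D.γ := by
      rw [← St_neg]
      exact St_child (u := β) (by rw [hβ]; ring) h
    have h2 := fix_αβ hα hβ h1
    rw [map_mul, h.2] at h2
    exact ⟨h.1, mul_right_cancel₀ (β_ne hβ) h2⟩

/-- the relation between the symbols of the two vertices -/
lemma κ_αβ (hα : α ^ 2 = 1 + D.γ) (hβ : β ^ 2 = 1 - D.γ) {g : Aut ℚ Ω} (hg : g ∈ Γ ℚ Ω) :
    κ 1 α g * κ 1 β g = κ 1 D.q g := by
  have h1 : κ 1 D.I g = 1 := by
    unfold κ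
    have h3 : rt 1 D.I ^ (2 ^ 3) = 1 := by
      have h4 := rt_pow 1 D.I
      have : rt 1 D.I ^ (2 ^ 3) = (rt 1 D.I ^ (2 ^ 1)) ^ 4 := by ring
      rw [this, h4]
      have : D.I ^ 4 = (D.I ^ 2) ^ 2 := by ring
      rw [this, D.hI]
      ring
    rw [hg _ _ h3]
    exact div_self (rt_ne D.I_ne)
  rw [← κ_mulv hg (α_ne hα) (β_ne hβ)]
  rcases αβ_cases hα hβ with h | h
  · rw [h, κ_mulv hg D.I_ne D.q_ne, h1, one_mul]
  · rw [h, κ_neg hg (mul_ne_zero D.I_ne D.q_ne), κ_mulv hg D.I_ne D.q_ne, h1, one_mul]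

/-- the first special element -/
lemma el_e (hα : α ^ 2 = 1 + D.γ) (hβ : β ^ 2 = 1 - D.γ) : Q4 α β 1 (-1) 1 (-1) := by
  obtain ⟨s, hs, hsα⟩ := exists_swap D.good hα
  have hα0 := α_ne hα
  have hβ0 := β_ne hβ
  have hα1 := (goodα hα).ne'
  have hβ1 := (goodβ hβ).ne'
  have hα2 : 1 - α ≠ 0 := child_ne2 D.good hα
  have hβ' : β ^ 2 = 1 + -D.γ := by rw [hβ]; ring
  have hβ2 : 1 - β ≠ 0 := child_ne2 D.good_neg hβ'
  have hsβ : s β = -β := by
    have h2 := fix_αβ hα hβ hs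
    rw [map_mul, hsα] at h2
    apply mul_left_cancel₀ hα0
    linear_combination -h2
  obtain ⟨x, hx, x1, x2, x3⟩ := tri_all D.good hα 1 1 (-1) (Or.inl rfl) (Or.inl rfl) (Or.inr rfl)
  have hxβ : x ∈ St ℚ β := St3 hα hβ ▸ hx
  have xγ : κ 1 D.γ x = -1 := by
    rw [← κ_prod D.good hα hx.1, x2, x3, one_mul]
  have hsx : s * x * s⁻¹ ∈ Γ ℚ Ω := (inferInstance : (Γ ℚ Ω).Normal).conj_mem x hx.1 s
  have hsi : s⁻¹ α = -α := inv_apply (by rw [map_neg, hsα, neg_neg])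
  have hsx' : s * x * s⁻¹ ∈ St ℚ α := by
    refine ⟨hsx, ?_⟩
    change s (x (s⁻¹ α)) = α
    rw [hsi, map_neg, hx.2, map_neg, hsα, neg_neg]
  have hsxβ : s * x * s⁻¹ ∈ St ℚ β := St3 hα hβ ▸ hsx'
  have hxi : x⁻¹ ∈ St ℚ α := (St ℚ α).inv_mem hx
  have hxiβ : x⁻¹ ∈ St ℚ β := (St ℚ β).inv_mem hxβ
  have k1 : κ 1 α (s * x * s⁻¹) = κ 1 α x := by
    have := κ_conj_Γ (m := 1) hs.1 hx hα0
    rwa [hsα, κ_neg hsx hα0] at this
  have k2 : κ 1 β (s * x * s⁻¹) = κ 1 β x := by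
    have := κ_conj_Γ (m := 1) hs.1 hxβ hβ0
    rwa [hsβ, κ_neg hsx hβ0] at this
  have k3 : κ 1 (1 + α) (s * x * s⁻¹) = κ 1 (1 - α) x := by
    have := κ_conj_Γ (m := 1) hs.1 (St_one_sub hx) hα2
    rwa [map_sub, map_one, hsα, sub_neg_eq_add] at this
  have k4 : κ 1 (1 + β) (s * x * s⁻¹) = κ 1 (1 - β) x := by
    have := κ_conj_Γ (m := 1) hs.1 (St_one_sub hxβ) hβ2
    rwa [map_sub, map_one, hsβ, sub_neg_eq_add] at this
  have sα := κ_one_cases hx.2 hα0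
  have sβ := κ_one_cases hxβ.2 hβ0
  have sβ1 := κ_one_cases (St_one_add hxβ).2 hβ1
  refine ⟨s * x * s⁻¹ * x⁻¹, (St ℚ α).mul_mem hsx' hxi, ?_, ?_, ?_, ?_⟩
  · rw [κ_mul hsx' hxi hα0, κ_inv hx hα0, k1]
    exact mul_inv_cancel₀ (κ_ne hα0)
  · rw [κ_mul (St_one_add hsx') (St_one_add hxi) hα1, κ_inv (St_one_add hx) hα1, k3, x2, x3]
    norm_num
  · rw [κ_mul hsxβ hxiβ hβ0, κ_inv hxβ hβ0, k2]
    exact mul_inv_cancel₀ (κ_ne hβ0)
  · rw [κ_mul (St_one_add hsxβ) (St_one_add hxiβ) hβ1, κ_inv (St_one_add hxβ) hβ1, k4,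
      sign_inv sβ1]
    have h5 := κ_prod (m := 1) D.good_neg hβ' hx.1
    rw [κ_neg hx.1 D.γ_ne, xγ] at h5
    rw [mul_comm]
    exact h5

/-- the commutator with an element exchanging the two vertices of level two -/
lemma el_swap (hα : α ^ 2 = 1 + D.γ) (hβ : β ^ 2 = 1 - D.γ) {x : Aut ℚ Ω} (hx : x ∈ St ℚ α) :
    ∃ B : Ω, (B = 1 ∨ B = -1) ∧ Q4 α β (κ 1 α x * κ 1 β x) B (κ 1 α x * κ 1 β x)
      (B * κ 1 D.γ x) := by
  have hα0 := α_ne hα
  have hβ0 := β_ne hβ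
  have hα1 := (goodα hα).ne'
  have hβ1 := (goodβ hβ).ne'
  have hα2 : 1 - α ≠ 0 := child_ne2 D.good hα
  have hβ' : β ^ 2 = 1 + -D.γ := by rw [hβ]; ring
  have hβ2 : 1 - β ≠ 0 := child_ne2 D.good_neg hβ'
  have hxβ : x ∈ St ℚ β := St3 hα hβ ▸ hx
  have ht := D.ht
  -- the images under `t`
  have htα : D.t α = β ∨ D.t α = -β := by
    have h1 : (D.t α - β) * (D.t α + β) = 0 := by
      have : (D.t α) ^ 2 = β ^ 2 := by
        rw [← map_pow, hα, map_add, map_one, D.htγ, hβ]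
        ring
      linear_combination this
    rcases mul_eq_zero.mp h1 with h | h
    · left; linear_combination h
    · right; linear_combination h
  have htαβ : D.t (α * β) = -(α * β) := by
    have h1 : D.t (D.I * D.q) = -(D.I * D.q) := by
      rw [map_mul, D.fix_I ht, D.htq]
      ring
    rcases αβ_cases hα hβ with h | h
    · rw [h, h1]
    · rw [h, map_neg, h1]
  have hsx : D.t * x * D.t⁻¹ ∈ Γ ℚ Ω := (inferInstance : (Γ ℚ Ω).Normal).conj_mem x hx.1 D.t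
  have sα := κ_one_cases hx.2 hα0
  have sβ := κ_one_cases hxβ.2 hβ0
  have sα1 := κ_one_cases (St_one_add hx).2 hα1
  have sβ1 := κ_one_cases (St_one_add hxβ).2 hβ1
  have sα2 := κ_one_cases (St_one_sub hx).2 hα2
  have sβ2 := κ_one_cases (St_one_sub hxβ).2 hβ2
  have pα := κ_prod (m := 1) D.good hα hx.1
  have pβ := κ_prod (m := 1) D.good_neg hβ' hx.1
  rw [κ_neg hx.1 D.γ_ne] at pβ
  have hxi : x⁻¹ ∈ St ℚ α := (St ℚ α).inv_mem hx
  have hxiβ : x⁻¹ ∈ St ℚ β := (St ℚ β).inv_mem hxβ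
  -- the conjugate fixes the vertices
  have fixall : D.t * x * D.t⁻¹ ∈ St ℚ α := by
    rw [St3 hα hβ]
    refine ⟨hsx, ?_⟩
    change D.t (x (D.t⁻¹ β)) = β
    rcases htα with h | h
    · rw [inv_apply h, hx.2, h]
    · have h5 : D.t⁻¹ β = -α := inv_apply (by rw [map_neg, h, neg_neg])
      rw [h5, map_neg, hx.2, map_neg, h, neg_neg]
  have fixall' : D.t * x * D.t⁻¹ ∈ St ℚ β := St3 hα hβ ▸ fixall
  rcases htα with h | h
  · -- `t α = β`, `t β = -α`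
    have hβt : D.t β = -α := by
      rw [map_mul, h] at htαβ
      apply mul_left_cancel₀ hβ0
      linear_combination htαβ
    have k1 : κ 1 β (D.t * x * D.t⁻¹) = κ 1 α x := by
      have := κ_conj_Γ (m := 1) ht hx hα0
      rwa [h] at this
    have k2 : κ 1 α (D.t * x * D.t⁻¹) = κ 1 β x := by
      have := κ_conj_Γ (m := 1) ht hxβ hβ0
      rwa [hβt, κ_neg hsx hα0] at this
    have k3 : κ 1 (1 + β) (D.t * x * D.t⁻¹) = κ 1 (1 + α) x := by
      have := κ_conj_Γ (m := 1) ht (St_one_add hx) hα1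
      rwa [map_add, map_one, h] at this
    have k4 : κ 1 (1 + α) (D.t * x * D.t⁻¹) = κ 1 (1 - β) x := by
      have := κ_conj_Γ (m := 1) ht (St_one_sub hxβ) hβ2
      rwa [map_sub, map_one, hβt, sub_neg_eq_add] at this
    refine ⟨κ 1 (1 - β) x * κ 1 (1 + α) x, ?_, D.t * x * D.t⁻¹ * x⁻¹,
      (St ℚ α).mul_mem fixall hxi, ?_, ?_, ?_, ?_⟩
    · rcases sβ2 with a | a <;> rcases sα1 with b | b <;> rw [a, b] <;> norm_num
    · rw [κ_mul fixall hxi hα0, κ_inv hx hα0, k2, sign_inv sα, mul_comm]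
    · rw [κ_mul (St_one_add fixall) (St_one_add hxi) hα1, κ_inv (St_one_add hx) hα1, k4,
        sign_inv sα1]
    · rw [κ_mul fixall' hxiβ hβ0, κ_inv hxβ hβ0, k1, sign_inv sβ]
    · rw [κ_mul (St_one_add fixall') (St_one_add hxiβ) hβ1, κ_inv (St_one_add hxβ) hβ1, k3,
        sign_inv sβ1, ← pβ]
      have h6 := sign_mul_self sβ2
      linear_combination (-(κ 1 (1 + α) x * κ 1 (1 + β) x)) * h6
  · -- `t α = -β`, `t β = α`
    have hβt : D.t β = α := by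
      rw [map_mul, h] at htαβ
      apply mul_left_cancel₀ hβ0
      linear_combination -htαβ
    have k1 : κ 1 β (D.t * x * D.t⁻¹) = κ 1 α x := by
      have := κ_conj_Γ (m := 1) ht hx hα0
      rwa [h, κ_neg hsx hβ0] at this
    have k2 : κ 1 α (D.t * x * D.t⁻¹) = κ 1 β x := by
      have := κ_conj_Γ (m := 1) ht hxβ hβ0
      rwa [hβt] at this
    have k3 : κ 1 (1 + β) (D.t * x * D.t⁻¹) = κ 1 (1 - α) x := by
      have := κ_conj_Γ (m := 1) ht (St_one_sub hx) hα2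
      rwa [map_sub, map_one, h, sub_neg_eq_add] at this
    have k4 : κ 1 (1 + α) (D.t * x * D.t⁻¹) = κ 1 (1 + β) x := by
      have := κ_conj_Γ (m := 1) ht (St_one_add hxβ) hβ1
      rwa [map_add, map_one, hβt] at this
    refine ⟨κ 1 (1 + β) x * κ 1 (1 + α) x, ?_, D.t * x * D.t⁻¹ * x⁻¹,
      (St ℚ α).mul_mem fixall hxi, ?_, ?_, ?_, ?_⟩
    · rcases sβ1 with a | a <;> rcases sα1 with b | b <;> rw [a, b] <;> norm_num
    · rw [κ_mul fixall hxi hα0, κ_inv hx hα0, k2, sign_inv sα, mul_comm]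
    · rw [κ_mul (St_one_add fixall) (St_one_add hxi) hα1, κ_inv (St_one_add hx) hα1, k4,
        sign_inv sα1]
    · rw [κ_mul fixall' hxiβ hβ0, κ_inv hxβ hβ0, k1, sign_inv sβ]
    · rw [κ_mul (St_one_add fixall') (St_one_add hxiβ) hβ1, κ_inv (St_one_add hxβ) hβ1, k3,
        sign_inv sβ1, ← pα]
      have h6 := sign_mul_self sα1
      linear_combination (-(κ 1 (1 - α) x * κ 1 (1 + β) x)) * h6

/-- all signs of the four symbols -/
lemma signs_indep (hα : α ^ 2 = 1 + D.γ) (hβ : β ^ 2 = 1 - D.γ) {a b c d : Ω}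
    (ha : a = 1 ∨ a = -1) (hb : b = 1 ∨ b = -1) (hc : c = 1 ∨ c = -1) (hd : d = 1 ∨ d = -1) :
    Q4 α β a b c d := by
  have hα0 := α_ne hα
  have hβ0 := β_ne hβ
  have hα1 := (goodα hα).ne'
  have hβ1 := (goodβ hβ).ne'
  have hSt := St3 hα hβ
  have one : Q4 α β 1 1 1 1 := ⟨1, (St ℚ α).one_mem, κ_one hα0, κ_one hα1, κ_one hβ0, κ_one hβ1⟩
  have mul : ∀ {a b c d a' b' c' d' : Ω}, Q4 α β a b c d → Q4 α β a' b' c' d' →
      Q4 α β (a * a') (b * b') (c * c') (d * d') :=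
    fun h h' => Q4.mul hα0 hα1 hβ0 hβ1 hSt h h'
  have e := el_e hα hβ
  -- the element `g₁`
  have hg₁ : D.g₁ ∈ St ℚ α := by
    refine ⟨D.g₁_Γ, ?_⟩
    rw [fix_of_κ D.one_add_ne hα D.g₁_Γ, D.g₁_κγ1, one_mul]
  have hg₁β : D.g₁ ∈ St ℚ β := hSt ▸ hg₁
  have hP : κ 1 α D.g₁ * κ 1 β D.g₁ = -1 := by rw [κ_αβ hα hβ D.g₁_Γ, D.g₁_κq]
  have p : Q4 α β (-1) 1 (-1) 1 := by
    obtain ⟨B, hB, h1⟩ := el_swap hα hβ hg₁
    rw [hP, D.g₁_κγ, mul_one] at h1
    rcases hB with rfl | rfl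
    · exact h1
    · simpa using mul h1 e
  have w : Q4 α β 1 1 1 (-1) := by
    obtain ⟨x, hx, x1, x2, x3⟩ := tri_all D.good hα 1 1 (-1) (Or.inl rfl) (Or.inl rfl)
      (Or.inr rfl)
    have xγ : κ 1 D.γ x = -1 := by
      rw [← κ_prod D.good hα hx.1, x2, x3, one_mul]
    have hxβ : x ∈ St ℚ β := hSt ▸ hx
    have sβ := κ_one_cases hxβ.2 hβ0
    obtain ⟨B, hB, h1⟩ := el_swap hα hβ hx
    rw [x1, one_mul, xγ] at h1
    rcases sβ with h | h <;> rw [h] at h1 <;> rcases hB with rfl | rfl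
    · simpa using h1
    · simpa using mul h1 e
    · simpa using mul h1 p
    · simpa using mul (mul h1 p) e
  have hh : Q4 α β 1 1 (-1) 1 := by
    have h1 : Q4 α β (κ 1 α D.g₁) (κ 1 (1 + α) D.g₁) (κ 1 β D.g₁) (κ 1 (1 + β) D.g₁) :=
      ⟨D.g₁, hg₁, rfl, rfl, rfl, rfl⟩
    have sα := κ_one_cases hg₁.2 hα0
    have sα1 := κ_one_cases (St_one_add hg₁).2 hα1
    have sβ1 := κ_one_cases (St_one_add hg₁β).2 hβ1
    have h2 : Q4 α β 1 (κ 1 (1 + α) D.g₁) (-1) (κ 1 (1 + β) D.g₁) := by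
      rcases sα with h | h
      · have h3 : κ 1 β D.g₁ = -1 := by
          rw [h, one_mul] at hP
          exact hP
        rw [h, h3] at h1
        exact h1
      · have h3 : κ 1 β D.g₁ = 1 := by
          rw [h] at hP
          linear_combination -hP
        rw [h, h3] at h1
        simpa using mul h1 p
    rcases sα1 with h | h <;> rcases sβ1 with h' | h' <;> rw [h, h'] at h2
    · exact h2
    · simpa using mul h2 w
    · simpa using mul (mul h2 e) w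
    · simpa using mul h2 e
  have A : Q4 α β a 1 1 1 := by
    rcases ha with rfl | rfl
    · exact one
    · simpa using mul p hh
  have B : Q4 α β 1 b 1 1 := by
    rcases hb with rfl | rfl
    · exact one
    · simpa using mul e w
  have C : Q4 α β 1 1 c 1 := by
    rcases hc with rfl | rfl
    · exact one
    · exact hh
  have E : Q4 α β 1 1 1 d := by
    rcases hd with rfl | rfl
    · exact one
    · exact w
  simpa using mul A (mul B (mul C E))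

end Dat

end Pool.Agent.KS6_22.BA
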