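import Mathlib

/-!
# Counting in finite groups: conditionally independent events

Owner helper22.
-/

set_option autoImplicit false

open Finset

namespace Pool.Agent.KS6_22.BA

variable {G : Type*} [Group G] [Fintype G]

open Classical in
/-- the elements of a subgroup -/
noncomputable def el (M : Subgroup G) : Finset G := univ.filter (· ∈ M)

lemma mem_el {M : Subgroup G} {x : G} : x ∈ el M ↔ x ∈ M := by
  classical
  unfold el
  rw [mem_filter]
  exact and_iff_right (mem_univ _)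

lemma el_pos (M : Subgroup G) : 0 < (el M).card := card_pos.2 ⟨1, mem_el.2 M.one_mem⟩

open Classical in
/-- **Independence.** -/
lemma indep_card {N₁ N₂ M : Subgroup G} (h1 : N₁ ≤ M) (h2 : N₂ ≤ M)
    (hM : ∀ x ∈ M, ∃ a ∈ N₂, ∃ b ∈ N₁, x = a * b) {E₁ E₂ : Finset G} {g : G}
    (e1 : ∀ x ∈ E₁, g⁻¹ * x ∈ M) (e2 : ∀ x ∈ E₂, g⁻¹ * x ∈ M)
    (i1 : ∀ x ∈ E₁, ∀ n ∈ N₁, x * n ∈ E₁) (i2 : ∀ x ∈ E₂, ∀ n ∈ N₂, x * n ∈ E₂) :
    (E₁ ∩ E₂).card * (el M).card = E₁.card * E₂.card := by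
  have hx : ∀ x ∈ E₁, ((el M).filter fun h => x * h⁻¹ ∈ E₂).card = E₂.card := by
    intro x hx
    refine card_bij' (fun h _ => x * h⁻¹) (fun y _ => y⁻¹ * x) ?_ ?_ ?_ ?_
    · intro h hh
      exact (mem_filter.1 hh).2
    · intro y hy
      rw [mem_filter, mem_el]
      refine ⟨?_, ?_⟩
      · have := M.mul_mem (M.inv_mem (e2 y hy)) (e1 x hx)
        simpa [mul_assoc] using this
      · simpa [mul_assoc] using hy
    · intro h _
      simp
    · intro y _
      simp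
  have hh : ∀ h ∈ el M, (E₁.filter fun x => x * h⁻¹ ∈ E₂).card = (E₁ ∩ E₂).card := by
    intro h hh
    obtain ⟨a, ha, b, hb, rfl⟩ := hM h (mem_el.1 hh)
    refine card_bij' (fun x _ => x * b⁻¹) (fun z _ => z * b) ?_ ?_ ?_ ?_
    · intro x hx
      rw [mem_filter] at hx
      rw [mem_inter]
      refine ⟨i1 x hx.1 _ (N₁.inv_mem hb), ?_⟩
      have := i2 _ hx.2 a ha
      simpa [mul_assoc] using this
    · intro z hz
      rw [mem_inter] at hz
      rw [mem_filter]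
      refine ⟨i1 z hz.1 b hb, ?_⟩
      have := i2 z hz.2 _ (N₂.inv_mem ha)
      simpa [mul_assoc] using this
    · intro x _
      simp
    · intro z _
      simp
  calc (E₁ ∩ E₂).card * (el M).card = ∑ h ∈ el M, (E₁.filter fun x => x * h⁻¹ ∈ E₂).card := by
        rw [sum_congr rfl hh, sum_const, smul_eq_mul, mul_comm]
    _ = ∑ x ∈ E₁, ((el M).filter fun h => x * h⁻¹ ∈ E₂).card := by
        simp only [card_filter]
        exact sum_comm
    _ = E₁.card * E₂.card := by rw [sum_congr rfl hx, sum_const, smul_eq_mul]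

open Classical in
lemma sum_coset {M : Subgroup G} {X E : Finset G} (hX : ∀ x ∈ X, ∀ m ∈ M, x * m ∈ X)
    (hE : E ⊆ X) : ∑ g ∈ X, (E.filter fun x => g⁻¹ * x ∈ M).card = E.card * (el M).card := by
  have hx : ∀ x ∈ E, (X.filter fun g => g⁻¹ * x ∈ M).card = (el M).card := by
    intro x hx
    refine card_bij' (fun g _ => g⁻¹ * x) (fun h _ => x * h⁻¹) ?_ ?_ ?_ ?_
    · intro g hg
      exact mem_el.2 (mem_filter.1 hg).2
    · intro h hh
      rw [mem_filter]
      refine ⟨hX x (hE hx) _ (M.inv_mem (mem_el.1 hh)), ?_⟩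
      simpa [mul_assoc] using mem_el.1 hh
    · intro g _
      simp
    · intro h _
      simp
  calc ∑ g ∈ X, (E.filter fun x => g⁻¹ * x ∈ M).card =
        ∑ x ∈ E, (X.filter fun g => g⁻¹ * x ∈ M).card := by
        simp only [card_filter]
        exact sum_comm
    _ = _ := by rw [sum_congr rfl hx, sum_const, smul_eq_mul]

open Classical in
/-- **The probability that two conditionally independent events occur.** -/
theorem indep_bound {N₁ N₂ M : Subgroup G} (h1 : N₁ ≤ M) (h2 : N₂ ≤ M)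
    (hM : ∀ x ∈ M, ∃ a ∈ N₂, ∃ b ∈ N₁, x = a * b) {X E₁ E₂ : Finset G}
    (hX : ∀ x ∈ X, ∀ m ∈ M, x * m ∈ X) (hE1 : E₁ ⊆ X) (hE2 : E₂ ⊆ X)
    (i1 : ∀ x ∈ E₁, ∀ n ∈ N₁, x * n ∈ E₁) (i2 : ∀ x ∈ E₂, ∀ n ∈ N₂, x * n ∈ E₂) {B : ℝ}
    (b1 : ∀ g ∈ X, ((E₁.filter fun x => g⁻¹ * x ∈ M).card : ℝ) ≤ B * (el M).card)
    (b2 : ∀ g ∈ X, ((E₂.filter fun x => g⁻¹ * x ∈ M).card : ℝ) ≤ B * (el M).card) :
    ((E₁ ∩ E₂).card : ℝ) ≤ B * E₁.card ∧
      B * (E₁.card + E₂.card) - B ^ 2 * X.card ≤ ((E₁ ∩ E₂).card : ℝ) := by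
  set c : ℝ := ((el M).card : ℝ) with hc
  have hc0 : 0 < c := by
    rw [hc]
    exact_mod_cast el_pos M
  set a : G → ℝ := fun g => ((E₁.filter fun x => g⁻¹ * x ∈ M).card : ℝ) with ha
  set b : G → ℝ := fun g => ((E₂.filter fun x => g⁻¹ * x ∈ M).card : ℝ) with hb
  have hab : ∀ g, a g * b g = (((E₁ ∩ E₂).filter fun x => g⁻¹ * x ∈ M).card : ℝ) * c := by
    intro g
    have h := indep_card h1 h2 hM (E₁ := E₁.filter fun x => g⁻¹ * x ∈ M)
      (E₂ := E₂.filter fun x => g⁻¹ * x ∈ M) (g := g) (fun x hx => (mem_filter.1 hx).2)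
      (fun x hx => (mem_filter.1 hx).2) (fun x hx n hn => by
        rw [mem_filter] at hx ⊢
        exact ⟨i1 x hx.1 n hn, by
          rw [← mul_assoc]
          exact M.mul_mem hx.2 (h1 hn)⟩) (fun x hx n hn => by
        rw [mem_filter] at hx ⊢
        exact ⟨i2 x hx.1 n hn, by
          rw [← mul_assoc]
          exact M.mul_mem hx.2 (h2 hn)⟩)
    have h3 : (E₁.filter fun x => g⁻¹ * x ∈ M) ∩ (E₂.filter fun x => g⁻¹ * x ∈ M) =
        (E₁ ∩ E₂).filter fun x => g⁻¹ * x ∈ M := by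
      ext x
      simp only [mem_inter, mem_filter]
      tauto
    rw [h3] at h
    rw [ha, hb, hc]
    beta_reduce
    exact_mod_cast h.symm
  have sa : ∑ g ∈ X, a g = E₁.card * c := by
    rw [ha, hc]
    beta_reduce
    exact_mod_cast sum_coset hX hE1
  have sb : ∑ g ∈ X, b g = E₂.card * c := by
    rw [hb, hc]
    beta_reduce
    exact_mod_cast sum_coset hX hE2
  have sab : ∑ g ∈ X, a g * b g = (E₁ ∩ E₂).card * c ^ 2 := by
    rw [sum_congr rfl fun g _ => hab g, ← sum_mul]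
    have : ∑ g ∈ X, (((E₁ ∩ E₂).filter fun x => g⁻¹ * x ∈ M).card : ℝ) = (E₁ ∩ E₂).card * c := by
      rw [hc]
      exact_mod_cast sum_coset hX (inter_subset_left.trans hE1)
    rw [this]
    ring
  have ha0 : ∀ g, 0 ≤ a g := fun g => Nat.cast_nonneg _
  constructor
  · have h : ∑ g ∈ X, a g * b g ≤ ∑ g ∈ X, a g * (B * c) :=
      sum_le_sum fun g hg => mul_le_mul_of_nonneg_left (b2 g hg) (ha0 g)
    rw [sab, ← sum_mul, sa] at h
    have h4 : ((E₁ ∩ E₂).card : ℝ) * c ^ 2 ≤ (B * E₁.card) * c ^ 2 := by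
      refine h.trans (le_of_eq ?_)
      ring
    exact le_of_mul_le_mul_right h4 (by positivity)
  · have h : 0 ≤ ∑ g ∈ X, (B * c - a g) * (B * c - b g) :=
      sum_nonneg fun g hg => mul_nonneg (sub_nonneg.2 (b1 g hg)) (sub_nonneg.2 (b2 g hg))
    have h5 : ∑ g ∈ X, (B * c - a g) * (B * c - b g) =
        B ^ 2 * X.card * c ^ 2 - B * c * (∑ g ∈ X, a g) - B * c * (∑ g ∈ X, b g) +
          ∑ g ∈ X, a g * b g := by
      rw [mul_sum, mul_sum]
      have : B ^ 2 * (X.card : ℝ) * c ^ 2 = ∑ g ∈ X, B ^ 2 * c ^ 2 := by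
        rw [sum_const, nsmul_eq_mul]
        ring
      rw [this, ← sum_sub_distrib, ← sum_sub_distrib, ← sum_add_distrib]
      refine sum_congr rfl fun g _ => ?_
      ring
    rw [h5, sa, sb, sab] at h
    have h6 : (B * (E₁.card + E₂.card) - B ^ 2 * X.card) * c ^ 2 ≤
        ((E₁ ∩ E₂).card : ℝ) * c ^ 2 := by nlinarith
    exact le_of_mul_le_mul_right h6 (by positivity)

end Pool.Agent.KS6_22.BA
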