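import Pool.Agent.KS6_22.BA.Ar3

/-!
# The proportion of elements with a fixed vertex above `1`

Owner helper22.
-/

set_option autoImplicit false
set_option linter.unusedSectionVars false
set_option linter.unusedVariables false

open Finset
open Q280.Basilica

namespace Pool.Agent.KS6_22.BA

section gen

variable {k Ω : Type*} [Field k] [Field Ω] [Algebra k Ω] [IsAlgClosed Ω] [CharZero Ω]

/-- all signs of the two symbols of a good vertex -/
lemma signs_two {x : Ω} (hx : Good k x) (e : Fin 2 → Ω) (he : ∀ i, e i = 1 ∨ e i = -1) :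
    ∃ σ ∈ St k x, κ 1 x σ = e 0 ∧ κ 1 (1 + x) σ = e 1 := by
  obtain ⟨⟨σ, hσ, s1, s2⟩, ⟨τ, hτ, t1, t2⟩⟩ := id hx
  have h0 := hx.ne
  have h1 := hx.ne'
  rcases he 0 with h | h <;> rcases he 1 with h' | h' <;> rw [h, h']
  · exact ⟨1, (St k x).one_mem, κ_one h0, κ_one h1⟩
  · exact ⟨τ, hτ, t1, t2⟩
  · exact ⟨σ, hσ, s1, s2⟩
  · refine ⟨σ * τ, (St k x).mul_mem hσ hτ, ?_, ?_⟩
    · rw [κ_mul hσ hτ h0, s1, t1, mul_one]
    · rw [κ_mul (St_one_add hσ) (St_one_add hτ) h1, s2, t2, one_mul]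

lemma exists_t' {x : Ω} (hx : Good k x) (m : ℕ) : ∃ t ∈ Km k m x hx.ne, t (br x 1) = -br x 1 := by
  have h0 := hx.ne
  have h1 := hx.ne'
  obtain ⟨b, hb⟩ := IsAlgClosed.exists_pow_nat_eq (-1 : Ω) (pow_pos two_pos m)
  have hb' : b ^ (2 ^ (m + 1)) = 1 := by
    rw [pow_succ, pow_mul, hb]
    norm_num
  obtain ⟨t, ht, e⟩ := lift_signs (r := 2) (H := St k x) (v := ![x, 1 + x]) (by
      intro i
      fin_cases i
      · exact h0
      · exact h1) (by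
      intro i
      fin_cases i
      · exact le_rfl
      · exact fun _ h => St_one_add h) (by
      intro e he
      obtain ⟨σ, hσ, s1, s2⟩ := signs_two hx e he
      refine ⟨σ, hσ, ?_⟩
      intro i
      fin_cases i
      · exact s1
      · exact s2) (m + 1) ![1, b] (by
      intro i
      fin_cases i
      · exact one_pow _
      · exact hb')
  have e1 : κ (m + 1) x t = 1 := e 0
  have e2 : κ (m + 1) (1 + x) t = b := e 1
  refine ⟨t, ⟨ht, κ_mono e1 (by omega) ht.1 h0⟩, ?_⟩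
  have e3 : κ 1 (1 + x) t = -1 := by
    rw [← κ_two_pow ht.1 h1 m, e2, hb]
  rw [fix_of_κ h1 (br_succ x 0) ht.1]
  have : br x 0 = x := rfl
  rw [e3]
  ring

end gen

section cnt

variable {k K Ω : Type*} [Field k] [Field K] [Field Ω] [Algebra k K] [Algebra k Ω] [Algebra K Ω]
  [IsScalarTower k K Ω] [Normal k K] [Normal k Ω] [IsAlgClosed Ω] [Fintype (Aut k K)]
  [CharZero Ω]

lemma FA_conj {x : Ω} {n : ℕ} (τ : Aut k Ω) (hc : Cont K x n) (hc' : Cont K (τ x) n)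
    (σ : Aut k Ω) : res K (τ * σ * τ⁻¹) ∈ FA k K (τ x) n ↔ res K σ ∈ FA k K x n := by
  rw [mem_FA hc', mem_FA hc]
  constructor
  · intro h
    have h1 := Fx_conj (s := τ⁻¹) h
    have h2 : τ⁻¹ * (τ * σ * τ⁻¹) * τ⁻¹⁻¹ = σ := by group
    have h3 : τ⁻¹ (τ x) = x := by
      change (τ⁻¹ * τ) x = x
      rw [inv_mul_cancel]
      rfl
    rwa [h2, h3] at h1
  · intro h
    exact Fx_conj h

open Classical in
lemma inter_conj {x y : Ω} {n : ℕ} (τ : Aut k Ω) (hx : Cont K x n) (hx' : Cont K (τ x) n)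
    (hy : Cont K y n) (hy' : Cont K (τ y) n) :
    (FA k K (τ x) n ∩ FA k K (τ y) n).card = (FA k K x n ∩ FA k K y n).card := by
  symm
  refine card_bij' (fun a _ => res K τ * a * (res K τ)⁻¹)
    (fun a _ => (res K τ)⁻¹ * a * res K τ) ?_ ?_ ?_ ?_
  · intro a ha
    obtain ⟨σ, rfl⟩ := res_surj (Ω := Ω) a
    rw [mem_inter] at ha ⊢
    rw [← map_inv, ← map_mul, ← map_mul]
    exact ⟨(FA_conj τ hx hx' σ).2 ha.1, (FA_conj τ hy hy' σ).2 ha.2⟩
  · intro a ha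
    obtain ⟨σ, rfl⟩ := res_surj (Ω := Ω) a
    rw [mem_inter] at ha ⊢
    have h1 : σ = τ * (τ⁻¹ * σ * τ) * τ⁻¹ := by group
    rw [← map_inv, ← map_mul, ← map_mul]
    rw [h1] at ha
    exact ⟨(FA_conj τ hx hx' _).1 ha.1, (FA_conj τ hy hy' _).1 ha.2⟩
  · intro a _
    group
  · intro a _
    group

variable (k K) in
open Classical in
/-- the elements moving `x` to `y` -/
noncomputable def TT (x y : Ω) : Finset (Aut k K) :=
  (univ : Finset (Aut k K)).filter fun b => ∃ σ : Aut k Ω, res K σ = b ∧ σ x = y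

lemma mem_TT {x y : Ω} (hx : Cont K x 0) (σ : Aut k Ω) : res K σ ∈ TT k K x y ↔ σ x = y := by
  classical
  unfold TT
  rw [mem_filter, and_iff_right (mem_univ _)]
  constructor
  · rintro ⟨τ, h1, h2⟩
    rw [← res_fix h1 (hx x rfl), h2]
  · intro h
    exact ⟨σ, rfl, h⟩

lemma card_TT {x y : Ω} (hx : Cont K x 0) {τ : Aut k Ω} (hτ : τ x = y) :
    (TT k K x y).card = (TT k K x x).card := by
  symm
  refine card_bij' (fun a _ => res K τ * a) (fun a _ => (res K τ)⁻¹ * a) ?_ ?_ ?_ ?_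
  · intro a ha
    obtain ⟨σ, rfl⟩ := res_surj (Ω := Ω) a
    rw [mem_TT hx] at ha
    rw [← map_mul, mem_TT hx, AlgEquiv.mul_apply, ha, hτ]
  · intro a ha
    obtain ⟨σ, rfl⟩ := res_surj (Ω := Ω) a
    rw [mem_TT hx] at ha
    rw [← map_inv, ← map_mul, mem_TT hx, AlgEquiv.mul_apply, ha]
    rw [← hτ]
    change (τ⁻¹ * τ) x = x
    rw [inv_mul_cancel]
    rfl
  · intro a _
    group
  · intro a _
    group

lemma card_TT' {x y : Ω} (hx : Cont K x 0) (hy : Cont K y 0) {τ : Aut k Ω} (hτ : τ x = y) :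
    (TT k K y y).card = (TT k K x x).card := by
  have hτ' : τ⁻¹ y = x := by
    rw [← hτ]
    change (τ⁻¹ * τ) x = x
    rw [inv_mul_cancel]
    rfl
  symm
  refine card_bij' (fun a _ => res K τ * a * (res K τ)⁻¹)
    (fun a _ => (res K τ)⁻¹ * a * res K τ) ?_ ?_ ?_ ?_
  · intro a ha
    obtain ⟨σ, rfl⟩ := res_surj (Ω := Ω) a
    rw [mem_TT hx] at ha
    rw [← map_inv, ← map_mul, ← map_mul, mem_TT hy, AlgEquiv.mul_apply, AlgEquiv.mul_apply, hτ',
      ha, hτ]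
  · intro a ha
    obtain ⟨σ, rfl⟩ := res_surj (Ω := Ω) a
    rw [mem_TT hy] at ha
    rw [← map_inv, ← map_mul, ← map_mul, mem_TT hx, AlgEquiv.mul_apply, AlgEquiv.mul_apply, hτ,
      ha, hτ']
  · intro a _
    group
  · intro a _
    group

open Classical in
/-- an inequality of Bonferroni for four sets -/
lemma bonf {α : Type*} (A B C D : Finset α) :
    A.card + B.card + C.card + D.card ≤ (A ∪ B ∪ (C ∪ D)).card +
      ((A ∩ B).card + (C ∩ D).card + (A ∩ C).card + (A ∩ D).card + (B ∩ C).card +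
        (B ∩ D).card) := by
  have h1 := card_union_add_card_inter A B
  have h2 := card_union_add_card_inter C D
  have h3 := card_union_add_card_inter (A ∪ B) (C ∪ D)
  have h4 : (A ∪ B) ∩ (C ∪ D) ⊆ (A ∩ C ∪ A ∩ D) ∪ (B ∩ C ∪ B ∩ D) := by
    intro x hx
    simp only [mem_inter, mem_union] at hx ⊢
    tauto
  have h5 := card_le_card h4
  have h6 := card_union_le (A ∩ C ∪ A ∩ D) (B ∩ C ∪ B ∩ D)
  have h7 := card_union_le (A ∩ C) (A ∩ D)
  have h8 := card_union_le (B ∩ C) (B ∩ D)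
  omega

end cnt

section final

variable {K Ω : Type*} [Field K] [Field Ω] [Algebra ℚ K] [Algebra ℚ Ω] [Algebra K Ω]
  [IsScalarTower ℚ K Ω] [Normal ℚ K] [IsAlgClosed Ω] [Algebra.IsAlgebraic ℚ Ω] [CharZero Ω]
  [Normal ℚ Ω] [Fintype (Aut ℚ K)] (D : Dat Ω)

namespace Dat

/-- all vertices of level two are conjugate -/
lemma orbit {x : Ω} (hx : f^[2] x = 1) : ∃ τ : Aut ℚ Ω, τ D.γ = x := by
  have h1 : (D.ρ₁ D.γ) ^ 2 = D.γ' ^ 2 := by
    rw [← map_pow, D.hγ, D.hγ', map_add, map_one, D.hρ₁]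
    ring
  have h2 : (D.ρ₁ D.γ - D.γ') * (D.ρ₁ D.γ + D.γ') = 0 := by linear_combination h1
  have h3 : (∃ τ : Aut ℚ Ω, τ D.γ = D.γ') ∧ ∃ τ : Aut ℚ Ω, τ D.γ = -D.γ' := by
    rcases mul_eq_zero.mp h2 with h | h
    · have h4 : D.ρ₁ D.γ = D.γ' := by linear_combination h
      refine ⟨⟨_, h4⟩, ⟨D.ρ₁ * D.t, ?_⟩⟩
      rw [AlgEquiv.mul_apply, D.htγ, map_neg, h4]
    · have h4 : D.ρ₁ D.γ = -D.γ' := by linear_combination h
      refine ⟨⟨D.ρ₁ * D.t, ?_⟩, ⟨_, h4⟩⟩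
      rw [AlgEquiv.mul_apply, D.htγ, map_neg, h4, neg_neg]
  rcases level_two D hx with h | h | h | h <;> rw [h]
  · exact ⟨1, rfl⟩
  · exact ⟨D.t, D.htγ⟩
  · exact h3.1
  · exact h3.2

lemma Cont.two {m n : ℕ} (hm : m = n + 2) (hK : Cont K (1 : Ω) m) {x : Ω}
    (hx : f^[2] x = 1) : Cont K x n := hK.up hx (by omega)

open Classical in
/-- the pair of vertices over different vertices of level one -/
lemma pair_one {n : ℕ} (hn : 1 ≤ n) (hc : Cont K D.γ (n + 1)) (hc' : Cont K D.γ' (n + 1)) :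
    ((FA ℚ K D.γ (n + 1) ∩ FA ℚ K D.γ' (n + 1)).card : ℝ) ≤
      (2 / n * (2 / (n + 1 : ℕ))) * Fintype.card (Aut ℚ K) := by
  refine inter_total D.St_eq hc hc' (by positivity) ?_
  intro σ h1 h2
  refine pair_km D.good D.good' D.St_eq hc hc' hn (exists_t' D.good _) ?_ ?_ h1 h2
  · intro g hg
    have h3 : g ∈ St ℚ D.γ := by
      rw [D.St_eq]
      exact U_le_St _ _ hg
    exact ⟨h3, (D.κ_γ' h3).2 (Ukill (n + 1) D.good' hg).1⟩
  · intro τ hτ
    exact gen_common D.good D.good' D.St_eq (fun m τ hτ => D.κ_γ' hτ) D.signs_common (n + 1)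
      hτ.1 hτ.2

open Classical in
/-- the pair of opposite vertices -/
lemma pair_two {n : ℕ} (hn : 1 ≤ n) (hc : Cont K D.γ (n + 1)) (hc' : Cont K (-D.γ) (n + 1)) :
    ((FA ℚ K D.γ (n + 1) ∩ FA ℚ K (-D.γ) (n + 1)).card : ℝ) ≤
      (4 * (2 / n) ^ 2) * Fintype.card (Aut ℚ K) := by
  obtain ⟨α, hα⟩ := exists_child D.γ
  obtain ⟨β, hβ'⟩ := exists_child (-D.γ)
  have hβ : β ^ 2 = 1 - D.γ := by rw [hβ']; ring
  have hnα : (-α) ^ 2 = 1 + D.γ := by rw [neg_sq, hα]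
  have hnβ : (-β) ^ 2 = 1 - D.γ := by rw [neg_sq, hβ]
  have iα : ∀ {x : Ω}, x ^ 2 = 1 + D.γ → f^[1] x = D.γ := by
    intro x hx
    change f x = D.γ
    unfold f
    rw [hx]
    ring
  have iβ : ∀ {x : Ω}, x ^ 2 = 1 - D.γ → f^[1] x = -D.γ := by
    intro x hx
    change f x = -D.γ
    unfold f
    rw [hx]
    ring
  have each : ∀ {x y : Ω}, x ^ 2 = 1 + D.γ → y ^ 2 = 1 - D.γ →
      ((FA ℚ K x n ∩ FA ℚ K y n).card : ℝ) ≤ (2 / n) ^ 2 * Fintype.card (Aut ℚ K) := by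
    intro x y hx hy
    have cx : Cont K x n := hc.up (iα hx) (by omega)
    have cy : Cont K y n := hc'.up (iβ hy) (by omega)
    refine inter_total (St3 hx hy) cx cy (by positivity) ?_
    intro σ h1 h2
    refine pair_indep (goodα hx) (goodβ hy) (St3 hx hy) cx cy hn ?_ h1 h2
    intro τ hτ
    refine gen_indep (goodα hx) (goodβ hy) (St3 hx hy) ?_ n hτ
    intro e he
    exact signs_indep hx hy (he 0) (he 1) (he 2) (he 3)
  have hsub : FA ℚ K D.γ (n + 1) ∩ FA ℚ K (-D.γ) (n + 1) ⊆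
      (FA ℚ K α n ∩ FA ℚ K β n ∪ FA ℚ K α n ∩ FA ℚ K (-β) n) ∪
      (FA ℚ K (-α) n ∩ FA ℚ K β n ∪ FA ℚ K (-α) n ∩ FA ℚ K (-β) n) := by
    intro b hb
    obtain ⟨σ, rfl⟩ := res_surj (Ω := Ω) b
    have c1 : Cont K α n := hc.up (iα hα) (by omega)
    have c2 : Cont K (-α) n := hc.up (iα hnα) (by omega)
    have c3 : Cont K β n := hc'.up (iβ hβ) (by omega)
    have c4 : Cont K (-β) n := hc'.up (iβ hnβ) (by omega)
    rw [mem_inter, mem_FA hc, mem_FA hc', Fx_succ hα, Fx_succ hβ'] at hb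
    simp only [mem_union, mem_inter, mem_FA c1, mem_FA c2, mem_FA c3, mem_FA c4]
    tauto
  have h1 := card_le_card hsub
  have h2 := card_union_le (FA ℚ K α n ∩ FA ℚ K β n ∪ FA ℚ K α n ∩ FA ℚ K (-β) n)
    (FA ℚ K (-α) n ∩ FA ℚ K β n ∪ FA ℚ K (-α) n ∩ FA ℚ K (-β) n)
  have h3 := card_union_le (FA ℚ K α n ∩ FA ℚ K β n) (FA ℚ K α n ∩ FA ℚ K (-β) n)
  have h4 := card_union_le (FA ℚ K (-α) n ∩ FA ℚ K β n) (FA ℚ K (-α) n ∩ FA ℚ K (-β) n)
  have h5 : ((FA ℚ K D.γ (n + 1) ∩ FA ℚ K (-D.γ) (n + 1)).card : ℝ) ≤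
      ((FA ℚ K α n ∩ FA ℚ K β n).card : ℝ) + ((FA ℚ K α n ∩ FA ℚ K (-β) n).card : ℝ) +
      (((FA ℚ K (-α) n ∩ FA ℚ K β n).card : ℝ) + ((FA ℚ K (-α) n ∩ FA ℚ K (-β) n).card : ℝ)) := by
    exact_mod_cast h1.trans (h2.trans (add_le_add h3 h4))
  have e1 := each hα hβ
  have e2 := each hα hnβ
  have e3 := each hnα hβ
  have e4 := each hnα hnβ
  linarith

end Dat

end final

end Pool.Agent.KS6_22.BA
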