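import Pool.Agent.KS6_22.BA.Fin

/-!
# The proportion of elements with a fixed vertex above `1`: the total count

Owner helper22.
-/

set_option autoImplicit false
set_option linter.unusedSectionVars false
set_option linter.unusedVariables false

open Finset
open Q280.Basilica

namespace Pool.Agent.KS6_22.BA

section final

variable {K Ω : Type*} [Field K] [Field Ω] [Algebra ℚ K] [Algebra ℚ Ω] [Algebra K Ω]
  [IsScalarTower ℚ K Ω] [Normal ℚ K] [IsAlgClosed Ω] [Algebra.IsAlgebraic ℚ Ω] [CharZero Ω]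
  [Normal ℚ Ω] [Fintype (Aut ℚ K)] (D : Dat Ω)

namespace Dat

open Classical in
/-- the union over the vertices of level two -/
lemma union {n : ℕ} (hK : Cont K (1 : Ω) (n + 3)) :
    FA ℚ K (1 : Ω) (n + 3) = FA ℚ K D.γ (n + 1) ∪ FA ℚ K (-D.γ) (n + 1) ∪
      (FA ℚ K D.γ' (n + 1) ∪ FA ℚ K (-D.γ') (n + 1)) := by
  have c1 : Cont K D.γ (n + 1) := hK.up D.iter_γ (by omega)
  have c2 : Cont K (-D.γ) (n + 1) := hK.up (iter_neg D.iter_γ) (by omega)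
  have c3 : Cont K D.γ' (n + 1) := hK.up D.iter_γ' (by omega)
  have c4 : Cont K (-D.γ') (n + 1) := hK.up (iter_neg D.iter_γ') (by omega)
  ext b
  obtain ⟨σ, rfl⟩ := res_surj (Ω := Ω) b
  simp only [mem_union, mem_FA hK, mem_FA c1, mem_FA c2, mem_FA c3, mem_FA c4]
  have e : n + 3 = 2 + (n + 1) := by ring
  constructor
  · rintro ⟨x, hx, h⟩
    rw [e, Function.iterate_add_apply] at hx
    rcases level_two D hx with h1 | h1 | h1 | h1
    · exact Or.inl (Or.inl ⟨x, h1, h⟩)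
    · exact Or.inl (Or.inr ⟨x, h1, h⟩)
    · exact Or.inr (Or.inl ⟨x, h1, h⟩)
    · exact Or.inr (Or.inr ⟨x, h1, h⟩)
  · have key : ∀ y : Ω, f^[2] y = 1 → Fx σ y (n + 1) → Fx σ (1 : Ω) (n + 3) := by
      rintro y hy ⟨x, hx, h⟩
      refine ⟨x, ?_, h⟩
      rw [e, Function.iterate_add_apply, hx, hy]
    rintro ((h | h) | (h | h))
    · exact key _ D.iter_γ h
    · exact key _ (iter_neg D.iter_γ) h
    · exact key _ D.iter_γ' h
    · exact key _ (iter_neg D.iter_γ') h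

include D in
open Classical in
/-- the sizes of the stabilizers -/
lemma card_stab (hK : Cont K (1 : Ω) 2) {x : Ω} (hx : f^[2] x = 1) :
    4 * (TT ℚ K x x).card = Fintype.card (Aut ℚ K) := by
  have c0 : ∀ {y : Ω}, f^[2] y = 1 → Cont K y 0 := fun hy => hK.up hy (by omega)
  have cγ := c0 D.iter_γ
  obtain ⟨τx, hτx⟩ := D.orbit hx
  rw [card_TT' cγ (c0 hx) hτx]
  have h1 : (univ : Finset (Aut ℚ K)) = TT ℚ K D.γ D.γ ∪ TT ℚ K D.γ (-D.γ) ∪
      (TT ℚ K D.γ D.γ' ∪ TT ℚ K D.γ (-D.γ')) := by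
    symm
    rw [eq_univ_iff_forall]
    intro b
    obtain ⟨σ, rfl⟩ := res_surj (Ω := Ω) b
    simp only [mem_union, mem_TT cγ]
    have h2 : f^[2] (σ D.γ) = 1 := by rw [← map_iter, D.iter_γ, map_one]
    rcases level_two D h2 with h | h | h | h
    · exact Or.inl (Or.inl h)
    · exact Or.inl (Or.inr h)
    · exact Or.inr (Or.inl h)
    · exact Or.inr (Or.inr h)
  have hdisj : ∀ {y z : Ω}, y ≠ z → Disjoint (TT ℚ K D.γ y) (TT ℚ K D.γ z) := by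
    intro y z hyz
    rw [disjoint_left]
    intro b hb hb'
    obtain ⟨σ, rfl⟩ := res_surj (Ω := Ω) b
    rw [mem_TT cγ] at hb hb'
    exact hyz (hb ▸ hb')
  have hr2 : (1 : Ω) + D.r ≠ 1 - D.r := by
    intro h
    apply D.r_ne
    have : D.r + D.r = 0 := by linear_combination h
    exact add_self_eq_zero.mp this
  have n1 : D.γ ≠ -D.γ := fun h => neg_ne D.γ_ne h.symm
  have n2 : D.γ' ≠ -D.γ' := fun h => neg_ne D.γ'_ne h.symm
  have n3 : ∀ {y z : Ω}, y ^ 2 = 1 + D.r → z ^ 2 = 1 - D.r → y ≠ z := by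
    intro y z hy hz h
    apply hr2
    rw [← hy, ← hz, h]
  have hn : (-D.γ) ^ 2 = 1 + D.r := by rw [neg_sq, D.hγ]
  have hn' : (-D.γ') ^ 2 = 1 - D.r := by rw [neg_sq, D.hγ']
  have h2 : Fintype.card (Aut ℚ K) = (TT ℚ K D.γ D.γ).card + (TT ℚ K D.γ (-D.γ)).card +
      ((TT ℚ K D.γ D.γ').card + (TT ℚ K D.γ (-D.γ')).card) := by
    rw [← card_univ, h1, card_union_of_disjoint, card_union_of_disjoint (hdisj n1),
      card_union_of_disjoint (hdisj n2)]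
    rw [disjoint_union_left, disjoint_union_right, disjoint_union_right]
    exact ⟨⟨hdisj (n3 D.hγ D.hγ'), hdisj (n3 D.hγ hn')⟩,
      ⟨hdisj (n3 hn D.hγ'), hdisj (n3 hn hn')⟩⟩
  obtain ⟨τ₁, hτ₁⟩ := D.orbit (iter_neg D.iter_γ)
  obtain ⟨τ₂, hτ₂⟩ := D.orbit D.iter_γ'
  obtain ⟨τ₃, hτ₃⟩ := D.orbit (iter_neg D.iter_γ')
  rw [card_TT cγ hτ₁, card_TT cγ hτ₂, card_TT cγ hτ₃] at h2
  omega

include D in
open Classical in
/-- **The total count.** -/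
theorem total {n : ℕ} (hn : 1 ≤ n) (hK : Cont K (1 : Ω) (n + 3)) :
    ((FA ℚ K (1 : Ω) (n + 3)).card : ℝ) ≤ 2 / (n + 1 : ℕ) * Fintype.card (Aut ℚ K) ∧
    (lo (n + 1) - 48 / n ^ 2) * Fintype.card (Aut ℚ K) ≤
      ((FA ℚ K (1 : Ω) (n + 3)).card : ℝ) := by
  have hγ := D.iter_γ
  have hnγ : f^[2] (-D.γ) = 1 := iter_neg D.iter_γ
  have hγ' := D.iter_γ'
  have hnγ' : f^[2] (-D.γ') = 1 := iter_neg D.iter_γ'
  have cc : ∀ {x : Ω}, f^[2] x = 1 → Cont K x (n + 1) := fun hx => hK.up hx (by omega)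
  have h2 : Cont K (1 : Ω) 2 := hK.up (i := 0) rfl (by omega)
  set a : ℝ := (Fintype.card (Aut ℚ K) : ℝ) with ha
  have ha0 : 0 < a := by
    rw [ha]
    exact_mod_cast Fintype.card_pos
  have hone : ∀ {x : Ω}, f^[2] x = 1 → ((FA ℚ K x (n + 1)).card : ℝ) ≤ 2 / (n + 1 : ℕ) * (a / 4) ∧
      lo (n + 1) * (a / 4) ≤ ((FA ℚ K x (n + 1)).card : ℝ) := by
    intro x hx
    have h3 := one_total (good_level2 hx) (cc hx) (by omega)
    have h4 : (((univ : Finset (Aut ℚ K)).filter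
      fun b => ∃ σ : Aut ℚ Ω, res K σ = b ∧ σ x = x).card : ℝ) = a / 4 := by
      have h5 := card_stab D h2 hx
      have h6 : (4 : ℝ) * ((TT ℚ K x x).card : ℝ) = a := by
        rw [ha]
        exact_mod_cast h5
      have h7 : (((univ : Finset (Aut ℚ K)).filter
        fun b => ∃ σ : Aut ℚ Ω, res K σ = b ∧ σ x = x).card : ℝ) = ((TT ℚ K x x).card : ℝ) := rfl
      rw [h7]
      linarith
    rw [h4] at h3
    exact h3
  obtain ⟨u1, l1⟩ := hone hγ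
  obtain ⟨u2, l2⟩ := hone hnγ
  obtain ⟨u3, l3⟩ := hone hγ'
  obtain ⟨u4, l4⟩ := hone hnγ'
  rw [D.union hK]
  constructor
  · have h3 := card_union_le (FA ℚ K D.γ (n + 1) ∪ FA ℚ K (-D.γ) (n + 1))
      (FA ℚ K D.γ' (n + 1) ∪ FA ℚ K (-D.γ') (n + 1))
    have h4 := card_union_le (FA ℚ K D.γ (n + 1)) (FA ℚ K (-D.γ) (n + 1))
    have h5 := card_union_le (FA ℚ K D.γ' (n + 1)) (FA ℚ K (-D.γ') (n + 1))
    have h6 : ((FA ℚ K D.γ (n + 1) ∪ FA ℚ K (-D.γ) (n + 1) ∪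
        (FA ℚ K D.γ' (n + 1) ∪ FA ℚ K (-D.γ') (n + 1))).card : ℝ) ≤
        ((FA ℚ K D.γ (n + 1)).card : ℝ) + ((FA ℚ K (-D.γ) (n + 1)).card : ℝ) +
        (((FA ℚ K D.γ' (n + 1)).card : ℝ) + ((FA ℚ K (-D.γ') (n + 1)).card : ℝ)) := by
      exact_mod_cast h3.trans (add_le_add h4 h5)
    linarith
  · -- the pairs
    have P1 := D.pair_one hn (cc hγ) (cc hγ')
    have P2 := D.pair_two hn (cc hγ) (cc hnγ)
    rw [← ha] at P1 P2
    have hn0 : (0 : ℝ) < n := by exact_mod_cast hn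
    have hP1 : (2 / n * (2 / (n + 1 : ℕ)) : ℝ) * a ≤ 4 / n ^ 2 * a := by
      refine mul_le_mul_of_nonneg_right ?_ ha0.le
      rw [div_mul_div_comm, div_le_div_iff₀ (by positivity) (by positivity)]
      push_cast
      nlinarith
    have hP2 : (4 * (2 / n) ^ 2 : ℝ) * a = 16 / n ^ 2 * a := by
      field_simp
      ring
    have P1' := P1.trans hP1
    rw [hP2] at P2
    -- transport by automorphisms
    have cγI : D.c D.γ = D.γ := by
      have h1 : D.φ (D.γ ^ 2) = ((D.tγ ^ 2 : ℝ) : ℂ) := by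
        rw [map_pow, D.φγ]
        push_cast
        rfl
      have := D.htγ0
      exact conj_pos D.hc (by positivity) h1
    have cI : D.c D.I = -D.I := by
      have h1 : D.φ (D.I ^ 2) = ((-1 : ℝ) : ℂ) := by
        rw [D.hI, map_neg, map_one]
        push_cast
        rfl
      exact conj_neg D.hc (by norm_num) h1
    have cγ' : D.c D.γ' = -D.γ' := by
      unfold γ'
      rw [map_div₀, cγI, cI, neg_div]
    have tγ' : D.t D.γ' = -D.γ' := by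
      unfold γ'
      rw [map_div₀, D.htγ, D.fix_I D.ht, div_neg]
    have tr : ∀ {x y x' y' : Ω} (τ : Aut ℚ Ω), f^[2] x = 1 → f^[2] y = 1 → f^[2] x' = 1 →
        f^[2] y' = 1 → τ x = x' → τ y = y' →
        (FA ℚ K x' (n + 1) ∩ FA ℚ K y' (n + 1)).card =
          (FA ℚ K x (n + 1) ∩ FA ℚ K y (n + 1)).card := by
      intro x y x' y' τ hx hy hx' hy' h3 h4
      subst h3 h4
      exact inter_conj τ (cc hx) (cc hx') (cc hy) (cc hy')
    have Q1 : ((FA ℚ K D.γ (n + 1) ∩ FA ℚ K (-D.γ') (n + 1)).card : ℝ) ≤ 4 / n ^ 2 * a := by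
      rw [tr D.c hγ hγ' hγ hnγ' cγI cγ']
      exact P1'
    have Q2 : ((FA ℚ K (-D.γ) (n + 1) ∩ FA ℚ K (-D.γ') (n + 1)).card : ℝ) ≤ 4 / n ^ 2 * a := by
      rw [tr D.t hγ hγ' hnγ hnγ' D.htγ tγ']
      exact P1'
    have Q3 : ((FA ℚ K (-D.γ) (n + 1) ∩ FA ℚ K D.γ' (n + 1)).card : ℝ) ≤ 4 / n ^ 2 * a := by
      rw [tr D.t hγ hnγ' hnγ hγ' D.htγ (by rw [map_neg, tγ', neg_neg])]
      exact Q1
    have Q4 : ((FA ℚ K D.γ' (n + 1) ∩ FA ℚ K (-D.γ') (n + 1)).card : ℝ) ≤ 16 / n ^ 2 * a := by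
      obtain ⟨τ, hτ⟩ := D.orbit hγ'
      rw [tr τ hγ hnγ hγ' hnγ' hτ (by rw [map_neg, hτ])]
      exact P2
    have hb := bonf (FA ℚ K D.γ (n + 1)) (FA ℚ K (-D.γ) (n + 1)) (FA ℚ K D.γ' (n + 1))
      (FA ℚ K (-D.γ') (n + 1))
    have hb' : ((FA ℚ K D.γ (n + 1)).card : ℝ) + (FA ℚ K (-D.γ) (n + 1)).card +
        (FA ℚ K D.γ' (n + 1)).card + (FA ℚ K (-D.γ') (n + 1)).card ≤
        ((FA ℚ K D.γ (n + 1) ∪ FA ℚ K (-D.γ) (n + 1) ∪
          (FA ℚ K D.γ' (n + 1) ∪ FA ℚ K (-D.γ') (n + 1))).card : ℝ) +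
        (((FA ℚ K D.γ (n + 1) ∩ FA ℚ K (-D.γ) (n + 1)).card : ℝ) +
          (FA ℚ K D.γ' (n + 1) ∩ FA ℚ K (-D.γ') (n + 1)).card +
          (FA ℚ K D.γ (n + 1) ∩ FA ℚ K D.γ' (n + 1)).card +
          (FA ℚ K D.γ (n + 1) ∩ FA ℚ K (-D.γ') (n + 1)).card +
          (FA ℚ K (-D.γ) (n + 1) ∩ FA ℚ K D.γ' (n + 1)).card +
          (FA ℚ K (-D.γ) (n + 1) ∩ FA ℚ K (-D.γ') (n + 1)).card) := by
      exact_mod_cast hb
    have hfin : (48 / n ^ 2 : ℝ) * a = 2 * (16 / n ^ 2 * a) + 4 * (4 / n ^ 2 * a) := by ring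
    rw [sub_mul, hfin]
    linarith

end Dat

end final

end Pool.Agent.KS6_22.BA
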