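import Pool.Graph.R_pool_sql_team_seeded_3997aac3.Q280.Basilica.Key
import Pool.Agent.KS6_22.BA.Cnt

/-!
# Fixed points above a good vertex: the events in a finite quotient

Owner helper22.
-/

set_option autoImplicit false
set_option linter.unusedSectionVars false
set_option linter.unusedVariables false

open Finset
open Q280.Basilica

namespace Pool.Agent.KS6_22.BA

section basic

variable {k Ω : Type*} [Field k] [Field Ω] [Algebra k Ω]

/-- there is a fixed vertex of level `n` above `v` -/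
def Fx (σ : Aut k Ω) (v : Ω) (n : ℕ) : Prop := ∃ x, f^[n] x = v ∧ σ x = x

lemma Fx_zero {σ : Aut k Ω} {v : Ω} : Fx σ v 0 ↔ σ v = v := by
  unfold Fx
  constructor
  · rintro ⟨x, hx, h⟩
    have : x = v := hx
    rwa [this] at h
  · intro h
    exact ⟨v, rfl, h⟩

lemma Fx_fix {σ : Aut k Ω} {v : Ω} {n : ℕ} (h : Fx σ v n) : σ v = v := by
  obtain ⟨x, hx, h⟩ := h
  rw [← hx, map_iter, h]

lemma f_eq_iff {u v x : Ω} (hu : u ^ 2 = 1 + v) : f x = v ↔ x = u ∨ x = -u := by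
  unfold f
  constructor
  · intro h
    have h4 : (x - u) * (x + u) = 0 := by linear_combination h - hu
    rcases mul_eq_zero.mp h4 with h | h
    · left; linear_combination h
    · right; linear_combination h
  · rintro (rfl | rfl)
    · linear_combination hu
    · linear_combination hu

lemma Fx_succ {σ : Aut k Ω} {u v : Ω} (hu : u ^ 2 = 1 + v) {n : ℕ} :
    Fx σ v (n + 1) ↔ Fx σ u n ∨ Fx σ (-u) n := by
  unfold Fx
  constructor
  · rintro ⟨x, hx, h⟩
    rw [Function.iterate_succ_apply', f_eq_iff hu] at hx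
    rcases hx with hx | hx
    · exact Or.inl ⟨x, hx, h⟩
    · exact Or.inr ⟨x, hx, h⟩
  · rintro (⟨x, hx, h⟩ | ⟨x, hx, h⟩)
    · refine ⟨x, ?_, h⟩
      rw [Function.iterate_succ_apply', f_eq_iff hu]
      exact Or.inl hx
    · refine ⟨x, ?_, h⟩
      rw [Function.iterate_succ_apply', f_eq_iff hu]
      exact Or.inr hx

lemma Fx_conj {σ s : Aut k Ω} {v : Ω} {n : ℕ} (h : Fx σ v n) : Fx (s * σ * s⁻¹) (s v) n := by
  obtain ⟨x, hx, h⟩ := h
  refine ⟨s x, by rw [← map_iter, hx], ?_⟩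
  change s (σ (s⁻¹ (s x))) = s x
  have : s⁻¹ (s x) = x := by
    change (s⁻¹ * s) x = x
    rw [inv_mul_cancel]
    rfl
  rw [this, h]

lemma Fx_mul {σ w : Aut k Ω} {v : Ω} {n : ℕ} (hw : w ∈ U k n v) :
    Fx (σ * w) v n ↔ Fx σ v n := by
  unfold Fx
  constructor
  · rintro ⟨x, hx, h⟩
    refine ⟨x, hx, ?_⟩
    rw [AlgEquiv.mul_apply, hw.2 x hx] at h
    exact h
  · rintro ⟨x, hx, h⟩
    refine ⟨x, hx, ?_⟩
    rw [AlgEquiv.mul_apply, hw.2 x hx]
    exact h

end basic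

section quot

variable {k Ω : Type*} [Field k] [Field Ω] [Algebra k Ω] [IsAlgClosed Ω]

lemma U_mono {m n : ℕ} (h : m ≤ n) (v : Ω) : U k n v ≤ U k m v := by
  obtain ⟨d, rfl⟩ := Nat.exists_eq_add_of_le h
  clear h
  induction d with
  | zero => exact le_rfl
  | succ d ih => exact (U_succ_le (m + d) v).trans ih

lemma U_le_U {i j N : ℕ} {u v : Ω} (hu : f^[i] u = v) (hij : i + j ≤ N) :
    U k N v ≤ U k j u :=
  (U_mono (by omega : j + i ≤ N) v).trans (U_le_of_iter hu)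

lemma St_le {i : ℕ} {u v : Ω} (hu : f^[i] u = v) : St k u ≤ St k v := by
  intro σ hσ
  refine ⟨hσ.1, ?_⟩
  rw [← hu, map_iter, hσ.2]

variable (k) in
/-- the group of the actions on the tree above `v` up to level `N` -/
abbrev QG (v : Ω) (N : ℕ) : Type _ := St k v ⧸ (U k N v).subgroupOf (St k v)

noncomputable instance (v : Ω) (N : ℕ) : Fintype (QG k v N) := by
  haveI := finiteIndex_U (k := k) N v
  exact Subgroup.fintypeQuotientOfFiniteIndex

variable (k) in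
/-- the image of a subgroup -/
def Im (v : Ω) (N : ℕ) (H : Subgroup (Aut k Ω)) : Subgroup (QG k v N) :=
  (H.subgroupOf (St k v)).map (QuotientGroup.mk' _)

lemma mem_Im {v : Ω} {N : ℕ} {H : Subgroup (Aut k Ω)} (hH : U k N v ≤ H) (g : St k v) :
    (QuotientGroup.mk g : QG k v N) ∈ Im k v N H ↔ (g : Aut k Ω) ∈ H := by
  unfold Im
  rw [Subgroup.mem_map]
  constructor
  · rintro ⟨h, hh, he⟩
    have h1 : h⁻¹ * g ∈ (U k N v).subgroupOf (St k v) := QuotientGroup.eq.1 he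
    have h2 : (h : Aut k Ω)⁻¹ * (g : Aut k Ω) ∈ H := hH (Subgroup.mem_subgroupOf.1 h1)
    have h3 := H.mul_mem (Subgroup.mem_subgroupOf.1 hh) h2
    rwa [mul_inv_cancel_left] at h3
  · intro h
    exact ⟨g, Subgroup.mem_subgroupOf.2 h, rfl⟩

open Classical in
/-- the event that there is a fixed vertex of level `j` above `u` -/
noncomputable def EE (σ : Aut k Ω) (v : Ω) (N : ℕ) (u : Ω) (j : ℕ) : Finset (QG k v N) :=
  univ.filter fun q => Fx (σ * (q.out : Aut k Ω)) u j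

lemma mem_EE {σ : Aut k Ω} {v u : Ω} {N i j : ℕ} (hu : f^[i] u = v) (hij : i + j ≤ N)
    (g : St k v) : (QuotientGroup.mk g : QG k v N) ∈ EE σ v N u j ↔ Fx (σ * (g : Aut k Ω)) u j := by
  classical
  unfold EE
  rw [mem_filter, and_iff_right (mem_univ _)]
  have h1 : (QuotientGroup.mk (QuotientGroup.mk g : QG k v N).out : QG k v N) =
      QuotientGroup.mk g := QuotientGroup.out_eq' _
  have h2 : ((QuotientGroup.mk g : QG k v N).out)⁻¹ * g ∈ (U k N v).subgroupOf (St k v) :=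
    QuotientGroup.eq.1 h1
  have h3 := U_le_U hu hij (Subgroup.mem_subgroupOf.1 h2)
  have h4 : σ * (g : Aut k Ω) = (σ * ((QuotientGroup.mk g : QG k v N).out : Aut k Ω)) *
      ((((QuotientGroup.mk g : QG k v N).out)⁻¹ * g : St k v) : Aut k Ω) := by
    rw [Subgroup.coe_mul, Subgroup.coe_inv, mul_assoc, mul_inv_cancel_left]
  rw [h4, Fx_mul h3]

variable {σ : Aut k Ω} {v₀ : Ω} {N : ℕ}

/-- conjugation -/
lemma card_conj (hσ : σ v₀ = v₀) {s : Aut k Ω} (hs : s ∈ St k v₀) {x : Ω} {i j : ℕ}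
    (hx : f^[i] x = v₀) (hij : i + j ≤ N) :
    (EE σ v₀ N (s x) j).card = (EE σ v₀ N x j).card := by
  have hsx : f^[i] (s x) = v₀ := by rw [← map_iter, hx, hs.2]
  have hσ' : σ⁻¹ v₀ = v₀ := inv_fix σ hσ
  have hs' : σ⁻¹ * s * σ ∈ St k v₀ := by
    refine ⟨?_, ?_⟩
    · have := (inferInstance : (Γ k Ω).Normal).conj_mem s hs.1 σ⁻¹
      rwa [inv_inv] at this
    · change σ⁻¹ (s (σ v₀)) = v₀
      rw [hσ, hs.2, hσ']
  symm
  refine card_bij' (fun q _ => (QuotientGroup.mk ⟨_, hs'⟩ : QG k v₀ N) * q *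
      (QuotientGroup.mk ⟨s, hs⟩ : QG k v₀ N)⁻¹)
    (fun q _ => (QuotientGroup.mk ⟨_, hs'⟩ : QG k v₀ N)⁻¹ * q *
      (QuotientGroup.mk ⟨s, hs⟩ : QG k v₀ N)) ?_ ?_ ?_ ?_
  · intro q hq
    obtain ⟨g, rfl⟩ := QuotientGroup.mk_surjective q
    rw [mem_EE hx hij] at hq
    have h1 : (QuotientGroup.mk ⟨_, hs'⟩ : QG k v₀ N) * QuotientGroup.mk g *
        (QuotientGroup.mk ⟨s, hs⟩ : QG k v₀ N)⁻¹ =
        QuotientGroup.mk ((⟨_, hs'⟩ : St k v₀) * g * (⟨s, hs⟩ : St k v₀)⁻¹) := rfl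
    rw [h1, mem_EE hsx hij]
    have h2 := Fx_conj (s := s) hq
    have h3 : σ * (((⟨_, hs'⟩ : St k v₀) * g * (⟨s, hs⟩ : St k v₀)⁻¹ : St k v₀) : Aut k Ω) =
        s * (σ * (g : Aut k Ω)) * s⁻¹ := by
      rw [Subgroup.coe_mul, Subgroup.coe_mul, Subgroup.coe_inv]
      group
    rw [h3]
    exact h2
  · intro q hq
    obtain ⟨g, rfl⟩ := QuotientGroup.mk_surjective q
    rw [mem_EE hsx hij] at hq
    have h1 : (QuotientGroup.mk ⟨_, hs'⟩ : QG k v₀ N)⁻¹ * QuotientGroup.mk g *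
        (QuotientGroup.mk ⟨s, hs⟩ : QG k v₀ N) =
        QuotientGroup.mk ((⟨_, hs'⟩ : St k v₀)⁻¹ * g * (⟨s, hs⟩ : St k v₀)) := rfl
    rw [h1, mem_EE hx hij]
    have h2 := Fx_conj (s := s⁻¹) hq
    have h3 : σ * (((⟨_, hs'⟩ : St k v₀)⁻¹ * g * (⟨s, hs⟩ : St k v₀) : St k v₀) : Aut k Ω) =
        s⁻¹ * (σ * (g : Aut k Ω)) * s⁻¹⁻¹ := by
      rw [Subgroup.coe_mul, Subgroup.coe_mul, Subgroup.coe_inv]
      group
    have h4 : s⁻¹ (s x) = x := by
      change (s⁻¹ * s) x = x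
      rw [inv_mul_cancel]
      rfl
    rw [h3]
    rwa [h4] at h2
  · intro q _
    group
  · intro q _
    group

/-- the probabilities depend only on the level -/
lemma card_level (hv : Good k v₀) (hσ : σ v₀ = v₀) {x y : Ω} {i j : ℕ}
    (hx : f^[i] x = v₀) (hy : f^[i] y = v₀) (hij : i + j ≤ N) :
    (EE σ v₀ N x j).card = (EE σ v₀ N y j).card := by
  obtain ⟨s, hs, rfl⟩ := trans_level i hv hx hy
  exact (card_conj hσ hs hx hij).symm

lemma iter_child {u v : Ω} (hu : u ^ 2 = 1 + v) {i : ℕ} (hv : f^[i] v = v₀) :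
    f^[i + 1] u = v₀ := by
  rw [Function.iterate_succ_apply]
  have : f u = v := by unfold f; rw [hu]; ring
  rw [this, hv]

/-- an automorphism exchanging the two children -/
lemma exists_swap {u v : Ω} (h : Good k v) (hu : u ^ 2 = 1 + v) : ∃ t ∈ St k v, t u = -u := by
  obtain ⟨-, ⟨t, ht, -, h2⟩⟩ := id h
  exact ⟨t, ht, by rw [fix_of_κ h.ne' hu ht.1, h2]; ring⟩

lemma sq_cases {u v : Ω} (hu : u ^ 2 = 1 + v) {τ : Aut k Ω} (hτ : τ v = v) :
    τ u = u ∨ τ u = -u := by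
  have h1 : f (τ u) = v := by
    rw [← map_f]
    have : f u = v := by unfold f; rw [hu]; ring
    rw [this, hτ]
  exact (f_eq_iff hu).1 h1

lemma EE_sub {u v : Ω} (hu : u ^ 2 = 1 + v) {i : ℕ} (hv : f^[i] v = v₀) (hi : i + 1 ≤ N) :
    EE σ v₀ N u 0 ⊆ EE σ v₀ N v 0 := by
  intro q hq
  obtain ⟨g, rfl⟩ := QuotientGroup.mk_surjective q
  rw [mem_EE (iter_child hu hv) (by omega), Fx_zero] at hq
  rw [mem_EE hv (by omega), Fx_zero]
  have : v = u ^ 2 - 1 := by rw [hu]; ring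
  rw [this, map_sub, map_pow, hq, map_one]

open Classical in
/-- the probability to fix a child -/
lemma half [CharZero Ω] (h0 : Good k v₀) {u v : Ω} (hu : u ^ 2 = 1 + v) {i : ℕ}
    (hv : f^[i] v = v₀) (hi : i + 1 ≤ N) :
    (EE σ v₀ N v 0).card = 2 * (EE σ v₀ N u 0).card := by
  have hg : Good k v := h0.iter hv
  have hune : u ≠ 0 := child_ne hg hu
  obtain ⟨t, ht, htu⟩ := exists_swap hg hu
  have ht0 : t ∈ St k v₀ := St_le hv ht
  have hti : t⁻¹ u = -u := by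
    have : t (-u) = u := by rw [map_neg, htu, neg_neg]
    calc t⁻¹ u = t⁻¹ (t (-u)) := by rw [this]
      _ = (t⁻¹ * t) (-u) := rfl
      _ = -u := by rw [inv_mul_cancel]; rfl
  have hne : -u ≠ u := by
    intro h
    apply hune
    have : u + u = 0 := by
      nth_rewrite 1 [← h]
      ring
    exact add_self_eq_zero.mp this
  have h1 : (EE σ v₀ N v 0 \ EE σ v₀ N u 0).card = (EE σ v₀ N u 0).card := by
    symm
    refine card_bij' (fun q _ => q * (QuotientGroup.mk ⟨t, ht0⟩ : QG k v₀ N))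
      (fun q _ => q * (QuotientGroup.mk ⟨t, ht0⟩ : QG k v₀ N)⁻¹) ?_ ?_ ?_ ?_
    · intro q hq
      obtain ⟨g, rfl⟩ := QuotientGroup.mk_surjective q
      have hq' := EE_sub hu hv hi hq
      rw [mem_EE (iter_child hu hv) (by omega), Fx_zero] at hq
      rw [mem_EE hv (by omega), Fx_zero] at hq'
      have e : (QuotientGroup.mk g : QG k v₀ N) * (QuotientGroup.mk ⟨t, ht0⟩ : QG k v₀ N) =
          QuotientGroup.mk (g * (⟨t, ht0⟩ : St k v₀)) := rfl
      rw [e, mem_sdiff, mem_EE hv (by omega), mem_EE (iter_child hu hv) (by omega), Fx_zero,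
        Fx_zero]
      constructor
      · change (σ * (g : Aut k Ω)) (t v) = v
        rw [ht.2, hq']
      · change ¬ (σ * (g : Aut k Ω)) (t u) = u
        rw [htu, map_neg, hq]
        exact hne
    · intro q hq
      obtain ⟨g, rfl⟩ := QuotientGroup.mk_surjective q
      rw [mem_sdiff, mem_EE hv (by omega), mem_EE (iter_child hu hv) (by omega), Fx_zero,
        Fx_zero] at hq
      have e : (QuotientGroup.mk g : QG k v₀ N) * (QuotientGroup.mk ⟨t, ht0⟩ : QG k v₀ N)⁻¹ =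
          QuotientGroup.mk (g * (⟨t, ht0⟩ : St k v₀)⁻¹) := rfl
      rw [e, mem_EE (iter_child hu hv) (by omega), Fx_zero]
      change (σ * (g : Aut k Ω)) (t⁻¹ u) = u
      rw [hti, map_neg]
      rcases sq_cases hu hq.1 with h | h
      · exact absurd h hq.2
      · rw [h, neg_neg]
    · intro q _
      simp
    · intro q _
      simp
  have h2 := card_sdiff_add_card_eq_card (EE_sub (σ := σ) hu hv hi)
  omega

open Classical in
/-- inclusion and exclusion -/
lemma inc_exc {u v : Ω} (hu : u ^ 2 = 1 + v) {i n : ℕ}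
    (hv : f^[i] v = v₀) (hi : i + (n + 1) ≤ N) :
    (EE σ v₀ N v (n + 1)).card + (EE σ v₀ N u n ∩ EE σ v₀ N (-u) n).card =
      (EE σ v₀ N u n).card + (EE σ v₀ N (-u) n).card := by
  have hnu : (-u) ^ 2 = 1 + v := by rw [neg_sq, hu]
  have h1 : EE σ v₀ N v (n + 1) = EE σ v₀ N u n ∪ EE σ v₀ N (-u) n := by
    ext q
    obtain ⟨g, rfl⟩ := QuotientGroup.mk_surjective q
    rw [mem_union, mem_EE hv hi, mem_EE (iter_child hu hv) (by omega),
      mem_EE (iter_child hnu hv) (by omega), Fx_succ hu]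
  rw [h1]
  exact card_union_add_card_inter _ _

end quot

end Pool.Agent.KS6_22.BA
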