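import Pool.Agent.KS6_22.BA.Lvl

/-!
# The recursion for the probability of a fixed point above a good vertex

Owner helper22.
-/

set_option autoImplicit false
set_option linter.unusedSectionVars false
set_option linter.unusedVariables false

open Finset
open Q280.Basilica

namespace Pool.Agent.KS6_22.BA

section dec

variable {k Ω : Type*} [Field k] [Field Ω] [Algebra k Ω] [IsAlgClosed Ω]

/-- the elements of the stabilizer with a trivial symbol -/
def Km (k : Type*) {Ω : Type*} [Field k] [Field Ω] [Algebra k Ω] [IsAlgClosed Ω] (m : ℕ) (u : Ω)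
    (hu : u ≠ 0) : Subgroup (Aut k Ω) where
  carrier := {g | g ∈ St k u ∧ κ m u g = 1}
  mul_mem' := by
    intro a b ha hb
    exact ⟨(St k u).mul_mem ha.1 hb.1, by rw [κ_mul ha.1 hb.1 hu, ha.2, hb.2, one_mul]⟩
  one_mem' := ⟨(St k u).one_mem, κ_one hu⟩
  inv_mem' := by
    intro a ha
    exact ⟨(St k u).inv_mem ha.1, by rw [κ_inv ha.1 hu, ha.2, inv_one]⟩

lemma mem_Km {m : ℕ} {u : Ω} {hu : u ≠ 0} {g : Aut k Ω} :
    g ∈ Km k m u hu ↔ g ∈ St k u ∧ κ m u g = 1 := Iff.rfl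

/-- the elements acting trivially above a child take all values of the symbol -/
lemma dec {u w : Ω} (h : Good k u) (hw : w ^ 2 = 1 + u) (n : ℕ) {g : Aut k Ω}
    (hg : g ∈ St k w) : ∃ a ∈ Km k ((n + 1) / 2) u h.ne ⊓ St k w, ∃ b ∈ U k n w, g = a * b := by
  set m := (n + 1) / 2 with hm
  have hgu : g ∈ St k u := St_child hw hg
  set c := κ m u g with hc
  have hcp : c ^ (2 ^ m) = 1 := κ_pow hgu.2 h.ne
  have hw0 := child_ne h hw
  have hwg : Good k w := h.child hw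
  obtain ⟨τ, hτ, e1, e2, e3⟩ := surj h hw m 1 1 c (one_pow _) (one_pow _) hcp
  have hτu : τ ∈ St k u := St_child hw hτ
  have e4 : κ m u τ = c := by
    rw [← κ_prod h hw hτ.1, e2, e3, one_mul]
  have h1 : τ ∈ ⁅St k w, St k w⁆ ⊔ U k n w :=
    hyp n w hwg τ hτ (κ_mono e1 (by omega) hτ.1 hw0) e2
  have i1 : ((U k n w).subgroupOf (St k w)).Normal := normal_U n w
  have h2 := (mem_conv (U_le_St n w) hτ).mp h1
  rw [Subgroup.mem_sup_of_normal_right] at h2
  obtain ⟨z, hz, b, hb, hzb⟩ := h2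
  have hz1 : κ m u (z : Aut k Ω) = 1 := by
    let ψ : St k w →* rootsOfUnity (2 ^ m) Ω :=
      (χ (k := k) m u h.ne).comp (Subgroup.inclusion (St_child hw))
    have h3 : z ∈ ψ.ker := Abelianization.commutator_subset_ker ψ hz
    have h4 : Subgroup.inclusion (St_child hw) z ∈ (χ (k := k) m u h.ne).ker := h3
    exact mem_ker_χ.mp h4
  have hb' : (b : Aut k Ω) ∈ U k n w := Subgroup.mem_subgroupOf.1 hb
  have hbw : (b : Aut k Ω) ∈ St k w := b.2
  have hbu : (b : Aut k Ω) ∈ St k u := St_child hw hbw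
  have hb1 : κ m u (b : Aut k Ω) = c := by
    have h5 : τ = (z : Aut k Ω) * (b : Aut k Ω) := by
      have := congrArg (fun x : St k w => (x : Aut k Ω)) hzb
      exact this.symm
    rw [h5, κ_mul (St_child hw z.2) hbu h.ne, hz1, one_mul] at e4
    exact e4
  refine ⟨g * (b : Aut k Ω)⁻¹, ⟨⟨(St k u).mul_mem hgu ((St k u).inv_mem hbu), ?_⟩,
    (St k w).mul_mem hg ((St k w).inv_mem hbw)⟩, b, hb', by group⟩
  rw [κ_mul hgu ((St k u).inv_mem hbu) h.ne, κ_inv hbu h.ne, hb1]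
  exact mul_inv_cancel₀ (κ_ne h.ne)

lemma dec_neg {u w : Ω} (h : Good k u) (hw : w ^ 2 = 1 + u) (n : ℕ) {g : Aut k Ω}
    (hg : g ∈ St k w) : ∃ a ∈ Km k ((n + 1) / 2) u h.ne ⊓ St k w, ∃ b ∈ U k n (-w), g = a * b := by
  have h1 := dec (w := -w) h (neg_child hw) n (g := g) (by rw [St_neg]; exact hg)
  rwa [St_neg] at h1

/-- an element with trivial symbol exchanging the grandchildren -/
lemma exists_t {v u w : Ω} (h : Good k v) (hu : u ^ 2 = 1 + v) (hw : w ^ 2 = 1 + u) (m : ℕ) :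
    ∃ t ∈ Km k m u (child_ne h hu), t w = -w := by
  have h0 := child_ne h hu
  have h1 := child_ne1 h hu
  obtain ⟨b, hb⟩ := IsAlgClosed.exists_pow_nat_eq (-1 : Ω) (pow_pos two_pos m)
  have hb' : b ^ (2 ^ (m + 1)) = 1 := by
    rw [pow_succ, pow_mul, hb]
    norm_num
  obtain ⟨t, ht, e1, e2, -⟩ := surj h hu (m + 1) 1 b 1 (one_pow _) hb' (one_pow _)
  refine ⟨t, ⟨ht, κ_mono e1 (by omega) ht.1 h0⟩, ?_⟩
  have e3 : κ 1 (1 + u) t = -1 := by
    rw [← κ_two_pow ht.1 h1 m, e2, hb]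
  rw [fix_of_κ h1 hw ht.1, e3]
  ring

end dec

section rec

variable {k Ω : Type*} [Field k] [Field Ω] [Algebra k Ω] [IsAlgClosed Ω]
  {σ : Aut k Ω} {v₀ : Ω} {N : ℕ}

/-- the stabilizer as the event that the vertex is fixed -/
lemma fix_iff {w : Ω} {i : ℕ} (hw : f^[i] w = v₀) (hi : i ≤ N) {g₀ : St k v₀}
    (hg₀ : (σ * (g₀ : Aut k Ω)) w = w) (g : St k v₀) :
    (QuotientGroup.mk g : QG k v₀ N) ∈ EE σ v₀ N w 0 ↔
      (g₀ : Aut k Ω)⁻¹ * (g : Aut k Ω) ∈ St k w := by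
  rw [mem_EE hw (by omega), Fx_zero]
  have e : (g₀ : Aut k Ω)⁻¹ * (g : Aut k Ω) = (σ * (g₀ : Aut k Ω))⁻¹ * (σ * (g : Aut k Ω)) := by
    group
  constructor
  · intro h
    refine ⟨(Γ k Ω).mul_mem ((Γ k Ω).inv_mem g₀.2.1) g.2.1, ?_⟩
    rw [e, AlgEquiv.mul_apply, h]
    exact inv_fix _ hg₀
  · intro h
    have h1 := h.2
    rw [e, AlgEquiv.mul_apply] at h1
    have h2 := congrArg (σ * (g₀ : Aut k Ω)) h1
    rw [hg₀] at h2
    have h3 : (σ * (g₀ : Aut k Ω)) ((σ * (g₀ : Aut k Ω))⁻¹ ((σ * (g : Aut k Ω)) w)) =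
        (σ * (g : Aut k Ω)) w := by
      change ((σ * (g₀ : Aut k Ω)) * (σ * (g₀ : Aut k Ω))⁻¹) ((σ * (g : Aut k Ω)) w) = _
      rw [mul_inv_cancel]
      rfl
    rwa [h3] at h2

lemma mk_inv_mul (g₀ g : St k v₀) : (QuotientGroup.mk g₀ : QG k v₀ N)⁻¹ * QuotientGroup.mk g =
    QuotientGroup.mk (g₀⁻¹ * g) := rfl

open Classical in
/-- conditional probabilities above a grandchild -/
lemma cond_child {u w y : Ω} {i n : ℕ} (hu : f^[i] u = v₀) (hw : w ^ 2 = 1 + u)
    (hi : i + 1 + n ≤ N) {M : Subgroup (Aut k Ω)} (hM : U k N v₀ ≤ M) (hMw : M ≤ St k w)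
    (hyw : y = w ∨ y = -w)
    (hdec : ∀ g ∈ St k w, ∃ a ∈ M, ∃ b ∈ U k n y, g = a * b)
    {g₀ : St k v₀} (hg₀ : (σ * (g₀ : Aut k Ω)) w = w) :
    ((EE σ v₀ N y n).filter fun x =>
        (QuotientGroup.mk g₀ : QG k v₀ N)⁻¹ * x ∈ Im k v₀ N M).card *
      (EE σ v₀ N w 0).card = (EE σ v₀ N y n).card * (el (Im k v₀ N M)).card := by
  have hw1 : f^[i + 1] w = v₀ := iter_child hw hu
  have hy2 : y ^ 2 = 1 + u := by
    rcases hyw with rfl | rfl
    · exact hw
    · rw [neg_sq, hw]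
  have hy1 : f^[i + 1] y = v₀ := iter_child hy2 hu
  have hSt : St k y = St k w := by
    rcases hyw with rfl | rfl
    · rfl
    · exact St_neg w
  have hUw : U k N v₀ ≤ St k w := hM.trans hMw
  have hUy : U k N v₀ ≤ U k n y := U_le_U hy1 (by omega)
  have hUyw : U k n y ≤ St k w := by
    rw [← hSt]
    exact U_le_St n y
  -- elements of the events lie in the coset of the stabilizer
  have hcos : ∀ j, i + 1 + j ≤ N → ∀ x ∈ EE σ v₀ N y j,
      (QuotientGroup.mk g₀ : QG k v₀ N)⁻¹ * x ∈ Im k v₀ N (St k w) := by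
    intro j hj x hx
    obtain ⟨g, rfl⟩ := QuotientGroup.mk_surjective x
    rw [mem_EE hy1 hj] at hx
    have h1 := Fx_fix hx
    rw [mk_inv_mul, mem_Im hUw]
    have h2 : (QuotientGroup.mk g : QG k v₀ N) ∈ EE σ v₀ N y 0 := by
      rw [mem_EE hy1 (by omega), Fx_zero]
      exact h1
    have hg₀y : (σ * (g₀ : Aut k Ω)) y = y := by
      rcases hyw with rfl | rfl
      · exact hg₀
      · rw [map_neg, hg₀]
    have h3 := (fix_iff hy1 (by omega) hg₀y g).1 h2
    rw [hSt] at h3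
    exact h3
  set E₁ := EE σ v₀ N y n with hE₁
  set E₂ : Finset (QG k v₀ N) := univ.filter fun x =>
    (QuotientGroup.mk g₀ : QG k v₀ N)⁻¹ * x ∈ Im k v₀ N M with hE₂
  have key := indep_card (N₁ := Im k v₀ N (U k n y)) (N₂ := Im k v₀ N M)
    (M := Im k v₀ N (St k w)) (E₁ := E₁) (E₂ := E₂) (g := QuotientGroup.mk g₀) ?_ ?_ ?_ ?_ ?_ ?_ ?_
  · have h1 : E₁ ∩ E₂ = E₁.filter fun x =>
        (QuotientGroup.mk g₀ : QG k v₀ N)⁻¹ * x ∈ Im k v₀ N M := by
      rw [hE₂]
      ext x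
      simp only [mem_inter, mem_filter, mem_univ, true_and]
    have h2 : (el (Im k v₀ N (St k w))).card = (EE σ v₀ N w 0).card := by
      refine card_bij' (fun h _ => (QuotientGroup.mk g₀ : QG k v₀ N) * h)
        (fun x _ => (QuotientGroup.mk g₀ : QG k v₀ N)⁻¹ * x) ?_ ?_ ?_ ?_
      · intro h hh
        obtain ⟨g, rfl⟩ := QuotientGroup.mk_surjective h
        have e : (QuotientGroup.mk g₀ : QG k v₀ N) * QuotientGroup.mk g =
          QuotientGroup.mk (g₀ * g) := rfl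
        rw [e, fix_iff hw1 (by omega) hg₀]
        rw [mem_el, mem_Im hUw] at hh
        rw [Subgroup.coe_mul, inv_mul_cancel_left]
        exact hh
      · intro x hx
        obtain ⟨g, rfl⟩ := QuotientGroup.mk_surjective x
        rw [fix_iff hw1 (by omega) hg₀] at hx
        rw [mem_el, mk_inv_mul, mem_Im hUw]
        exact hx
      · intro h _
        simp
      · intro x _
        simp
    have h3 : E₂.card = (el (Im k v₀ N M)).card := by
      refine card_bij' (fun x _ => (QuotientGroup.mk g₀ : QG k v₀ N)⁻¹ * x)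
        (fun h _ => (QuotientGroup.mk g₀ : QG k v₀ N) * h) ?_ ?_ ?_ ?_
      · intro x hx
        rw [hE₂, mem_filter] at hx
        exact mem_el.2 hx.2
      · intro h hh
        rw [hE₂, mem_filter]
        refine ⟨mem_univ _, ?_⟩
        rw [inv_mul_cancel_left]
        exact mem_el.1 hh
      · intro x _
        simp
      · intro h _
        simp
    rw [h2, h3] at key
    rw [← key, ← h1]
    congr
    exact Subsingleton.elim _ _
  · intro x hx
    obtain ⟨g, rfl⟩ := QuotientGroup.mk_surjective x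
    rw [mem_Im hUy] at hx
    rw [mem_Im hUw]
    exact hUyw hx
  · intro x hx
    obtain ⟨g, rfl⟩ := QuotientGroup.mk_surjective x
    rw [mem_Im hM] at hx
    rw [mem_Im hUw]
    exact hMw hx
  · intro x hx
    obtain ⟨g, rfl⟩ := QuotientGroup.mk_surjective x
    rw [mem_Im hUw] at hx
    obtain ⟨a, ha, b, hb, hab⟩ := hdec g hx
    have ha0 : a ∈ St k v₀ := St_le hw1 (hMw ha)
    have hb0 : b ∈ St k v₀ := St_le hw1 (hUyw hb)
    refine ⟨QuotientGroup.mk ⟨a, ha0⟩, (mem_Im hM _).2 ha, QuotientGroup.mk ⟨b, hb0⟩,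
      (mem_Im hUy _).2 hb, ?_⟩
    have e : g = (⟨a, ha0⟩ : St k v₀) * (⟨b, hb0⟩ : St k v₀) := Subtype.ext hab
    rw [e]
    rfl
  · exact hcos n (by omega)
  · intro x hx
    rw [hE₂, mem_filter] at hx
    obtain ⟨g, rfl⟩ := QuotientGroup.mk_surjective x
    have h1 := hx.2
    rw [mk_inv_mul, mem_Im hM] at h1
    rw [mk_inv_mul, mem_Im hUw]
    exact hMw h1
  · intro x hx h hh
    obtain ⟨g, rfl⟩ := QuotientGroup.mk_surjective x
    obtain ⟨b, rfl⟩ := QuotientGroup.mk_surjective h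
    rw [mem_Im hUy] at hh
    have e : (QuotientGroup.mk g : QG k v₀ N) * QuotientGroup.mk b =
      QuotientGroup.mk (g * b) := rfl
    rw [e, hE₁, mem_EE hy1 (by omega)]
    rw [hE₁, mem_EE hy1 (by omega)] at hx
    rw [Subgroup.coe_mul, ← mul_assoc, Fx_mul hh]
    exact hx
  · intro x hx h hh
    rw [hE₂, mem_filter] at hx ⊢
    refine ⟨mem_univ _, ?_⟩
    rw [← mul_assoc]
    exact (Im k v₀ N M).mul_mem hx.2 hh

lemma neg_ne [CharZero Ω] {w : Ω} (hw : w ≠ 0) : -w ≠ w := by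
  intro h
  apply hw
  have : w + w = 0 := by
    nth_rewrite 1 [← h]
    ring
  exact add_self_eq_zero.mp this

lemma U_le_Km {n : ℕ} {u : Ω} (hg : Good k u) (hu : u ≠ 0) : U k n u ≤ Km k (n / 2) u hu :=
  fun _ hτ => ⟨U_le_St n u hτ, (Ukill n hg hτ).1⟩

open Classical in
/-- the elements fixing a child form at most one half of the group -/
lemma two_mul_card' [CharZero Ω] (h0 : Good k v₀) {u w : Ω} {i n : ℕ} (hu1 : f^[i] u = v₀)
    (hw : w ^ 2 = 1 + u) (hi : i + (n + 1) ≤ N) (hune : u ≠ 0)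
    (hT : ∃ t ∈ Km k ((n + 1) / 2) u hune, t w = -w) :
    2 * (el (Im k v₀ N (Km k ((n + 1) / 2) u hune ⊓ St k w))).card ≤
      (el (Im k v₀ N (Km k ((n + 1) / 2) u hune))).card := by
  have hgu : Good k u := h0.iter hu1
  have hw1 : f^[i + 1] w = v₀ := iter_child hw hu1
  have hwne : w ≠ 0 := child_ne hgu hw
  set m := (n + 1) / 2 with hm
  have hM : U k N v₀ ≤ Km k m u hune :=
    (U_le_U hu1 (by omega : i + (n + 1) ≤ N)).trans (U_le_Km hgu hune)
  have hA : U k N v₀ ≤ Km k m u hune ⊓ St k w :=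
    le_inf hM ((U_le_U hw1 (by omega : i + 1 + n ≤ N)).trans (U_le_St n w))
  obtain ⟨t, ht, htw⟩ := hT
  have ht0 : t ∈ St k v₀ := St_le hu1 ht.1
  set T : QG k v₀ N := QuotientGroup.mk ⟨t, ht0⟩ with hT
  have h1 : (el (Im k v₀ N (Km k m u hune ⊓ St k w))) ∪
      (el (Im k v₀ N (Km k m u hune ⊓ St k w))).image (fun x => T * x) ⊆
        el (Im k v₀ N (Km k m u hune)) := by
    intro x hx
    rw [mem_union, mem_image] at hx
    rcases hx with hx | ⟨y, hy, rfl⟩
    · obtain ⟨g, rfl⟩ := QuotientGroup.mk_surjective x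
      rw [mem_el, mem_Im hA] at hx
      rw [mem_el, mem_Im hM]
      exact hx.1
    · obtain ⟨g, rfl⟩ := QuotientGroup.mk_surjective y
      rw [mem_el, mem_Im hA] at hy
      have e : T * QuotientGroup.mk g = QuotientGroup.mk ((⟨t, ht0⟩ : St k v₀) * g) := rfl
      rw [e, mem_el, mem_Im hM]
      exact (Km k m u hune).mul_mem ht hy.1
  have h2 : Disjoint (el (Im k v₀ N (Km k m u hune ⊓ St k w)))
      ((el (Im k v₀ N (Km k m u hune ⊓ St k w))).image (fun x => T * x)) := by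
    rw [disjoint_left]
    intro x hx hx'
    rw [mem_image] at hx'
    obtain ⟨y, hy, rfl⟩ := hx'
    obtain ⟨g, rfl⟩ := QuotientGroup.mk_surjective y
    rw [mem_el, mem_Im hA] at hy
    have e : T * QuotientGroup.mk g = QuotientGroup.mk ((⟨t, ht0⟩ : St k v₀) * g) := rfl
    rw [e, mem_el, mem_Im hA] at hx
    have h3 := hx.2.2
    have h4 := hy.2.2
    rw [Subgroup.coe_mul, AlgEquiv.mul_apply, h4] at h3
    change t w = w at h3
    rw [htw] at h3
    exact neg_ne hwne h3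
  have h3 := card_le_card h1
  rw [card_union_of_disjoint h2, card_image_of_injective _ (mul_right_injective T)] at h3
  omega

open Classical in
/-- an upper bound for the conditional probability in every coset -/
lemma bound_child' [CharZero Ω] (h0 : Good k v₀) (hσ : σ v₀ = v₀) {u w : Ω} {i n : ℕ}
    (hu1 : f^[i] u = v₀) (hw : w ^ 2 = 1 + u) (hi : i + (n + 1) ≤ N)
    (hune : u ≠ 0) (hT : ∃ t ∈ Km k ((n + 1) / 2) u hune, t w = -w) (x₀ : QG k v₀ N) :
    ((EE σ v₀ N u (n + 1)).filter fun x =>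
        x₀⁻¹ * x ∈ Im k v₀ N (Km k ((n + 1) / 2) u hune)).card * (EE σ v₀ N w 0).card ≤
      (EE σ v₀ N w n).card * (el (Im k v₀ N (Km k ((n + 1) / 2) u hune))).card := by
  have hgu : Good k u := h0.iter hu1
  have hw1 : f^[i + 1] w = v₀ := iter_child hw hu1
  have hnw : (-w) ^ 2 = 1 + u := by rw [neg_sq, hw]
  have hnw1 : f^[i + 1] (-w) = v₀ := iter_child hnw hu1
  have h2 := two_mul_card' (N := N) h0 hu1 hw hi hune hT
  set m := (n + 1) / 2 with hm
  have hM : U k N v₀ ≤ Km k m u hune :=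
    (U_le_U hu1 (by omega : i + (n + 1) ≤ N)).trans (U_le_Km hgu hune)
  have hA : U k N v₀ ≤ Km k m u hune ⊓ St k w :=
    le_inf hM ((U_le_U hw1 (by omega : i + 1 + n ≤ N)).trans (U_le_St n w))
  set S := (EE σ v₀ N u (n + 1)).filter fun x => x₀⁻¹ * x ∈ Im k v₀ N (Km k m u hune) with hS
  rcases S.eq_empty_or_nonempty with hS0 | ⟨x₁, hx₁⟩
  · rw [hS0]
    simp
  obtain ⟨g₀, rfl⟩ := QuotientGroup.mk_surjective x₁
  -- all elements of the set fix `w`
  have hfix : ∀ g : St k v₀, (QuotientGroup.mk g : QG k v₀ N) ∈ S →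
      (σ * (g : Aut k Ω)) w = w ∧ (Fx (σ * (g : Aut k Ω)) w n ∨ Fx (σ * (g : Aut k Ω)) (-w) n) := by
    intro g hg
    rw [hS, mem_filter, mem_EE hu1 hi, Fx_succ hw] at hg
    refine ⟨?_, hg.1⟩
    rcases hg.1 with h | h
    · exact Fx_fix h
    · have := Fx_fix h
      rw [map_neg, neg_inj] at this
      exact this
  have hg₀ := (hfix g₀ hx₁).1
  have hsub : S ⊆ ((EE σ v₀ N w n).filter fun x =>
        (QuotientGroup.mk g₀ : QG k v₀ N)⁻¹ * x ∈ Im k v₀ N (Km k m u hune ⊓ St k w)) ∪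
      ((EE σ v₀ N (-w) n).filter fun x =>
        (QuotientGroup.mk g₀ : QG k v₀ N)⁻¹ * x ∈ Im k v₀ N (Km k m u hune ⊓ St k w)) := by
    intro x hx
    obtain ⟨g, rfl⟩ := QuotientGroup.mk_surjective x
    obtain ⟨h3, h4⟩ := hfix g hx
    have h5 : (QuotientGroup.mk g₀ : QG k v₀ N)⁻¹ * QuotientGroup.mk g ∈
        Im k v₀ N (Km k m u hune ⊓ St k w) := by
      have h6 : (QuotientGroup.mk g₀ : QG k v₀ N)⁻¹ * QuotientGroup.mk g ∈
          Im k v₀ N (Km k m u hune) := by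
        have a1 := (mem_filter.1 hx₁).2
        have a2 := (mem_filter.1 hx).2
        have a3 := (Im k v₀ N (Km k m u hune)).mul_mem
          ((Im k v₀ N (Km k m u hune)).inv_mem a1) a2
        rwa [mul_inv_rev, inv_inv, mul_assoc, mul_inv_cancel_left] at a3
      rw [mk_inv_mul, mem_Im hM] at h6
      rw [mk_inv_mul, mem_Im hA]
      refine ⟨h6, ?_⟩
      have h7 : (QuotientGroup.mk g : QG k v₀ N) ∈ EE σ v₀ N w 0 := by
        rw [mem_EE hw1 (by omega), Fx_zero]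
        exact h3
      exact (fix_iff hw1 (by omega) hg₀ g).1 h7
    rw [mem_union, mem_filter, mem_filter, mem_EE hw1 (by omega), mem_EE hnw1 (by omega)]
    rcases h4 with h | h
    · exact Or.inl ⟨h, h5⟩
    · exact Or.inr ⟨h, h5⟩
  have c1 := cond_child (σ := σ) (y := w) (n := n) hu1 hw (by omega) hA inf_le_right
    (Or.inl rfl) (fun g hg => dec hgu hw n hg) hg₀
  have c2 := cond_child (σ := σ) (y := -w) (n := n) hu1 hw (by omega) hA inf_le_right
    (Or.inr rfl) (fun g hg => dec_neg hgu hw n hg) hg₀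
  rw [card_level (σ := σ) (N := N) h0 hσ hnw1 hw1 (by omega : i + 1 + n ≤ N)] at c2
  have c3 := (card_le_card hsub).trans (card_union_le _ _)
  calc S.card * (EE σ v₀ N w 0).card ≤ _ := Nat.mul_le_mul_right _ c3
    _ = (EE σ v₀ N w n).card *
        (2 * (el (Im k v₀ N (Km k m u hune ⊓ St k w))).card) := by
        rw [add_mul, c1, c2]
        ring
    _ ≤ _ := Nat.mul_le_mul_left _ h2

open Classical in
/-- an upper bound for the conditional probability in every coset -/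
lemma bound_child [CharZero Ω] (h0 : Good k v₀) (hσ : σ v₀ = v₀) {v u w : Ω} {i n : ℕ}
    (hv : f^[i] v = v₀) (hu : u ^ 2 = 1 + v) (hw : w ^ 2 = 1 + u) (hi : i + 1 + (n + 1) ≤ N)
    (hune : u ≠ 0) (x₀ : QG k v₀ N) :
    ((EE σ v₀ N u (n + 1)).filter fun x =>
        x₀⁻¹ * x ∈ Im k v₀ N (Km k ((n + 1) / 2) u hune)).card * (EE σ v₀ N w 0).card ≤
      (EE σ v₀ N w n).card * (el (Im k v₀ N (Km k ((n + 1) / 2) u hune))).card :=
  bound_child' h0 hσ (iter_child hu hv) hw hi hune (exists_t (h0.iter hv) hu hw _) x₀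

end rec

end Pool.Agent.KS6_22.BA
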