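import Pool.Agent.KS6_22.BA.Rec

/-!
# The sequence of the probabilities

Owner helper22.
-/

set_option autoImplicit false
set_option linter.unusedSectionVars false
set_option linter.unusedVariables false

open Finset
open Q280.Basilica

namespace Pool.Agent.KS6_22.BA

/-- the inequalities between the probabilities of consecutive levels -/
structure Rc (A : ℕ → ℝ) (N : ℕ) : Prop where
  zero : A 0 = 1
  one : 1 ≤ N → A 1 = 1 / 2
  lower : ∀ n, n + 2 ≤ N → A (n + 1) * (1 - A n / 2) ≤ A (n + 2)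
  upper : ∀ n, n + 2 ≤ N → A (n + 2) ≤ A (n + 1) - A n * A (n + 1) + A n ^ 2 / 2

section chain

variable {k Ω : Type*} [Field k] [Field Ω] [Algebra k Ω] [IsAlgClosed Ω] [CharZero Ω]
  {σ : Aut k Ω} {v₀ : Ω} {N : ℕ}

/-- a branch of the tree -/
noncomputable def br (v₀ : Ω) : ℕ → Ω
  | 0 => v₀
  | n + 1 => (exists_child (br v₀ n)).choose

lemma br_succ (v₀ : Ω) (n : ℕ) : (br v₀ (n + 1)) ^ 2 = 1 + br v₀ n :=
  (exists_child (br v₀ n)).choose_spec

lemma br_iter (v₀ : Ω) (n : ℕ) : f^[n] (br v₀ n) = v₀ := by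
  induction n with
  | zero => rfl
  | succ n ih => exact iter_child (br_succ v₀ n) ih

lemma EE_neg_zero {u : Ω} {i : ℕ} (hu : f^[i] u = v₀) (hu' : f^[i] (-u) = v₀) (hi : i ≤ N) :
    EE σ v₀ N (-u) 0 = EE σ v₀ N u 0 := by
  ext q
  obtain ⟨g, rfl⟩ := QuotientGroup.mk_surjective q
  rw [mem_EE hu (by omega), mem_EE hu' (by omega), Fx_zero, Fx_zero, map_neg, neg_inj]

lemma EE_top (hσ : σ v₀ = v₀) : EE σ v₀ N v₀ 0 = univ := by
  rw [eq_univ_iff_forall]
  intro q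
  obtain ⟨g, rfl⟩ := QuotientGroup.mk_surjective q
  refine (mem_EE (v := v₀) (u := v₀) (i := 0) (j := 0) rfl (by omega) g).2 ?_
  rw [Fx_zero]
  change σ ((g : Aut k Ω) v₀) = v₀
  rw [g.2.2, hσ]

/-- the number of elements of the event along the branch -/
noncomputable def cc (σ : Aut k Ω) (v₀ : Ω) (N i j : ℕ) : ℝ :=
  ((EE σ v₀ N (br v₀ i) j).card : ℝ)

lemma cc_half (h0 : Good k v₀) {i : ℕ} (hi : i + 1 ≤ N) :
    cc σ v₀ N i 0 = 2 * cc σ v₀ N (i + 1) 0 := by
  unfold cc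
  exact_mod_cast half (σ := σ) h0 (br_succ v₀ i) (br_iter v₀ i) hi

lemma cc_zero (h0 : Good k v₀) (hσ : σ v₀ = v₀) {i : ℕ} (hi : i ≤ N) :
    2 ^ i * cc σ v₀ N i 0 = Fintype.card (QG k v₀ N) := by
  induction i with
  | zero =>
    unfold cc
    have : br v₀ 0 = v₀ := rfl
    rw [this, EE_top hσ, card_univ]
    simp
  | succ i ih =>
    rw [← ih (by omega), cc_half h0 hi]
    ring

lemma cc_pos (h0 : Good k v₀) (hσ : σ v₀ = v₀) {i : ℕ} (hi : i ≤ N) : 0 < cc σ v₀ N i 0 := by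
  have h1 := cc_zero (N := N) h0 hσ hi
  have h2 : (0 : ℝ) < Fintype.card (QG k v₀ N) := by
    exact_mod_cast Fintype.card_pos
  rw [← h1] at h2
  exact (mul_pos_iff_of_pos_left (by positivity)).1 h2

open Classical in
/-- the two inequalities -/
lemma cc_step (h0 : Good k v₀) (hσ : σ v₀ = v₀) {i n : ℕ} (hi : i + (n + 2) ≤ N) :
    (2 - cc σ v₀ N (i + 2) n / cc σ v₀ N (i + 2) 0) * cc σ v₀ N (i + 1) (n + 1) ≤
        cc σ v₀ N i (n + 2) ∧
      cc σ v₀ N i (n + 2) ≤ 2 * cc σ v₀ N (i + 1) (n + 1) -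
        2 * (cc σ v₀ N (i + 2) n / cc σ v₀ N (i + 2) 0) * cc σ v₀ N (i + 1) (n + 1) +
        (cc σ v₀ N (i + 2) n / cc σ v₀ N (i + 2) 0) ^ 2 * cc σ v₀ N (i + 1) 0 := by
  set v := br v₀ i with hv
  set u := br v₀ (i + 1) with hu
  set w := br v₀ (i + 2) with hw
  have hvi : f^[i] v = v₀ := br_iter v₀ i
  have hui : f^[i + 1] u = v₀ := br_iter v₀ (i + 1)
  have hwi : f^[i + 2] w = v₀ := br_iter v₀ (i + 2)
  have hu2 : u ^ 2 = 1 + v := br_succ v₀ i
  have hw2 : w ^ 2 = 1 + u := br_succ v₀ (i + 1)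
  have hgv : Good k v := h0.iter hvi
  have hgu : Good k u := hgv.child hu2
  have hgnu : Good k (-u) := hgv.child_neg hu2
  have hune : u ≠ 0 := hgu.ne
  have hnune : -u ≠ 0 := hgnu.ne
  have hnu2 : (-u) ^ 2 = 1 + v := by rw [neg_sq, hu2]
  have hnui : f^[i + 1] (-u) = v₀ := iter_child hnu2 hvi
  obtain ⟨w', hw'⟩ := exists_child (-u)
  have hw'i : f^[i + 1 + 1] w' = v₀ := iter_child hw' hnui
  set m := (n + 1) / 2 with hm
  set M := Km k m u hune with hMdef
  have hMeq : Km k m (-u) hnune = M := by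
    ext τ
    rw [hMdef, mem_Km, mem_Km, St_neg]
    constructor
    · rintro ⟨a, b⟩
      exact ⟨a, by rw [← κ_neg a.1 hune]; exact b⟩
    · rintro ⟨a, b⟩
      exact ⟨a, by rw [κ_neg a.1 hune]; exact b⟩
  have hU1 : U k (n + 1) u ≤ M := U_le_Km hgu hune
  have hU2 : U k (n + 1) (-u) ≤ M := by
    rw [← hMeq]
    exact U_le_Km hgnu hnune
  have hUN1 : U k N v₀ ≤ U k (n + 1) u := U_le_U hui (by omega)
  have hUN2 : U k N v₀ ≤ U k (n + 1) (-u) := U_le_U hnui (by omega)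
  have hUM : U k N v₀ ≤ M := hUN1.trans hU1
  set B : ℝ := cc σ v₀ N (i + 2) n / cc σ v₀ N (i + 2) 0 with hB
  have hcp : 0 < cc σ v₀ N (i + 2) 0 := cc_pos h0 hσ (by omega)
  have hlev : (EE σ v₀ N (-u) (n + 1)).card = (EE σ v₀ N u (n + 1)).card :=
    card_level h0 hσ hnui hui (by omega)
  have hlev2 : (EE σ v₀ N w' n).card = (EE σ v₀ N w n).card :=
    card_level h0 hσ hw'i hwi (by omega)
  have hlev3 : (EE σ v₀ N w' 0).card = (EE σ v₀ N w 0).card :=
    card_level h0 hσ hw'i hwi (by omega)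
  have key := indep_bound (N₁ := Im k v₀ N (U k (n + 1) (-u))) (N₂ := Im k v₀ N (U k (n + 1) u))
    (M := Im k v₀ N M) (X := EE σ v₀ N u 0) (E₁ := EE σ v₀ N (-u) (n + 1))
    (E₂ := EE σ v₀ N u (n + 1)) (B := B) ?_ ?_ ?_ ?_ ?_ ?_ ?_ ?_ ?_ ?_
  · have hie := inc_exc (σ := σ) (n := n + 1) hu2 hvi (by omega : i + (n + 1 + 1) ≤ N)
    rw [hlev] at key hie
    rw [inter_comm] at hie
    have e1 : (cc σ v₀ N i (n + 2) : ℝ) +
        ((EE σ v₀ N (-u) (n + 1) ∩ EE σ v₀ N u (n + 1)).card : ℝ) =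
        2 * cc σ v₀ N (i + 1) (n + 1) := by
      have : (EE σ v₀ N v (n + 1 + 1)).card +
          (EE σ v₀ N (-u) (n + 1) ∩ EE σ v₀ N u (n + 1)).card =
          2 * (EE σ v₀ N u (n + 1)).card := by
        rw [two_mul]
        exact hie
      unfold cc
      rw [← hv, ← hu]
      exact_mod_cast this
    have e2 : ((EE σ v₀ N u (n + 1)).card : ℝ) = cc σ v₀ N (i + 1) (n + 1) := rfl
    have e3 : ((EE σ v₀ N u 0).card : ℝ) = cc σ v₀ N (i + 1) 0 := rfl
    rw [e2, e3] at key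
    obtain ⟨k1, k2⟩ := key
    have k1' : ((EE σ v₀ N (-u) (n + 1) ∩ EE σ v₀ N u (n + 1)).card : ℝ) ≤
        B * cc σ v₀ N (i + 1) (n + 1) := by
      refine le_trans (le_of_eq ?_) k1
      congr
      exact Subsingleton.elim _ _
    have k2' : B * (cc σ v₀ N (i + 1) (n + 1) + cc σ v₀ N (i + 1) (n + 1)) -
        B ^ 2 * cc σ v₀ N (i + 1) 0 ≤
        ((EE σ v₀ N (-u) (n + 1) ∩ EE σ v₀ N u (n + 1)).card : ℝ) := by
      refine le_trans k2 (le_of_eq ?_)
      congr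
      exact Subsingleton.elim _ _
    constructor
    · linarith
    · linarith
  · intro x hx
    obtain ⟨g, rfl⟩ := QuotientGroup.mk_surjective x
    rw [mem_Im hUN2] at hx
    rw [mem_Im hUM]
    exact hU2 hx
  · intro x hx
    obtain ⟨g, rfl⟩ := QuotientGroup.mk_surjective x
    rw [mem_Im hUN1] at hx
    rw [mem_Im hUM]
    exact hU1 hx
  · intro x hx
    obtain ⟨g, rfl⟩ := QuotientGroup.mk_surjective x
    rw [mem_Im hUM] at hx
    have h1 := gen hgv hu2 (hyp (n + 1)) (hyp (n + 1)) hx.1 (by rw [min_self]; exact hx.2)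
    obtain ⟨a, ha, b, hb, hab⟩ := decomp h1
    have ha0 : a ∈ St k v₀ := St_le hui (U_le_St _ _ ha)
    have hb0 : b ∈ St k v₀ := St_le hnui (U_le_St _ _ hb)
    refine ⟨QuotientGroup.mk ⟨a, ha0⟩, (mem_Im hUN1 _).2 ha, QuotientGroup.mk ⟨b, hb0⟩,
      (mem_Im hUN2 _).2 hb, ?_⟩
    have e : g = (⟨a, ha0⟩ : St k v₀) * (⟨b, hb0⟩ : St k v₀) := Subtype.ext hab
    rw [e]
    rfl
  · intro x hx y hy
    obtain ⟨g, rfl⟩ := QuotientGroup.mk_surjective x
    obtain ⟨b, rfl⟩ := QuotientGroup.mk_surjective y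
    rw [mem_Im hUM] at hy
    have e : (QuotientGroup.mk g : QG k v₀ N) * QuotientGroup.mk b =
      QuotientGroup.mk (g * b) := rfl
    rw [e, mem_EE hui (by omega), Fx_zero]
    rw [mem_EE hui (by omega), Fx_zero] at hx
    rw [Subgroup.coe_mul, ← mul_assoc, AlgEquiv.mul_apply, hy.1.2, hx]
  · intro x hx
    obtain ⟨g, rfl⟩ := QuotientGroup.mk_surjective x
    rw [mem_EE hnui (by omega)] at hx
    rw [mem_EE hui (by omega), Fx_zero]
    have := Fx_fix hx
    rw [map_neg, neg_inj] at this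
    exact this
  · intro x hx
    obtain ⟨g, rfl⟩ := QuotientGroup.mk_surjective x
    rw [mem_EE hui (by omega)] at hx
    rw [mem_EE hui (by omega), Fx_zero]
    exact Fx_fix hx
  · intro x hx y hy
    obtain ⟨g, rfl⟩ := QuotientGroup.mk_surjective x
    obtain ⟨b, rfl⟩ := QuotientGroup.mk_surjective y
    rw [mem_Im hUN2] at hy
    have e : (QuotientGroup.mk g : QG k v₀ N) * QuotientGroup.mk b =
      QuotientGroup.mk (g * b) := rfl
    rw [e, mem_EE hnui (by omega)]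
    rw [mem_EE hnui (by omega)] at hx
    rw [Subgroup.coe_mul, ← mul_assoc, Fx_mul hy]
    exact hx
  · intro x hx y hy
    obtain ⟨g, rfl⟩ := QuotientGroup.mk_surjective x
    obtain ⟨b, rfl⟩ := QuotientGroup.mk_surjective y
    rw [mem_Im hUN1] at hy
    have e : (QuotientGroup.mk g : QG k v₀ N) * QuotientGroup.mk b =
      QuotientGroup.mk (g * b) := rfl
    rw [e, mem_EE hui (by omega)]
    rw [mem_EE hui (by omega)] at hx
    rw [Subgroup.coe_mul, ← mul_assoc, Fx_mul hy]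
    exact hx
  · intro g _
    have h1 := bound_child (N := N) h0 hσ hvi hnu2 hw' (by omega : i + 1 + (n + 1) ≤ N) hnune g
    rw [← hm, hMeq, hlev2, hlev3] at h1
    rw [hB, div_mul_eq_mul_div, le_div_iff₀ hcp]
    unfold cc
    rw [← hw]
    exact_mod_cast h1
  · intro g _
    have h1 := bound_child (N := N) h0 hσ hvi hu2 hw2 (by omega : i + 1 + (n + 1) ≤ N) hune g
    rw [← hm, ← hMdef] at h1
    rw [hB, div_mul_eq_mul_div, le_div_iff₀ hcp]
    unfold cc
    rw [← hw]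
    exact_mod_cast h1

/-- the probability that there is a fixed vertex of the top level above the vertex of the branch -/
noncomputable def aa (σ : Aut k Ω) (v₀ : Ω) (N j : ℕ) : ℝ :=
  cc σ v₀ N (N - j) j / cc σ v₀ N (N - j) 0

theorem aa_rc (h0 : Good k v₀) (hσ : σ v₀ = v₀) : Rc (aa σ v₀ N) N where
  zero := by
    unfold aa
    exact div_self (cc_pos h0 hσ (by omega)).ne'
  one := by
    intro hN
    obtain ⟨d, rfl⟩ := Nat.exists_eq_add_of_le' hN
    unfold aa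
    rw [show d + 1 - 1 = d by omega]
    have h1 : cc σ v₀ (d + 1) d 0 = 2 * cc σ v₀ (d + 1) (d + 1) 0 := cc_half h0 le_rfl
    have h2 : cc σ v₀ (d + 1) d 1 = cc σ v₀ (d + 1) (d + 1) 0 := by
      classical
      have h3 := inc_exc (σ := σ) (N := d + 1) (n := 0) (br_succ v₀ d) (br_iter v₀ d) le_rfl
      have hn : f^[d + 1] (-(br v₀ (d + 1))) = v₀ :=
        iter_child (by rw [neg_sq]; exact br_succ v₀ d) (br_iter v₀ d)
      rw [EE_neg_zero (br_iter v₀ (d + 1)) hn le_rfl, inter_self] at h3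
      unfold cc
      have h4 : (EE σ v₀ (d + 1) (br v₀ d) 1).card = (EE σ v₀ (d + 1) (br v₀ (d + 1)) 0).card := by
        rw [zero_add] at h3
        omega
      exact_mod_cast h4
    have h3 : 0 < cc σ v₀ (d + 1) (d + 1) 0 := cc_pos h0 hσ le_rfl
    rw [h2, h1]
    field_simp
  lower := by
    intro n hn
    obtain ⟨i, rfl⟩ := Nat.exists_eq_add_of_le' hn
    unfold aa
    rw [show i + (n + 2) - n = i + 2 by omega, show i + (n + 2) - (n + 1) = i + 1 by omega,
      show i + (n + 2) - (n + 2) = i by omega]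
    obtain ⟨h1, -⟩ := cc_step (N := i + (n + 2)) h0 hσ (i := i) (n := n) le_rfl
    have h2 : cc σ v₀ (i + (n + 2)) i 0 = 2 * cc σ v₀ (i + (n + 2)) (i + 1) 0 :=
      cc_half h0 (by omega)
    have h3 : 0 < cc σ v₀ (i + (n + 2)) (i + 1) 0 := cc_pos h0 hσ (by omega)
    rw [h2, le_div_iff₀ (by positivity)]
    refine le_trans (le_of_eq ?_) h1
    field_simp
  upper := by
    intro n hn
    obtain ⟨i, rfl⟩ := Nat.exists_eq_add_of_le' hn
    unfold aa
    rw [show i + (n + 2) - n = i + 2 by omega, show i + (n + 2) - (n + 1) = i + 1 by omega,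
      show i + (n + 2) - (n + 2) = i by omega]
    obtain ⟨-, h1⟩ := cc_step (N := i + (n + 2)) h0 hσ (i := i) (n := n) le_rfl
    have h2 : cc σ v₀ (i + (n + 2)) i 0 = 2 * cc σ v₀ (i + (n + 2)) (i + 1) 0 :=
      cc_half h0 (by omega)
    have h3 : 0 < cc σ v₀ (i + (n + 2)) (i + 1) 0 := cc_pos h0 hσ (by omega)
    rw [h2, div_le_iff₀ (by positivity)]
    refine h1.trans (le_of_eq ?_)
    set B := cc σ v₀ (i + (n + 2)) (i + 2) n / cc σ v₀ (i + (n + 2)) (i + 2) 0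
    field_simp

end chain

end Pool.Agent.KS6_22.BA
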