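import Pool.Agent.KS6_22.BA.An

/-!
# Transfer to the Galois group of a finite extension

Owner helper22.
-/

set_option autoImplicit false
set_option linter.unusedSectionVars false
set_option linter.unusedVariables false

open Finset
open Q280.Basilica

namespace Pool.Agent.KS6_22.BA

section pull

variable {G₁ G₂ : Type*} [Group G₁] [Group G₂] [Fintype G₁] [Fintype G₂]

open Classical in
lemma fiber_card (φ : G₁ →* G₂) {q : G₂} (hq : q ∈ φ.range) :
    (univ.filter fun y => φ y = q).card = (univ.filter fun y => φ y = 1).card := by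
  obtain ⟨y₀, rfl⟩ := hq
  refine card_bij' (fun y _ => y₀⁻¹ * y) (fun y _ => y₀ * y) ?_ ?_ ?_ ?_
  · intro y hy
    rw [mem_filter] at hy ⊢
    refine ⟨mem_univ _, ?_⟩
    rw [map_mul, map_inv, hy.2, inv_mul_cancel]
  · intro y hy
    rw [mem_filter] at hy ⊢
    refine ⟨mem_univ _, ?_⟩
    rw [map_mul, hy.2, mul_one]
  · intro y _
    simp
  · intro y _
    simp

open Classical in
lemma card_pull_aux (φ : G₁ →* G₂) (S : Finset G₂) :
    (univ.filter fun y => φ y ∈ S).card =
      (S.filter (· ∈ φ.range)).card * (univ.filter fun y => φ y = 1).card := by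
  rw [card_eq_sum_card_fiberwise (f := φ) (t := S.filter (· ∈ φ.range))]
  · rw [sum_congr rfl (g := fun _ => (univ.filter fun y => φ y = 1).card), sum_const, smul_eq_mul]
    intro q hq
    rw [mem_filter] at hq
    rw [← fiber_card φ hq.2]
    congr 1
    ext y
    simp only [mem_filter, mem_univ, true_and]
    constructor
    · exact fun h => h.2
    · intro h
      exact ⟨h ▸ hq.1, h⟩
  · intro y hy
    rw [mem_coe, mem_filter] at hy
    rw [mem_coe, mem_filter]
    exact ⟨hy.2, ⟨y, rfl⟩⟩

open Classical in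
lemma card_pull (φ : G₁ →* G₂) (S : Finset G₂) :
    (univ.filter fun y => φ y ∈ S).card * (el φ.range).card =
      (S.filter (· ∈ φ.range)).card * Fintype.card G₁ := by
  have h1 := card_pull_aux φ S
  have h2 := card_pull_aux φ univ
  have h3 : (univ.filter fun y => φ y ∈ (univ : Finset G₂)) = (univ : Finset G₁) := by
    ext y
    simp
  have h4 : (univ.filter (· ∈ φ.range)) = el φ.range := by
    ext y
    rw [mem_el, mem_filter]
    simp
  rw [h3, h4, card_univ] at h2
  rw [h1, h2]
  ring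

end pull

section tr

variable {k K Ω : Type*} [Field k] [Field K] [Field Ω] [Algebra k K] [Algebra k Ω] [Algebra K Ω]
  [IsScalarTower k K Ω] [Normal k K] [Normal k Ω] [IsAlgClosed Ω] [Fintype (Aut k K)]

variable (K) in
/-- restriction -/
noncomputable abbrev res : Aut k Ω →* Aut k K := AlgEquiv.restrictNormalHom K

lemma res_comm (σ : Aut k Ω) (x : K) :
    algebraMap K Ω (res K σ x) = σ (algebraMap K Ω x) :=
  AlgEquiv.restrictNormal_commutes σ K x

lemma res_surj (a : Aut k K) : ∃ σ : Aut k Ω, res K σ = a :=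
  AlgEquiv.restrictNormalHom_surjective (F := k) (K₁ := K) Ω a

variable (K) in
/-- the field contains the vertices of a certain level -/
def Cont (x : Ω) (n : ℕ) : Prop := ∀ y : Ω, f^[n] y = x → ∃ z : K, algebraMap K Ω z = y

lemma Cont.up {x u : Ω} {n i j : ℕ} (h : Cont K x n) (hu : f^[i] u = x) (hij : i + j ≤ n) :
    Cont K u j := by
  intro y hy
  obtain ⟨z, hz⟩ := exists_iter (n - (i + j)) y
  obtain ⟨z', hz'⟩ := h z (by
    have : n = i + (j + (n - (i + j))) := by omega
    rw [this, Function.iterate_add_apply, Function.iterate_add_apply, hz, hy, hu])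
  refine ⟨f^[n - (i + j)] z', ?_⟩
  rw [← hz, ← hz']
  have : ∀ (d : ℕ) (w : K), algebraMap K Ω (f^[d] w) = f^[d] (algebraMap K Ω w) := by
    intro d
    induction d with
    | zero => intro w; rfl
    | succ d ih =>
      intro w
      rw [Function.iterate_succ_apply', Function.iterate_succ_apply', ← ih]
      unfold f; simp
  rw [this]

lemma res_fix {σ τ : Aut k Ω} (h : res K σ = res K τ) {x : Ω} (hx : ∃ z : K, algebraMap K Ω z = x) :
    σ x = τ x := by
  obtain ⟨z, rfl⟩ := hx
  rw [← res_comm, ← res_comm, h]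

lemma Fx_congr {x : Ω} {n : ℕ} (h : Cont K x n) {σ τ : Aut k Ω} (hr : res K σ = res K τ) :
    Fx σ x n ↔ Fx τ x n := by
  unfold Fx
  constructor
  · rintro ⟨y, hy, hy'⟩
    exact ⟨y, hy, by rw [← hy']; rw [hy']; rw [← res_fix hr (h y hy), hy']⟩
  · rintro ⟨y, hy, hy'⟩
    exact ⟨y, hy, by rw [res_fix hr (h y hy), hy']⟩

variable (K k) in
open Classical in
/-- the elements of the finite group with a fixed vertex -/
noncomputable def FA (x : Ω) (n : ℕ) : Finset (Aut k K) :=
  univ.filter fun a => ∃ σ : Aut k Ω, res K σ = a ∧ Fx σ x n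

lemma mem_FA {x : Ω} {n : ℕ} (h : Cont K x n) (σ : Aut k Ω) :
    res K σ ∈ FA k K x n ↔ Fx σ x n := by
  classical
  unfold FA
  rw [mem_filter, and_iff_right (mem_univ _)]
  constructor
  · rintro ⟨τ, hτ, h1⟩
    exact (Fx_congr h hτ).1 h1
  · intro h1
    exact ⟨σ, rfl, h1⟩

lemma res_U {x : Ω} {n : ℕ} (h : Cont K x n) {σ τ : Aut k Ω} (hσ : σ ∈ Γ k Ω) (hτ : τ ∈ Γ k Ω)
    (hr : res K σ = res K τ) : σ⁻¹ * τ ∈ U k n x := by
  refine ⟨(Γ k Ω).mul_mem ((Γ k Ω).inv_mem hσ) hτ, fun y hy => ?_⟩
  rw [AlgEquiv.mul_apply, ← res_fix hr (h y hy)]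
  change (σ⁻¹ * σ) y = y
  rw [inv_mul_cancel]
  rfl

open Classical in
/-- **The transfer of the proportions.** -/
lemma transfer {x : Ω} {N : ℕ} (hc : Cont K x N) {M : Subgroup (Aut k Ω)} (hM : U k N x ≤ M)
    (hMs : M ≤ St k x) {σ : Aut k Ω} (hσ : σ x = x) :
    ((FA k K x N).filter fun b => (res K σ)⁻¹ * b ∈ M.map (res K)).card *
        (el (Im k x N M)).card =
      ((EE σ x N x N).filter fun q => q ∈ Im k x N M).card * (el (M.map (res K))).card := by
  have hsurj := (res (k := k) (Ω := Ω) K).subgroupMap_surjective M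
  set ψ : M →* QG k x N := (QuotientGroup.mk' ((U k N x).subgroupOf (St k x))).comp
    (Subgroup.inclusion hMs) with hψ
  have hker : ((res (k := k) (Ω := Ω) K).subgroupMap M).ker ≤ ψ.ker := by
    intro g hg
    rw [MonoidHom.mem_ker] at hg ⊢
    have h1 : res K (1 : Aut k Ω) = res K (g : Aut k Ω) := by
      have := congrArg Subtype.val hg
      rw [map_one]
      exact this.symm
    have h2 := res_U hc (Γ k Ω).one_mem (hMs g.2).1 h1
    rw [inv_one, one_mul] at h2
    rw [hψ, MonoidHom.comp_apply, QuotientGroup.mk'_apply, QuotientGroup.eq_one_iff]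
    exact Subgroup.mem_subgroupOf.2 h2
  obtain ⟨φ, hφ⟩ : ∃ φ : M.map (res K) →* QG k x N,
      ∀ g : M, φ ((res (k := k) (Ω := Ω) K).subgroupMap M g) = ψ g :=
    ⟨MonoidHom.liftOfSurjective _ hsurj ⟨ψ, hker⟩, fun g =>
      MonoidHom.liftOfRightInverse_comp_apply _ _ _ _ _⟩
  have hrange : ∀ q : QG k x N, q ∈ φ.range ↔ q ∈ Im k x N M := by
    intro q
    constructor
    · rintro ⟨y, rfl⟩
      obtain ⟨g, rfl⟩ := hsurj y
      rw [hφ]
      exact (mem_Im hM _).2 g.2
    · intro hq
      obtain ⟨g, rfl⟩ := QuotientGroup.mk_surjective q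
      rw [mem_Im hM] at hq
      exact ⟨_, hφ ⟨(g : Aut k Ω), hq⟩⟩
  have h1 : (univ.filter fun y : M.map (res (k := k) (Ω := Ω) K) => φ y ∈ EE σ x N x N).card *
      (el φ.range).card = ((EE σ x N x N).filter (· ∈ φ.range)).card *
        Fintype.card (M.map (res (k := k) (Ω := Ω) K)) := by
    convert card_pull φ (EE σ x N x N)
  have h2 : (el φ.range).card = (el (Im k x N M)).card := by
    congr 1
    ext q
    rw [mem_el, mem_el, hrange]
  have h4 : Fintype.card (M.map (res (k := k) (Ω := Ω) K)) = (el (M.map (res K))).card := by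
    rw [← Fintype.card_coe]
    exact Fintype.card_congr ⟨fun y => ⟨y.1, mem_el.2 y.2⟩, fun y => ⟨y.1, mem_el.1 y.2⟩,
      fun _ => rfl, fun _ => rfl⟩
  have h5 : (univ.filter fun y : M.map (res K) => φ y ∈ EE σ x N x N).card =
      ((FA k K x N).filter fun b => (res K σ)⁻¹ * b ∈ M.map (res K)).card := by
    refine card_bij (fun y _ => res K σ * (y : Aut k K)) ?_ ?_ ?_
    · intro y hy
      obtain ⟨g, rfl⟩ := hsurj y
      rw [mem_filter, hφ] at hy
      rw [mem_filter]
      have e : (((res (k := k) (Ω := Ω) K).subgroupMap M g : M.map (res K)) : Aut k K) =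
        res K (g : Aut k Ω) := rfl
      refine ⟨?_, ?_⟩
      · rw [e, ← map_mul, mem_FA hc]
        exact (mem_EE (v := x) (i := 0) rfl (by omega) _).1 hy.2
      · rw [inv_mul_cancel_left]
        exact ((res (k := k) (Ω := Ω) K).subgroupMap M g).2
    · intro y _ y' _ h
      exact Subtype.ext (mul_left_cancel h)
    · intro b hb
      rw [mem_filter] at hb
      obtain ⟨g, hg, hgb⟩ := hb.2
      refine ⟨(res (k := k) (Ω := Ω) K).subgroupMap M ⟨g, hg⟩, ?_, ?_⟩
      · rw [mem_filter, hφ]
        refine ⟨mem_univ _, ?_⟩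
        refine (mem_EE (v := x) (i := 0) (j := N) rfl (by omega) ⟨g, hMs hg⟩).2 ?_
        rw [← mem_FA hc, map_mul]
        have : res K σ * res K g = b := by
          rw [hgb, mul_inv_cancel_left]
        exact this ▸ hb.1
      · have : res K σ * res K g = b := by
          rw [hgb, mul_inv_cancel_left]
        exact this
  rw [h2, h4, h5] at h1
  rw [h1]
  congr 2
  ext q
  rw [mem_filter, mem_filter, hrange]

end tr

end Pool.Agent.KS6_22.BA
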