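import Pool.Agent.KS6_22.BA.Tr

/-!
# Bounds in the Galois group of a finite extension

Owner helper22.
-/

set_option autoImplicit false
set_option linter.unusedSectionVars false
set_option linter.unusedVariables false

open Finset
open Q280.Basilica

namespace Pool.Agent.KS6_22.BA

section grp

variable {G : Type*} [Group G] [Fintype G]

open Classical in
/-- **The probability that two conditionally independent events occur.** -/
theorem indep_le {N₁ N₂ M : Subgroup G} (h1 : N₁ ≤ M) (h2 : N₂ ≤ M)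
    (hM : ∀ x ∈ M, ∃ a ∈ N₂, ∃ b ∈ N₁, x = a * b) {X E₁ E₂ : Finset G}
    (hX : ∀ x ∈ X, ∀ m ∈ M, x * m ∈ X) (hE1 : E₁ ⊆ X) (hE2 : E₂ ⊆ X)
    (i1 : ∀ x ∈ E₁, ∀ n ∈ N₁, x * n ∈ E₁) (i2 : ∀ x ∈ E₂, ∀ n ∈ N₂, x * n ∈ E₂) {B : ℝ}
    (b2 : ∀ g ∈ X, ((E₂.filter fun x => g⁻¹ * x ∈ M).card : ℝ) ≤ B * (el M).card) :
    ((E₁ ∩ E₂).card : ℝ) ≤ B * E₁.card := by
  set c : ℝ := ((el M).card : ℝ) with hc
  have hc0 : 0 < c := by
    rw [hc]
    exact_mod_cast el_pos M
  set a : G → ℝ := fun g => ((E₁.filter fun x => g⁻¹ * x ∈ M).card : ℝ) with ha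
  set b : G → ℝ := fun g => ((E₂.filter fun x => g⁻¹ * x ∈ M).card : ℝ) with hb
  have hab : ∀ g, a g * b g = (((E₁ ∩ E₂).filter fun x => g⁻¹ * x ∈ M).card : ℝ) * c := by
    intro g
    have h := indep_card h1 h2 hM (E₁ := E₁.filter fun x => g⁻¹ * x ∈ M)
      (E₂ := E₂.filter fun x => g⁻¹ * x ∈ M) (g := g) (fun x hx => (mem_filter.1 hx).2)
      (fun x hx => (mem_filter.1 hx).2) (fun x hx n hn => by
        rw [mem_filter] at hx ⊢
        exact ⟨i1 x hx.1 n hn, by
          rw [← mul_assoc]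
          exact M.mul_mem hx.2 (h1 hn)⟩) (fun x hx n hn => by
        rw [mem_filter] at hx ⊢
        exact ⟨i2 x hx.1 n hn, by
          rw [← mul_assoc]
          exact M.mul_mem hx.2 (h2 hn)⟩)
    have h3 : (E₁.filter fun x => g⁻¹ * x ∈ M) ∩ (E₂.filter fun x => g⁻¹ * x ∈ M) =
        (E₁ ∩ E₂).filter fun x => g⁻¹ * x ∈ M := by
      ext x
      simp only [mem_inter, mem_filter]
      tauto
    rw [h3] at h
    rw [ha, hb, hc]
    beta_reduce
    exact_mod_cast h.symm
  have sa : ∑ g ∈ X, a g = E₁.card * c := by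
    rw [ha, hc]
    beta_reduce
    exact_mod_cast sum_coset hX hE1
  have sab : ∑ g ∈ X, a g * b g = (E₁ ∩ E₂).card * c ^ 2 := by
    rw [sum_congr rfl fun g _ => hab g, ← sum_mul]
    have : ∑ g ∈ X, (((E₁ ∩ E₂).filter fun x => g⁻¹ * x ∈ M).card : ℝ) = (E₁ ∩ E₂).card * c := by
      rw [hc]
      exact_mod_cast sum_coset hX (inter_subset_left.trans hE1)
    rw [this]
    ring
  have ha0 : ∀ g, 0 ≤ a g := fun g => Nat.cast_nonneg _
  have h : ∑ g ∈ X, a g * b g ≤ ∑ g ∈ X, a g * (B * c) :=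
    sum_le_sum fun g hg => mul_le_mul_of_nonneg_left (b2 g hg) (ha0 g)
  rw [sab, ← sum_mul, sa] at h
  have h4 : ((E₁ ∩ E₂).card : ℝ) * c ^ 2 ≤ (B * E₁.card) * c ^ 2 := by
    refine h.trans (le_of_eq ?_)
    ring
  exact le_of_mul_le_mul_right h4 (by positivity)

open Classical in
/-- the size of an invariant set from the sizes in the cosets -/
lemma card_of_cosets {M : Subgroup G} {X E : Finset G} (hX : ∀ x ∈ X, ∀ m ∈ M, x * m ∈ X)
    (hE : E ⊆ X) {B : ℝ} :
    ((∀ g ∈ X, ((E.filter fun x => g⁻¹ * x ∈ M).card : ℝ) ≤ B * (el M).card) →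
      (E.card : ℝ) ≤ B * X.card) ∧
    ((∀ g ∈ X, B * (el M).card ≤ ((E.filter fun x => g⁻¹ * x ∈ M).card : ℝ)) →
      B * X.card ≤ (E.card : ℝ)) := by
  have hc0 : (0 : ℝ) < (el M).card := by exact_mod_cast el_pos M
  have h1 : ∑ g ∈ X, ((E.filter fun x => g⁻¹ * x ∈ M).card : ℝ) = E.card * (el M).card := by
    exact_mod_cast sum_coset hX hE
  constructor
  · intro h
    have h2 := sum_le_sum h
    rw [h1, sum_const, nsmul_eq_mul] at h2
    refine le_of_mul_le_mul_right ?_ hc0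
    refine h2.trans (le_of_eq ?_)
    ring
  · intro h
    have h2 := sum_le_sum h
    rw [h1, sum_const, nsmul_eq_mul] at h2
    refine le_of_mul_le_mul_right ?_ hc0
    refine (le_of_eq ?_).trans h2
    ring

end grp

section one

variable {k K Ω : Type*} [Field k] [Field K] [Field Ω] [Algebra k K] [Algebra k Ω] [Algebra K Ω]
  [IsScalarTower k K Ω] [Normal k K] [Normal k Ω] [IsAlgClosed Ω] [Fintype (Aut k K)]
  [CharZero Ω]

/-- the lower bound -/
noncomputable def lo (n : ℕ) : ℝ := 1 / ((n : ℝ) / 2 + Real.log n + 7)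

lemma Im_St {x : Ω} {N : ℕ} (q : QG k x N) : q ∈ Im k x N (St k x) := by
  obtain ⟨g, rfl⟩ := QuotientGroup.mk_surjective q
  rw [mem_Im (U_le_St N x)]
  exact g.2

open Classical in
lemma coset_bounds {x : Ω} {N : ℕ} (h0 : Good k x) (hc : Cont K x N) (hN : 1 ≤ N)
    {σ : Aut k Ω} (hσ : σ x = x) :
    (((FA k K x N).filter fun b => (res K σ)⁻¹ * b ∈ (St k x).map (res K)).card : ℝ) ≤
        2 / N * (el ((St k x).map (res K))).card ∧
      lo N * (el ((St k x).map (res K))).card ≤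
        (((FA k K x N).filter fun b => (res K σ)⁻¹ * b ∈ (St k x).map (res K)).card : ℝ) := by
  have h1 := transfer hc (U_le_St N x) le_rfl hσ
  have h2 : ((EE σ x N x N).filter fun q => q ∈ Im k x N (St k x)) = EE σ x N x N := by
    rw [filter_eq_self]
    intro q _
    exact Im_St q
  have h3 : el (Im k x N (St k x)) = univ := by
    rw [eq_univ_iff_forall]
    intro q
    exact mem_el.2 (Im_St q)
  rw [h2, h3] at h1
  have hrc := aa_rc (N := N) h0 hσ
  have h4 := hrc.le le_rfl hN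
  have h5 := hrc.ge le_rfl hN
  have h6 : aa σ x N N * ((univ : Finset (QG k x N)).card : ℝ) = ((EE σ x N x N).card : ℝ) := by
    unfold aa
    rw [Nat.sub_self]
    have h7 : cc σ x N 0 0 = ((univ : Finset (QG k x N)).card : ℝ) := by
      unfold cc
      have : br x 0 = x := rfl
      rw [this, EE_top hσ]
    have h8 : cc σ x N 0 N = ((EE σ x N x N).card : ℝ) := rfl
    rw [← h7, h8]
    exact div_mul_cancel₀ _ (cc_pos h0 hσ (by omega)).ne'
  set c : ℝ := (((FA k K x N).filter fun b =>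
    (res K σ)⁻¹ * b ∈ (St k x).map (res K)).card : ℝ) with hcdef
  set q : ℝ := ((univ : Finset (QG k x N)).card : ℝ) with hq
  set s : ℝ := ((el ((St k x).map (res K))).card : ℝ) with hs
  have hq0 : 0 < q := by
    rw [hq]
    exact_mod_cast card_pos.2 univ_nonempty
  have hs0 : 0 ≤ s := Nat.cast_nonneg _
  have h9 : c * q = aa σ x N N * q * s := by
    rw [h6, hcdef, hq, hs]
    exact_mod_cast h1
  have h10 : c = aa σ x N N * s := by
    apply mul_right_cancel₀ hq0.ne'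
    rw [h9]
    ring
  rw [h10]
  exact ⟨mul_le_mul_of_nonneg_right h4 hs0, mul_le_mul_of_nonneg_right h5 hs0⟩

open Classical in
lemma coset_Km {x : Ω} {n : ℕ} (h0 : Good k x) (hc : Cont K x (n + 1)) (hn : 1 ≤ n)
    (hT : ∃ t ∈ Km k ((n + 1) / 2) x h0.ne, t (br x 1) = -br x 1)
    {σ : Aut k Ω} (hσ : σ x = x) :
    (((FA k K x (n + 1)).filter fun b =>
        (res K σ)⁻¹ * b ∈ (Km k ((n + 1) / 2) x h0.ne).map (res K)).card : ℝ) ≤
        2 / n * (el ((Km k ((n + 1) / 2) x h0.ne).map (res K))).card := by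
  have hUK : U k (n + 1) x ≤ Km k ((n + 1) / 2) x h0.ne := U_le_Km h0 h0.ne
  have h1 := transfer hc hUK (fun g hg => hg.1) hσ
  have h2 := bound_child' (σ := σ) (v₀ := x) (N := n + 1) (u := x) (w := br x 1) (i := 0) (n := n)
    h0 hσ rfl (br_succ x 0) (by omega) h0.ne hT 1
  have h2' : ((EE σ x (n + 1) x (n + 1)).filter fun q =>
      q ∈ Im k x (n + 1) (Km k ((n + 1) / 2) x h0.ne)).card * (EE σ x (n + 1) (br x 1) 0).card ≤
      (EE σ x (n + 1) (br x 1) n).card *
        (el (Im k x (n + 1) (Km k ((n + 1) / 2) x h0.ne))).card := by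
    refine le_trans (le_of_eq ?_) h2
    congr 2
    ext q
    rw [mem_filter, mem_filter, inv_one, one_mul]
  have hrc := aa_rc (N := n + 1) h0 hσ
  have h4 := hrc.le (n := n) (by omega) hn
  have h6 : aa σ x (n + 1) n * ((EE σ x (n + 1) (br x 1) 0).card : ℝ) =
      ((EE σ x (n + 1) (br x 1) n).card : ℝ) := by
    unfold aa
    rw [show n + 1 - n = 1 by omega]
    exact div_mul_cancel₀ _ (cc_pos (i := 1) h0 hσ (by omega)).ne'
  have h7 : (0 : ℝ) < ((EE σ x (n + 1) (br x 1) 0).card : ℝ) := cc_pos (i := 1) h0 hσ (by omega)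
  set c : ℝ := (((FA k K x (n + 1)).filter fun b =>
        (res K σ)⁻¹ * b ∈ (Km k ((n + 1) / 2) x h0.ne).map (res K)).card : ℝ) with hcdef
  set s : ℝ := ((el ((Km k ((n + 1) / 2) x h0.ne).map (res K))).card : ℝ) with hs
  set e : ℝ := ((EE σ x (n + 1) (br x 1) 0).card : ℝ) with he
  set l : ℝ := ((el (Im k x (n + 1) (Km k ((n + 1) / 2) x h0.ne))).card : ℝ) with hl
  set d : ℝ := (((EE σ x (n + 1) x (n + 1)).filter fun q =>
      q ∈ Im k x (n + 1) (Km k ((n + 1) / 2) x h0.ne)).card : ℝ) with hd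
  have hl0 : 0 < l := by
    rw [hl]
    exact_mod_cast el_pos _
  have hs0 : 0 ≤ s := Nat.cast_nonneg _
  have h8 : c * l = d * s := by
    rw [hcdef, hl, hd, hs]
    exact_mod_cast h1
  have h9 : d * e ≤ aa σ x (n + 1) n * e * l := by
    rw [h6, hd, he, hl]
    exact_mod_cast h2'
  have h10 : d ≤ aa σ x (n + 1) n * l := by
    refine le_of_mul_le_mul_right ?_ h7
    refine h9.trans (le_of_eq ?_)
    ring
  refine le_of_mul_le_mul_right ?_ hl0
  calc c * l = d * s := h8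
    _ ≤ (aa σ x (n + 1) n * l) * s := mul_le_mul_of_nonneg_right h10 hs0
    _ ≤ (2 / n * l) * s :=
        mul_le_mul_of_nonneg_right (mul_le_mul_of_nonneg_right h4 hl0.le) hs0
    _ = 2 / n * s * l := by ring

end one

end Pool.Agent.KS6_22.BA
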