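import Pool.Agent.KS6_22.BA.Tr2

/-!
# Two vertices

Owner helper22.
-/

set_option autoImplicit false
set_option linter.unusedSectionVars false
set_option linter.unusedVariables false

open Finset
open Q280.Basilica

namespace Pool.Agent.KS6_22.BA

section two

variable {k K Ω : Type*} [Field k] [Field K] [Field Ω] [Algebra k K] [Algebra k Ω] [Algebra K Ω]
  [IsScalarTower k K Ω] [Normal k K] [Normal k Ω] [IsAlgClosed Ω] [Fintype (Aut k K)]
  [CharZero Ω]

lemma FA_mul {x : Ω} {n : ℕ} (hc : Cont K x n) {b u' : Aut k K} (hb : b ∈ FA k K x n)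
    (hu : u' ∈ (U k n x).map (res K)) : b * u' ∈ FA k K x n := by
  obtain ⟨σ, rfl⟩ := res_surj (Ω := Ω) b
  obtain ⟨u, hu, rfl⟩ := hu
  rw [mem_FA hc] at hb
  rw [← map_mul, mem_FA hc, Fx_mul hu]
  exact hb

open Classical in
/-- two independent vertices -/
lemma pair_indep {x y : Ω} {N : ℕ} (hx : Good k x) (hy : Good k y) (hSt : St k x = St k y)
    (hcx : Cont K x N) (hcy : Cont K y N) (hN : 1 ≤ N)
    (hgen : ∀ τ ∈ St k x, ∃ a ∈ U k N x, ∃ b ∈ U k N y, τ = a * b)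
    {σ : Aut k Ω} (hσx : σ x = x) (hσy : σ y = y) :
    (((FA k K x N ∩ FA k K y N).filter fun b =>
      (res K σ)⁻¹ * b ∈ (St k x).map (res K)).card : ℝ) ≤
        (2 / N) ^ 2 * (el ((St k x).map (res K))).card := by
  set M := (St k x).map (res K) with hM
  have h1 := (coset_bounds hx hcx hN hσx).1
  have h2 := (coset_bounds hy hcy hN hσy).1
  rw [← hSt] at h2
  rw [← hM] at h1 h2
  set E₁ := (FA k K y N).filter fun b => (res K σ)⁻¹ * b ∈ M with hE₁
  set E₂ := (FA k K x N).filter fun b => (res K σ)⁻¹ * b ∈ M with hE₂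
  have hUx : (U k N x).map (res K) ≤ M := Subgroup.map_mono (U_le_St N x)
  have hUy : (U k N y).map (res K) ≤ M := by
    rw [hM, hSt]
    exact Subgroup.map_mono (U_le_St N y)
  have key := indep_card (N₁ := (U k N y).map (res K)) (N₂ := (U k N x).map (res K)) (M := M)
    (E₁ := E₁) (E₂ := E₂) (g := res K σ) hUy hUx ?_ (fun b hb => (mem_filter.1 hb).2)
    (fun b hb => (mem_filter.1 hb).2) ?_ ?_
  · have h3 : (FA k K x N ∩ FA k K y N).filter (fun b => (res K σ)⁻¹ * b ∈ M) = E₁ ∩ E₂ := by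
      ext b
      rw [mem_filter, mem_inter, mem_inter, hE₁, hE₂, mem_filter, mem_filter]
      tauto
    rw [h3]
    set s : ℝ := ((el M).card : ℝ) with hs
    have hs0 : 0 < s := by
      rw [hs]
      exact_mod_cast el_pos _
    refine le_of_mul_le_mul_right ?_ hs0
    have h4 : (((E₁ ∩ E₂).card : ℕ) : ℝ) * s = (E₁.card : ℝ) * E₂.card := by
      rw [hs]
      exact_mod_cast key
    rw [h4]
    calc (E₁.card : ℝ) * E₂.card ≤ (2 / N * s) * (2 / N * s) :=
          mul_le_mul h2 h1 (Nat.cast_nonneg _) (by positivity)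
      _ = (2 / N) ^ 2 * s * s := by ring
  · rintro _ ⟨τ, hτ, rfl⟩
    obtain ⟨a, ha, b, hb, rfl⟩ := hgen τ hτ
    exact ⟨res K a, ⟨a, ha, rfl⟩, res K b, ⟨b, hb, rfl⟩, map_mul _ _ _⟩
  · intro b hb u hu
    rw [hE₁, mem_filter] at hb ⊢
    refine ⟨FA_mul hcy hb.1 hu, ?_⟩
    rw [← mul_assoc]
    exact M.mul_mem hb.2 (hUy hu)
  · intro b hb u hu
    rw [hE₂, mem_filter] at hb ⊢
    refine ⟨FA_mul hcx hb.1 hu, ?_⟩
    rw [← mul_assoc]
    exact M.mul_mem hb.2 (hUx hu)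

open Classical in
/-- two vertices with a common symbol -/
lemma pair_km {x y : Ω} {n : ℕ} (hx : Good k x) (hy : Good k y) (hSt : St k x = St k y)
    (hcx : Cont K x (n + 1)) (hcy : Cont K y (n + 1)) (hn : 1 ≤ n)
    (hT : ∃ t ∈ Km k ((n + 1) / 2) x hx.ne, t (br x 1) = -br x 1)
    (hUy : U k (n + 1) y ≤ Km k ((n + 1) / 2) x hx.ne)
    (hgen : ∀ τ ∈ Km k ((n + 1) / 2) x hx.ne, ∃ a ∈ U k (n + 1) x, ∃ b ∈ U k (n + 1) y, τ = a * b)
    {σ : Aut k Ω} (hσx : σ x = x) (hσy : σ y = y) :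
    (((FA k K x (n + 1) ∩ FA k K y (n + 1)).filter fun b =>
      (res K σ)⁻¹ * b ∈ (St k x).map (res K)).card : ℝ) ≤
        (2 / n * (2 / (n + 1 : ℕ))) * (el ((St k x).map (res K))).card := by
  set M := (St k x).map (res K) with hM
  have h2 := (coset_bounds hy hcy (by omega) hσy).1
  rw [← hSt, ← hM] at h2
  set E₁ := (FA k K y (n + 1)).filter fun b => (res K σ)⁻¹ * b ∈ M with hE₁
  set E₂ := (FA k K x (n + 1)).filter fun b => (res K σ)⁻¹ * b ∈ M with hE₂
  set L := (Km k ((n + 1) / 2) x hx.ne).map (res K) with hL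
  have hLM : L ≤ M := Subgroup.map_mono (fun g hg => hg.1)
  have hUx : (U k (n + 1) x).map (res K) ≤ L := Subgroup.map_mono (U_le_Km hx hx.ne)
  have hUy' : (U k (n + 1) y).map (res K) ≤ L := Subgroup.map_mono hUy
  have key := indep_le (N₁ := (U k (n + 1) y).map (res K)) (N₂ := (U k (n + 1) x).map (res K))
    (M := L) (X := univ.filter fun b => (res K σ)⁻¹ * b ∈ M)
    (E₁ := E₁) (E₂ := E₂) (B := 2 / n) hUy' hUx ?_ ?_ ?_ ?_ ?_ ?_ ?_
  · have h3 : (FA k K x (n + 1) ∩ FA k K y (n + 1)).filter (fun b => (res K σ)⁻¹ * b ∈ M) =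
        E₁ ∩ E₂ := by
      ext b
      rw [mem_filter, mem_inter, mem_inter, hE₁, hE₂, mem_filter, mem_filter]
      tauto
    rw [h3]
    have key' : ((E₁ ∩ E₂).card : ℝ) ≤ 2 / n * E₁.card := by
      convert key
    refine key'.trans ?_
    rw [mul_assoc]
    exact mul_le_mul_of_nonneg_left h2 (by positivity)
  · rintro _ ⟨τ, hτ, rfl⟩
    obtain ⟨a, ha, b, hb, rfl⟩ := hgen τ hτ
    exact ⟨res K a, ⟨a, ha, rfl⟩, res K b, ⟨b, hb, rfl⟩, map_mul _ _ _⟩
  · intro b hb l hl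
    rw [mem_filter] at hb ⊢
    refine ⟨mem_univ _, ?_⟩
    rw [← mul_assoc]
    exact M.mul_mem hb.2 (hLM hl)
  · intro b hb
    rw [hE₁, mem_filter] at hb
    rw [mem_filter]
    exact ⟨mem_univ _, hb.2⟩
  · intro b hb
    rw [hE₂, mem_filter] at hb
    rw [mem_filter]
    exact ⟨mem_univ _, hb.2⟩
  · intro b hb u hu
    rw [hE₁, mem_filter] at hb ⊢
    refine ⟨FA_mul hcy hb.1 hu, ?_⟩
    rw [← mul_assoc]
    exact M.mul_mem hb.2 (hLM (hUy' hu))
  · intro b hb u hu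
    rw [hE₂, mem_filter] at hb ⊢
    refine ⟨FA_mul hcx hb.1 hu, ?_⟩
    rw [← mul_assoc]
    exact M.mul_mem hb.2 (hLM (hUx hu))
  · intro g hg
    rw [mem_filter] at hg
    obtain ⟨h, hh, hhg⟩ := hg.2
    have e1 : g = res K (σ * h) := by
      rw [map_mul, hhg, mul_inv_cancel_left]
    have hσh : (σ * h) x = x := by
      rw [AlgEquiv.mul_apply, hh.2, hσx]
    have h4 := coset_Km hx hcx hn hT hσh
    rw [← e1, ← hL] at h4
    refine le_trans ?_ h4
    have h5 : (E₂.filter fun b => g⁻¹ * b ∈ L) ⊆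
        (FA k K x (n + 1)).filter fun b => g⁻¹ * b ∈ L := by
      rw [hE₂]
      exact filter_subset_filter _ (filter_subset _ _)
    exact_mod_cast card_le_card h5

/-- the elements fixing a vertex -/
def XA (k K : Type*) {Ω : Type*} [Field k] [Field K] [Field Ω] [Algebra k K] [Algebra k Ω]
    [Algebra K Ω] [IsScalarTower k K Ω] [Normal k K] (x : Ω) : Set (Aut k K) :=
  {b | ∃ σ : Aut k Ω, res K σ = b ∧ σ x = x}

open Classical in
/-- the total number of elements with two fixed vertices -/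
lemma inter_total {x y : Ω} {N : ℕ} (hSt : St k x = St k y)
    (hcx : Cont K x N) (hcy : Cont K y N) {B : ℝ} (hB : 0 ≤ B)
    (h : ∀ σ : Aut k Ω, σ x = x → σ y = y → (((FA k K x N ∩ FA k K y N).filter fun b =>
      (res K σ)⁻¹ * b ∈ (St k x).map (res K)).card : ℝ) ≤
        B * (el ((St k x).map (res K))).card) :
    ((FA k K x N ∩ FA k K y N).card : ℝ) ≤ B * Fintype.card (Aut k K) := by
  have h1 := (card_of_cosets (M := (St k x).map (res K))
    (X := (univ : Finset (Aut k K)).filter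
      fun b => ∃ σ : Aut k Ω, res K σ = b ∧ σ x = x ∧ σ y = y)
    (E := FA k K x N ∩ FA k K y N) (B := B) ?_ ?_).1 ?_
  · refine h1.trans (mul_le_mul_of_nonneg_left ?_ hB)
    exact_mod_cast card_le_univ _
  · intro b hb u hu
    rw [mem_filter] at hb ⊢
    obtain ⟨-, σ, rfl, h1, h2⟩ := hb
    obtain ⟨τ, hτ, rfl⟩ := hu
    refine ⟨mem_univ _, σ * τ, map_mul _ _ _, ?_, ?_⟩
    · rw [AlgEquiv.mul_apply, hτ.2, h1]
    · rw [SetLike.mem_coe, hSt] at hτ
      rw [AlgEquiv.mul_apply, hτ.2, h2]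
  · intro b hb
    obtain ⟨σ, rfl⟩ := res_surj (Ω := Ω) b
    rw [mem_inter, mem_FA hcx, mem_FA hcy] at hb
    rw [mem_filter]
    exact ⟨mem_univ _, σ, rfl, Fx_fix hb.1, Fx_fix hb.2⟩
  · intro g hg
    rw [mem_filter] at hg
    obtain ⟨-, σ, rfl, h2, h3⟩ := hg
    exact h σ h2 h3

open Classical in
/-- the total number of elements with a fixed vertex above a given one -/
lemma one_total {x : Ω} {N : ℕ} (h0 : Good k x) (hc : Cont K x N) (hN : 1 ≤ N) :
    ((FA k K x N).card : ℝ) ≤ 2 / N * ((univ : Finset (Aut k K)).filter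
      fun b => ∃ σ : Aut k Ω, res K σ = b ∧ σ x = x).card ∧
    lo N * ((univ : Finset (Aut k K)).filter
      fun b => ∃ σ : Aut k Ω, res K σ = b ∧ σ x = x).card ≤ ((FA k K x N).card : ℝ) := by
  have hX : ∀ b ∈ (univ : Finset (Aut k K)).filter
      (fun b => ∃ σ : Aut k Ω, res K σ = b ∧ σ x = x), ∀ m ∈ (St k x).map (res K),
      b * m ∈ (univ : Finset (Aut k K)).filter
      (fun b => ∃ σ : Aut k Ω, res K σ = b ∧ σ x = x) := by
    intro b hb u hu
    rw [mem_filter] at hb ⊢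
    obtain ⟨-, σ, rfl, h1⟩ := hb
    obtain ⟨τ, hτ, rfl⟩ := hu
    exact ⟨mem_univ _, σ * τ, map_mul _ _ _, by rw [AlgEquiv.mul_apply, hτ.2, h1]⟩
  have hE : FA k K x N ⊆ (univ : Finset (Aut k K)).filter
      (fun b => ∃ σ : Aut k Ω, res K σ = b ∧ σ x = x) := by
    intro b hb
    obtain ⟨σ, rfl⟩ := res_surj (Ω := Ω) b
    rw [mem_FA hc] at hb
    rw [mem_filter]
    exact ⟨mem_univ _, σ, rfl, Fx_fix hb⟩
  constructor
  · refine (card_of_cosets hX hE).1 ?_
    intro g hg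
    rw [mem_filter] at hg
    obtain ⟨-, σ, rfl, h2⟩ := hg
    exact (coset_bounds h0 hc hN h2).1
  · refine (card_of_cosets hX hE).2 ?_
    intro g hg
    rw [mem_filter] at hg
    obtain ⟨-, σ, rfl, h2⟩ := hg
    exact (coset_bounds h0 hc hN h2).2

end two

end Pool.Agent.KS6_22.BA
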